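import Pool.Agent.GridLat.Main

/-!
# Sequences of grids with equicontinuous difference fields
-/

set_option autoImplicit false

namespace Pool.Agent.C1Grid

open Pool.Agent.GridLat Filter Topology

/-- The linear map with columns `g1`, `g2`. -/
def lin (g1 g2 : ℝ × ℝ) : ℝ × ℝ →L[ℝ] ℝ × ℝ :=
  (ContinuousLinearMap.fst ℝ ℝ ℝ).smulRight g1 + (ContinuousLinearMap.snd ℝ ℝ ℝ).smulRight g2

theorem lin_apply (g1 g2 u : ℝ × ℝ) : lin g1 g2 u = u.1 • g1 + u.2 • g2 := by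
  simp [lin]

/-- A sequence of grids of growing size, with bounded, nondegenerate and equicontinuous
difference fields, all of whose angles are large. -/
structure Grids (m : ℕ → ℕ) (Q : ℕ → ℤ × ℤ → ℝ × ℝ) (a : ℕ → ℝ) (K κ ε : ℝ) : Prop where
  hm : Tendsto m atTop atTop
  hκ : 0 < κ
  hε : 0 < ε
  bd1 : ∀ k z, box (m k) z → box (m k) (z + (1, 0)) → ‖Q k (z + (1, 0)) - Q k z‖ ≤ K
  bd2 : ∀ k z, box (m k) z → box (m k) (z + (0, 1)) → ‖Q k (z + (0, 1)) - Q k z‖ ≤ K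
  det : ∀ k z, box (m k) z → box (m k) (z + (1, 0)) → box (m k) (z + (0, 1)) →
    κ ≤ |cr (Q k (z + (1, 0)) - Q k z) (Q k (z + (0, 1)) - Q k z)|
  ec1 : ∀ η > 0, ∃ ρ : ℝ, 0 < ρ ∧ ∀ᶠ k in atTop, ∀ z z', box (m k) z → box (m k) (z + (1, 0)) →
    box (m k) z' → box (m k) (z' + (1, 0)) → ‖vv (z' - z)‖ ≤ ρ * m k →
    ‖(Q k (z' + (1, 0)) - Q k z') - (Q k (z + (1, 0)) - Q k z)‖ ≤ η
  ec2 : ∀ η > 0, ∃ ρ : ℝ, 0 < ρ ∧ ∀ᶠ k in atTop, ∀ z z', box (m k) z → box (m k) (z + (0, 1)) →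
    box (m k) z' → box (m k) (z' + (0, 1)) → ‖vv (z' - z)‖ ≤ ρ * m k →
    ‖(Q k (z' + (0, 1)) - Q k z') - (Q k (z + (0, 1)) - Q k z)‖ ≤ η
  wide : ∀ k, Wide (m k) (a k) (Q k)
  large : ∀ k, ε ≤ a k * (m k : ℝ) ^ 2

/-- The limit of the grids along an ultrafilter. -/
structure Lim (U : Ultrafilter ℕ) (m : ℕ → ℕ) (Q : ℕ → ℤ × ℤ → ℝ × ℝ) (κ : ℝ)
    (Φ G1 G2 : ℝ × ℝ → ℝ × ℝ) : Prop where
  pos : ∀ (z : ℕ → ℤ × ℤ) (y : ℝ × ℝ), ‖y‖ < 1 →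
    Tendsto (fun k => (m k : ℝ)⁻¹ • vv (z k)) U (𝓝 y) →
    Tendsto (fun k => (m k : ℝ)⁻¹ • (Q k (z k) - Q k 0)) U (𝓝 (Φ y))
  d1 : ∀ (z : ℕ → ℤ × ℤ) (y : ℝ × ℝ), ‖y‖ < 1 →
    Tendsto (fun k => (m k : ℝ)⁻¹ • vv (z k)) U (𝓝 y) →
    Tendsto (fun k => Q k (z k + (1, 0)) - Q k (z k)) U (𝓝 (G1 y))
  d2 : ∀ (z : ℕ → ℤ × ℤ) (y : ℝ × ℝ), ‖y‖ < 1 →
    Tendsto (fun k => (m k : ℝ)⁻¹ • vv (z k)) U (𝓝 y) →
    Tendsto (fun k => Q k (z k + (0, 1)) - Q k (z k)) U (𝓝 (G2 y))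
  cont1 : ContinuousOn G1 (Metric.ball 0 1)
  cont2 : ContinuousOn G2 (Metric.ball 0 1)
  der : ∀ y ∈ Metric.ball (0 : ℝ × ℝ) 1, HasFDerivAt Φ (lin (G1 y) (G2 y)) y
  det : ∀ y ∈ Metric.ball (0 : ℝ × ℝ) 1, κ ≤ |cr (G1 y) (G2 y)|

/-- The integer vector turned by a right angle. -/
def perp (v : ℤ × ℤ) : ℤ × ℤ := (-v.2, v.1)

end Pool.Agent.C1Grid
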