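import Pool.Agent.C1Grid.Defs

/-!
# A row seen from far away: the two slopes are commensurable
-/

set_option autoImplicit false

namespace Pool.Agent.C1Grid

open Pool.Agent.GridLat Filter Topology

/-- Discrete intermediate values. -/
theorem disc_ivt (f : ℤ → ℝ) (N : ℕ) {c : ℝ} (hc : 0 ≤ c) (h1 : f (-(N : ℤ)) ≤ 0) (h2 : 0 ≤ f N)
    (hstep : ∀ t : ℤ, -(N : ℤ) ≤ t → t < N → f (t + 1) - f t ≤ c) :
    ∃ t : ℤ, -(N : ℤ) ≤ t ∧ t ≤ N ∧ |f t| ≤ c := by
  classical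
  have hex : ∃ i : ℕ, 0 ≤ f (-(N : ℤ) + i) := by
    refine ⟨2 * N, ?_⟩
    have e : -(N : ℤ) + ((2 * N : ℕ) : ℤ) = N := by push_cast; ring
    rw [e]
    exact h2
  obtain ⟨i, hi⟩ : ∃ i, i = Nat.find hex := ⟨_, rfl⟩
  have hi0 : 0 ≤ f (-(N : ℤ) + i) := by rw [hi]; exact Nat.find_spec hex
  have hmin : ∀ j < i, f (-(N : ℤ) + j) < 0 := by
    intro j hj
    rw [hi] at hj
    exact not_le.1 (Nat.find_min hex hj)
  have hi2 : i ≤ 2 * N := by
    by_contra hcon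
    push Not at hcon
    have := hmin (2 * N) hcon
    have e : -(N : ℤ) + ((2 * N : ℕ) : ℤ) = N := by push_cast; ring
    rw [e] at this
    linarith
  refine ⟨-(N : ℤ) + i, by omega, by omega, ?_⟩
  rcases Nat.eq_zero_or_pos i with h0 | h0
  · subst h0
    have e : -(N : ℤ) + ((0 : ℕ) : ℤ) = -(N : ℤ) := by simp
    rw [e] at hi0 ⊢
    have : f (-(N : ℤ)) = 0 := le_antisymm h1 hi0
    rw [this, abs_zero]
    exact hc
  · obtain ⟨j, rfl⟩ : ∃ j, i = j + 1 := ⟨i - 1, by omega⟩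
    have h3 := hmin j (Nat.lt_succ_self j)
    have h4 := hstep (-(N : ℤ) + j) (by omega) (by omega)
    have e : -(N : ℤ) + ((j + 1 : ℕ) : ℤ) = -(N : ℤ) + j + 1 := by push_cast; ring
    rw [e] at hi0 ⊢
    rw [abs_of_nonneg hi0]
    linarith

variable {U : Ultrafilter ℕ} {m : ℕ → ℕ}

/-- The scale tends to infinity along the ultrafilter. -/
theorem tendsto_scale (hm : Tendsto m atTop atTop) (hU : (U : Filter ℕ) ≤ atTop) :
    Tendsto (fun k => (m k : ℝ)) U atTop :=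
  (tendsto_natCast_atTop_atTop.comp hm).mono_left hU

theorem tendsto_inv_scale (hm : Tendsto m atTop atTop) (hU : (U : Filter ℕ) ≤ atTop) :
    Tendsto (fun k => (m k : ℝ)⁻¹) U (𝓝 0) :=
  tendsto_inv_atTop_zero.comp (tendsto_scale hm hU)

theorem vv_add (u v : ℤ × ℤ) : vv (u + v) = vv u + vv v := by
  ext <;> simp [vv]

theorem vv_zsmul (n : ℤ) (v : ℤ × ℤ) : vv (n • v) = (n : ℝ) • vv v := by
  ext <;> simp [vv]

/-- Shift of a sequence of grid points by a bounded amount. -/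
theorem tendsto_shift (hm : Tendsto m atTop atTop) (hU : (U : Filter ℕ) ≤ atTop)
    {z : ℕ → ℤ × ℤ} {y : ℝ × ℝ} (hz : Tendsto (fun k => (m k : ℝ)⁻¹ • vv (z k)) U (𝓝 y))
    (u : ℤ × ℤ) : Tendsto (fun k => (m k : ℝ)⁻¹ • vv (z k + u)) U (𝓝 y) := by
  have h1 : Tendsto (fun k => (m k : ℝ)⁻¹ • vv u) U (𝓝 ((0 : ℝ) • vv u)) :=
    (tendsto_inv_scale hm hU).smul_const _
  have h2 := hz.add h1
  rw [zero_smul, add_zero] at h2
  refine h2.congr ?_
  intro k
  rw [vv_add, smul_add]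

/-- Shift of a sequence of grid points by multiples of a vector. -/
theorem tendsto_move {z : ℕ → ℤ × ℤ} {y : ℝ × ℝ} {s : ℝ}
    (hz : Tendsto (fun k => (m k : ℝ)⁻¹ • vv (z k)) U (𝓝 y)) {t : ℕ → ℤ}
    (ht : Tendsto (fun k => (m k : ℝ)⁻¹ * (t k : ℝ)) U (𝓝 s)) (w : ℤ × ℤ) :
    Tendsto (fun k => (m k : ℝ)⁻¹ • vv (z k + t k • w)) U (𝓝 (y + s • vv w)) := by
  refine (hz.add (ht.smul_const (vv w))).congr ?_
  intro k
  rw [vv_add, vv_zsmul, smul_add, smul_smul]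

/-- The points `⌊m x⌋`. -/
theorem tendsto_floor (hm : Tendsto m atTop atTop) (hU : (U : Filter ℕ) ≤ atTop) (x : ℝ × ℝ) :
    Tendsto (fun k => (m k : ℝ)⁻¹ • vv (⌊(m k : ℝ) * x.1⌋, ⌊(m k : ℝ) * x.2⌋)) U (𝓝 x) := by
  have key : ∀ r : ℝ, Tendsto (fun k => (m k : ℝ)⁻¹ * (⌊(m k : ℝ) * r⌋ : ℝ)) U (𝓝 r) := by
    intro r
    have h0 := tendsto_inv_scale hm hU
    have h1 : Tendsto (fun k => r - (m k : ℝ)⁻¹) U (𝓝 r) := by
      have := (tendsto_const_nhds (x := r)).sub h0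
      simpa using this
    have hpos : ∀ᶠ k in (U : Filter ℕ), (0 : ℝ) < m k :=
      (tendsto_scale hm hU).eventually (eventually_gt_atTop 0)
    refine tendsto_of_tendsto_of_tendsto_of_le_of_le' h1 tendsto_const_nhds ?_ ?_
    · filter_upwards [hpos] with k hk
      have h2 := (Int.sub_one_lt_floor ((m k : ℝ) * r)).le
      have h3 := mul_le_mul_of_nonneg_left h2 (inv_nonneg.2 hk.le)
      have e : (m k : ℝ)⁻¹ * ((m k : ℝ) * r - 1) = r - (m k : ℝ)⁻¹ := by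
        field_simp
      linarith
    · filter_upwards [hpos] with k hk
      have h2 := Int.floor_le ((m k : ℝ) * r)
      have h3 := mul_le_mul_of_nonneg_left h2 (inv_nonneg.2 hk.le)
      have e : (m k : ℝ)⁻¹ * ((m k : ℝ) * r) = r := by
        field_simp
      linarith
  have := (key x.1).prodMk_nhds (key x.2)
  exact this

/-- A sequence of grid points with a limit in the open box is eventually in the box. -/
theorem eventually_box (hm : Tendsto m atTop atTop) (hU : (U : Filter ℕ) ≤ atTop)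
    {z : ℕ → ℤ × ℤ} {y : ℝ × ℝ} (hy : ‖y‖ < 1)
    (hz : Tendsto (fun k => (m k : ℝ)⁻¹ • vv (z k)) U (𝓝 y)) :
    ∀ᶠ k in (U : Filter ℕ), box (m k) (z k) := by
  have hpos : ∀ᶠ k in (U : Filter ℕ), (0 : ℝ) < m k :=
    (tendsto_scale hm hU).eventually (eventually_gt_atTop 0)
  have h1 : ∀ᶠ k in (U : Filter ℕ), ‖(m k : ℝ)⁻¹ • vv (z k)‖ < 1 :=
    (hz.norm).eventually (gt_mem_nhds hy)
  filter_upwards [hpos, h1] with k hk h
  rw [norm_smul, norm_inv, Real.norm_of_nonneg hk.le, inv_mul_lt_iff₀ hk, mul_one] at h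
  have h2 : ‖(vv (z k)).1‖ < m k := (norm_fst_le _).trans_lt h
  have h3 : ‖(vv (z k)).2‖ < m k := (norm_snd_le _).trans_lt h
  simp only [vv, Real.norm_eq_abs] at h2 h3
  constructor
  · exact_mod_cast h2.le
  · exact_mod_cast h3.le

variable {Q : ℕ → ℤ × ℤ → ℝ × ℝ} {κ : ℝ} {Φ G1 G2 : ℝ × ℝ → ℝ × ℝ}

theorem Lim.dn1 (hL : Lim U m Q κ Φ G1 G2) (hm : Tendsto m atTop atTop)
    (hU : (U : Filter ℕ) ≤ atTop) {z : ℕ → ℤ × ℤ} {y : ℝ × ℝ} (hy : ‖y‖ < 1)
    (hz : Tendsto (fun k => (m k : ℝ)⁻¹ • vv (z k)) U (𝓝 y)) (n : ℤ) :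
    Tendsto (fun k => Q k (z k + (n, 0)) - Q k (z k)) U (𝓝 ((n : ℝ) • G1 y)) := by
  induction n using Int.induction_on with
  | zero =>
    have e0 : (fun k => Q k (z k + ((0 : ℤ), (0 : ℤ))) - Q k (z k)) = fun _ => (0 : ℝ × ℝ) := by
      funext k
      have : z k + ((0 : ℤ), (0 : ℤ)) = z k := by ext <;> simp
      rw [this, sub_self]
    rw [e0, Int.cast_zero, zero_smul]
    exact tendsto_const_nhds
  | succ i ih =>
    have h1 := hL.d1 (fun k => z k + ((i : ℤ), 0)) y hy (tendsto_shift hm hU hz _)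
    have h2 := h1.add ih
    have e : G1 y + ((i : ℤ) : ℝ) • G1 y = (((i : ℤ) + 1 : ℤ) : ℝ) • G1 y := by
      push_cast; rw [add_smul, one_smul, add_comm]
    rw [e] at h2
    refine h2.congr ?_
    intro k
    have : z k + ((i : ℤ), 0) + (1, 0) = z k + ((i : ℤ) + 1, 0) := by ext <;> simp [add_assoc]
    rw [this]; abel
  | pred i ih =>
    have h1 := hL.d1 (fun k => z k + (-(i : ℤ) - 1, 0)) y hy (tendsto_shift hm hU hz _)
    have h2 := ih.sub h1
    have e : ((-(i : ℤ) : ℤ) : ℝ) • G1 y - G1 y = ((-(i : ℤ) - 1 : ℤ) : ℝ) • G1 y := by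
      push_cast; rw [sub_smul, one_smul]
    rw [e] at h2
    refine h2.congr ?_
    intro k
    have : z k + (-(i : ℤ) - 1, 0) + (1, 0) = z k + (-(i : ℤ), 0) := by
      ext <;> simp [add_assoc]
    rw [this]; abel

theorem Lim.dn2 (hL : Lim U m Q κ Φ G1 G2) (hm : Tendsto m atTop atTop)
    (hU : (U : Filter ℕ) ≤ atTop) {z : ℕ → ℤ × ℤ} {y : ℝ × ℝ} (hy : ‖y‖ < 1)
    (hz : Tendsto (fun k => (m k : ℝ)⁻¹ • vv (z k)) U (𝓝 y)) (n : ℤ) :
    Tendsto (fun k => Q k (z k + (0, n)) - Q k (z k)) U (𝓝 ((n : ℝ) • G2 y)) := by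
  induction n using Int.induction_on with
  | zero =>
    have e0 : (fun k => Q k (z k + ((0 : ℤ), (0 : ℤ))) - Q k (z k)) = fun _ => (0 : ℝ × ℝ) := by
      funext k
      have : z k + ((0 : ℤ), (0 : ℤ)) = z k := by ext <;> simp
      rw [this, sub_self]
    rw [e0, Int.cast_zero, zero_smul]
    exact tendsto_const_nhds
  | succ i ih =>
    have h1 := hL.d2 (fun k => z k + (0, (i : ℤ))) y hy (tendsto_shift hm hU hz _)
    have h2 := h1.add ih
    have e : G2 y + ((i : ℤ) : ℝ) • G2 y = (((i : ℤ) + 1 : ℤ) : ℝ) • G2 y := by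
      push_cast; rw [add_smul, one_smul, add_comm]
    rw [e] at h2
    refine h2.congr ?_
    intro k
    have : z k + (0, (i : ℤ)) + (0, 1) = z k + (0, (i : ℤ) + 1) := by ext <;> simp [add_assoc]
    rw [this]; abel
  | pred i ih =>
    have h1 := hL.d2 (fun k => z k + (0, -(i : ℤ) - 1)) y hy (tendsto_shift hm hU hz _)
    have h2 := ih.sub h1
    have e : ((-(i : ℤ) : ℤ) : ℝ) • G2 y - G2 y = ((-(i : ℤ) - 1 : ℤ) : ℝ) • G2 y := by
      push_cast; rw [sub_smul, one_smul]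
    rw [e] at h2
    refine h2.congr ?_
    intro k
    have : z k + (0, -(i : ℤ) - 1) + (0, 1) = z k + (0, -(i : ℤ)) := by
      ext <;> simp [add_assoc]
    rw [this]; abel

/-- All bounded differences converge. -/
theorem Lim.dz (hL : Lim U m Q κ Φ G1 G2) (hm : Tendsto m atTop atTop)
    (hU : (U : Filter ℕ) ≤ atTop) {z : ℕ → ℤ × ℤ} {y : ℝ × ℝ} (hy : ‖y‖ < 1)
    (hz : Tendsto (fun k => (m k : ℝ)⁻¹ • vv (z k)) U (𝓝 y)) (u : ℤ × ℤ) :
    Tendsto (fun k => Q k (z k + u) - Q k (z k)) U (𝓝 (lin (G1 y) (G2 y) (vv u))) := by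
  have h1 := hL.dn1 hm hU hy hz u.1
  have h2 := hL.dn2 hm hU hy (tendsto_shift hm hU hz (u.1, 0)) u.2
  have h3 := h1.add h2
  rw [lin_apply]
  refine h3.congr ?_
  intro k
  have : z k + (u.1, 0) + (0, u.2) = z k + u := by ext <;> simp
  rw [this]; abel

theorem cr_cont {ι : Type*} {l : Filter ι} {f g : ι → ℝ × ℝ} {a b : ℝ × ℝ}
    (hf : Tendsto f l (𝓝 a)) (hg : Tendsto g l (𝓝 b)) :
    Tendsto (fun i => cr (f i) (g i)) l (𝓝 (cr a b)) := by
  unfold cr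
  exact (((continuous_fst.tendsto a).comp hf).mul ((continuous_snd.tendsto b).comp hg)).sub
    (((continuous_snd.tendsto a).comp hf).mul ((continuous_fst.tendsto b).comp hg))

theorem cr_smul_left (t : ℝ) (p q : ℝ × ℝ) : cr (t • p) q = t * cr p q := by
  simp only [cr, Prod.smul_fst, Prod.smul_snd, smul_eq_mul]; ring

theorem cr_smul_right (t : ℝ) (p q : ℝ × ℝ) : cr p (t • q) = t * cr p q := by
  simp only [cr, Prod.smul_fst, Prod.smul_snd, smul_eq_mul]; ring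

/-- A bounded real sequence converges along an ultrafilter. -/
theorem exists_lim_Icc {f : ℕ → ℝ} {a b : ℝ}
    (h : ∀ᶠ k in (U : Filter ℕ), f k ∈ Set.Icc a b) :
    ∃ s ∈ Set.Icc a b, Tendsto f U (𝓝 s) := by
  have h1 : ((U.map f : Ultrafilter ℝ) : Filter ℝ) ≤ 𝓟 (Set.Icc a b) := by
    rw [le_principal_iff]
    exact h
  obtain ⟨s, hs, h2⟩ := isCompact_Icc.ultrafilter_le_nhds (U.map f) h1
  exact ⟨s, hs, h2⟩

/-- The main step, with a positive slope in the direction `w`. -/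
theorem kron_pos {a : ℕ → ℝ} {K ε : ℝ} (h : Grids m Q a K κ ε) (hU : (U : Filter ℕ) ≤ atTop)
    (hL : Lim U m Q κ Φ G1 G2) (v w : ℤ × ℤ) (hv : v ≠ 0)
    (x y : ℝ × ℝ) (hx : ‖x‖ < 1) (hy : ‖y‖ < 1) (hΦ : Φ x ≠ Φ y)
    (h0 : cr (lin (G1 x) (G2 x) (vv v)) (Φ y - Φ x) = 0)
    (hγ : 0 < cr (lin (G1 x) (G2 x) (vv v)) (lin (G1 y) (G2 y) (vv w))) :
    ¬ Irrational (cr (lin (G1 x) (G2 x) (vv v)) (lin (G1 y) (G2 y) (vv v)) /
      cr (lin (G1 x) (G2 x) (vv v)) (lin (G1 y) (G2 y) (vv w))) := by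
  intro hirr
  have hm := h.hm
  set Vx : ℝ × ℝ := lin (G1 x) (G2 x) (vv v) with hVx
  set α : ℝ := cr Vx (lin (G1 y) (G2 y) (vv v)) with hα
  set γ : ℝ := cr Vx (lin (G1 y) (G2 y) (vv w)) with hγd
  have hscale := tendsto_scale hm hU
  have hmpos : ∀ᶠ k in (U : Filter ℕ), (0 : ℝ) < m k := hscale.eventually (eventually_gt_atTop 0)
  -- the base points
  set zx : ℕ → ℤ × ℤ := fun k => (⌊(m k : ℝ) * x.1⌋, ⌊(m k : ℝ) * x.2⌋) with hzx
  set zy : ℕ → ℤ × ℤ := fun k => (⌊(m k : ℝ) * y.1⌋, ⌊(m k : ℝ) * y.2⌋) with hzy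
  have hzxl : Tendsto (fun k => (m k : ℝ)⁻¹ • vv (zx k)) U (𝓝 x) := tendsto_floor hm hU x
  have hzyl : Tendsto (fun k => (m k : ℝ)⁻¹ • vv (zy k)) U (𝓝 y) := tendsto_floor hm hU y
  set V : ℕ → ℝ × ℝ := fun k => Q k (zx k + v) - Q k (zx k) with hV
  have hVl : Tendsto V U (𝓝 Vx) := hL.dz hm hU hx hzxl v
  set F : ℕ → ℤ × ℤ → ℝ := fun k z => cr (V k) (Q k z - Q k (zx k)) with hF
  -- the differences of `F`
  have hFd : ∀ k z z', F k z' - F k z = cr (V k) (Q k z' - Q k z) := by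
    intro k z z'
    simp only [hF, cr, Prod.fst_sub, Prod.snd_sub]
    ring
  -- the values of `F` at the scale `m`
  have hFy : Tendsto (fun k => (m k : ℝ)⁻¹ * F k (zy k)) U (𝓝 0) := by
    have h1 := (hL.pos zy y hy hzyl).sub (hL.pos zx x hx hzxl)
    have h2 := cr_cont hVl h1
    rw [h0] at h2
    refine h2.congr ?_
    intro k
    rw [← smul_sub, cr_smul_right]
    simp only [hF]
    have e : Q k (zy k) - Q k 0 - (Q k (zx k) - Q k 0) = Q k (zy k) - Q k (zx k) := by abel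
    rw [e]
  -- the slope is close to `γ` near `y`
  obtain ⟨ρ₁, hρ₁, hρ₁y⟩ : ∃ ρ₁ : ℝ, 0 < ρ₁ ∧ ∀ s : ℝ, |s| ≤ ρ₁ → ‖y + s • vv w‖ < 1 ∧
      |cr Vx (lin (G1 (y + s • vv w)) (G2 (y + s • vv w)) (vv w)) - γ| < γ / 2 := by
    have hyb : y ∈ Metric.ball (0 : ℝ × ℝ) 1 := by rwa [mem_ball_zero_iff]
    have hc1 : ContinuousAt G1 y := hL.cont1.continuousAt (Metric.isOpen_ball.mem_nhds hyb)
    have hc2 : ContinuousAt G2 y := hL.cont2.continuousAt (Metric.isOpen_ball.mem_nhds hyb)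
    have hline : Tendsto (fun s : ℝ => y + s • vv w) (𝓝 0) (𝓝 y) := by
      have : Continuous fun s : ℝ => y + s • vv w := by fun_prop
      have h2 := this.tendsto 0
      simpa using h2
    have hlin : Tendsto (fun s : ℝ => lin (G1 (y + s • vv w)) (G2 (y + s • vv w)) (vv w)) (𝓝 0)
        (𝓝 (lin (G1 y) (G2 y) (vv w))) := by
      simp only [lin_apply]
      exact ((hc1.tendsto.comp hline).const_smul _).add ((hc2.tendsto.comp hline).const_smul _)
    have hcr := cr_cont (tendsto_const_nhds (x := Vx)) hlin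
    have e1 : ∀ᶠ s in 𝓝 (0 : ℝ),
        |cr Vx (lin (G1 (y + s • vv w)) (G2 (y + s • vv w)) (vv w)) - γ| < γ / 2 := by
      have := (hcr.sub_const γ).abs
      rw [sub_self, abs_zero] at this
      exact this.eventually (gt_mem_nhds (half_pos hγ))
    have e2 : ∀ᶠ s in 𝓝 (0 : ℝ), ‖y + s • vv w‖ < 1 :=
      (hline.norm).eventually (gt_mem_nhds hy)
    obtain ⟨r, hr, hr'⟩ := Metric.eventually_nhds_iff.1 (e2.and e1)
    refine ⟨r / 2, half_pos hr, fun s hs => hr' ?_⟩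
    rw [Real.dist_eq, sub_zero]
    linarith
  have hstep : ∀ᶠ k in (U : Filter ℕ), ∀ t : ℤ, |(t : ℝ)| ≤ ρ₁ * m k →
      |F k (zy k + (t + 1) • w) - F k (zy k + t • w) - γ| ≤ γ / 2 := by
    by_contra hcon
    rw [← Ultrafilter.eventually_not] at hcon
    have hex : ∀ k, ∃ t : ℤ, ¬ (∀ t : ℤ, |(t : ℝ)| ≤ ρ₁ * m k →
        |F k (zy k + (t + 1) • w) - F k (zy k + t • w) - γ| ≤ γ / 2) →
        |(t : ℝ)| ≤ ρ₁ * m k ∧ γ / 2 < |F k (zy k + (t + 1) • w) - F k (zy k + t • w) - γ| := by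
      intro k
      by_cases hk : ∀ t : ℤ, |(t : ℝ)| ≤ ρ₁ * m k →
        |F k (zy k + (t + 1) • w) - F k (zy k + t • w) - γ| ≤ γ / 2
      · exact ⟨0, fun hn => absurd hk hn⟩
      · have hk' := hk
        push Not at hk'
        obtain ⟨t, ht1, ht2⟩ := hk'
        exact ⟨t, fun _ => ⟨ht1, ht2⟩⟩
    choose t ht using hex
    have ht' : ∀ᶠ k in (U : Filter ℕ), |(t k : ℝ)| ≤ ρ₁ * m k ∧
        γ / 2 < |F k (zy k + (t k + 1) • w) - F k (zy k + t k • w) - γ| := by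
      filter_upwards [hcon] with k hk using ht k hk
    obtain ⟨s, hs, hts⟩ : ∃ s ∈ Set.Icc (-ρ₁) ρ₁, Tendsto (fun k => (m k : ℝ)⁻¹ * (t k : ℝ)) U (𝓝 s) := by
      apply exists_lim_Icc
      filter_upwards [ht', hmpos] with k hk hmk
      have h1 : |(m k : ℝ)⁻¹ * (t k : ℝ)| ≤ ρ₁ := by
        rw [abs_mul, abs_inv, abs_of_pos hmk, inv_mul_le_iff₀ hmk, mul_comm]
        exact hk.1
      exact abs_le.1 h1
    obtain ⟨hs1, hs2⟩ := hρ₁y s (abs_le.2 hs)
    have h3 := hL.dz hm hU hs1 (tendsto_move hzyl hts w) w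
    have h4 := ((cr_cont hVl h3).sub_const γ).abs
    have h5 : ∀ᶠ k in (U : Filter ℕ),
        |cr (V k) (Q k (zy k + t k • w + w) - Q k (zy k + t k • w)) - γ| < γ / 2 :=
      h4.eventually (gt_mem_nhds hs2)
    obtain ⟨k, hk1, hk2⟩ := (ht'.and h5).exists
    have e : zy k + t k • w + w = zy k + (t k + 1) • w := by
      rw [add_smul, one_smul, add_assoc]
    rw [e, ← hFd] at hk2
    linarith [hk1.2]
  -- grid points near `y` on the line through the near pair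
  have hnear : ∀ ρ > 0, ∀ᶠ k in (U : Filter ℕ), ∃ t : ℤ, |(t : ℝ)| ≤ ρ * m k ∧
      |F k (zy k + t • w)| ≤ 2 * γ := by
    intro ρ hρ
    obtain ⟨r, hr⟩ : ∃ r, r = min ρ ρ₁ := ⟨_, rfl⟩
    have hr0 : 0 < r := by rw [hr]; exact lt_min hρ hρ₁
    have hrρ : r ≤ ρ := by rw [hr]; exact min_le_left _ _
    have hrρ₁ : r ≤ ρ₁ := by rw [hr]; exact min_le_right _ _
    have h1 : ∀ᶠ k in (U : Filter ℕ), |(m k : ℝ)⁻¹ * F k (zy k)| < γ * r / 4 := by
      have := hFy.abs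
      rw [abs_zero] at this
      exact this.eventually (gt_mem_nhds (by positivity))
    have h2 : ∀ᶠ k in (U : Filter ℕ), 2 / r < (m k : ℝ) :=
      hscale.eventually (eventually_gt_atTop _)
    filter_upwards [hstep, h1, h2, hmpos] with k hk1 hk2 hk3 hmk
    rw [abs_mul, abs_inv, abs_of_pos hmk, inv_mul_lt_iff₀ hmk] at hk2
    rw [div_lt_iff₀ hr0] at hk3
    obtain ⟨N, hN⟩ : ∃ N : ℕ, N = ⌊r * m k⌋₊ := ⟨_, rfl⟩
    have hN1 : (N : ℝ) ≤ r * m k := by rw [hN]; exact Nat.floor_le (by positivity)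
    have hN2 : r * m k < N + 1 := by rw [hN]; exact Nat.lt_floor_add_one _
    have hN3 : r * m k / 2 ≤ N := by linarith
    set f : ℤ → ℝ := fun t => F k (zy k + t • w) with hf
    have hf0 : f 0 = F k (zy k) := by simp only [hf, zero_smul, add_zero]
    have hst : ∀ t : ℤ, -(N : ℤ) ≤ t → t < N → |f (t + 1) - f t - γ| ≤ γ / 2 := by
      intro t ht1 ht2
      apply hk1
      have ht1' : -(N : ℝ) ≤ t := by exact_mod_cast ht1
      have ht2' : (t : ℝ) ≤ N := by exact_mod_cast ht2.le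
      rw [abs_le]
      have hmul : r * m k ≤ ρ₁ * m k := mul_le_mul_of_nonneg_right hrρ₁ hmk.le
      constructor <;> linarith
    have hup : ∀ j : ℕ, j ≤ N → f 0 + j * (γ / 2) ≤ f j := by
      intro j
      induction j with
      | zero => intro _; simp
      | succ j ih =>
        intro hj
        have h3 := ih (by omega)
        have h4 := abs_le.1 (hst j (by omega) (by omega))
        have e : ((j + 1 : ℕ) : ℤ) = (j : ℤ) + 1 := by push_cast; ring
        rw [e]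
        push_cast
        linarith [h4.1]
    have hdown : ∀ j : ℕ, j ≤ N → f (-(j : ℤ)) ≤ f 0 - j * (γ / 2) := by
      intro j
      induction j with
      | zero => intro _; simp
      | succ j ih =>
        intro hj
        have h3 := ih (by omega)
        have h4 := abs_le.1 (hst (-((j + 1 : ℕ) : ℤ)) (by push_cast; omega) (by push_cast; omega))
        have e : -((j + 1 : ℕ) : ℤ) + 1 = -(j : ℤ) := by push_cast; ring
        rw [e] at h4
        push_cast at h4 ⊢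
        linarith [h4.1]
    have hbig : |f 0| ≤ N * (γ / 2) := by
      rw [hf0]
      calc |F k (zy k)| ≤ m k * (γ * r / 4) := hk2.le
        _ = (r * m k / 2) * (γ / 2) := by ring
        _ ≤ N * (γ / 2) := mul_le_mul_of_nonneg_right hN3 (by positivity)
    obtain ⟨t, ht1, ht2, ht3⟩ := disc_ivt f N (c := 3 * γ / 2) (by positivity)
      (by
        have := hdown N le_rfl
        have h5 := (abs_le.1 hbig).2
        linarith)
      (by
        have := hup N le_rfl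
        have h5 := (abs_le.1 hbig).1
        linarith)
      (fun t h6 h7 => by
        have := (abs_le.1 (hst t h6 h7)).2
        linarith)
    refine ⟨t, ?_, ht3.trans (by linarith)⟩
    have ht1' : -(N : ℝ) ≤ t := by exact_mod_cast ht1
    have ht2' : (t : ℝ) ≤ N := by exact_mod_cast ht2
    have hmul : r * m k ≤ ρ * m k := mul_le_mul_of_nonneg_right hrρ hmk.le
    rw [abs_le]
    constructor <;> linarith
  -- the nearest such point
  have hchoice : ∀ k, ∃ t : ℤ, (∃ s : ℤ, |F k (zy k + s • w)| ≤ 2 * γ) →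
      |F k (zy k + t • w)| ≤ 2 * γ ∧ ∀ s : ℤ, |F k (zy k + s • w)| ≤ 2 * γ →
        t.natAbs ≤ s.natAbs := by
    intro k
    by_cases hk : ∃ s : ℤ, |F k (zy k + s • w)| ≤ 2 * γ
    · classical
      have hex : ∃ n : ℕ, ∃ s : ℤ, s.natAbs = n ∧ |F k (zy k + s • w)| ≤ 2 * γ := by
        obtain ⟨s, hs⟩ := hk
        exact ⟨_, s, rfl, hs⟩
      obtain ⟨t, ht1, ht2⟩ := Nat.find_spec hex
      refine ⟨t, fun _ => ⟨ht2, fun s hs => ?_⟩⟩
      rw [ht1]
      exact Nat.find_min' hex ⟨s, rfl, hs⟩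
    · exact ⟨0, fun h' => absurd h' hk⟩
  choose t ht using hchoice
  have htF : ∀ᶠ k in (U : Filter ℕ), |F k (zy k + t k • w)| ≤ 2 * γ := by
    filter_upwards [hnear 1 one_pos] with k hk
    obtain ⟨s, _, hs⟩ := hk
    exact (ht k ⟨s, hs⟩).1
  have htl : Tendsto (fun k => (m k : ℝ)⁻¹ * (t k : ℝ)) U (𝓝 0) := by
    rw [Metric.tendsto_nhds]
    intro ρ hρ
    filter_upwards [hnear (ρ / 2) (half_pos hρ), hmpos] with k hk hmk
    obtain ⟨s, hs1, hs2⟩ := hk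
    have h1 := (ht k ⟨s, hs2⟩).2 s hs2
    have h2 : |(t k : ℝ)| ≤ |(s : ℝ)| := by
      have e1 : ((t k).natAbs : ℝ) = |(t k : ℝ)| := by
        rw [Nat.cast_natAbs, Int.cast_abs]
      have e2 : (s.natAbs : ℝ) = |(s : ℝ)| := by
        rw [Nat.cast_natAbs, Int.cast_abs]
      rw [← e1, ← e2]
      exact_mod_cast h1
    rw [Real.dist_eq, sub_zero, abs_mul, abs_inv, abs_of_pos hmk, inv_mul_lt_iff₀ hmk]
    have h3 : 0 < ρ * m k := mul_pos hρ hmk
    nlinarith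
  set zs : ℕ → ℤ × ℤ := fun k => zy k + t k • w with hzs
  have hzsl : Tendsto (fun k => (m k : ℝ)⁻¹ • vv (zs k)) U (𝓝 y) := by
    have := tendsto_move hzyl htl w
    rwa [zero_smul, add_zero] at this
  obtain ⟨fs, _, hfs⟩ : ∃ fs ∈ Set.Icc (-(2 * γ)) (2 * γ), Tendsto (fun k => F k (zs k)) U (𝓝 fs) := by
    apply exists_lim_Icc
    filter_upwards [htF] with k hk using abs_le.1 hk
  -- the density of the values
  have hdense : Dense (AddSubgroup.closure {α, γ} : Set ℝ) :=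
    dense_addSubgroupClosure_pair_iff.2 hirr
  have hΦn : 0 < ‖Φ x - Φ y‖ := norm_pos_iff.2 (sub_ne_zero.2 hΦ)
  have hε := h.hε
  obtain ⟨e', he'⟩ : ∃ e', e' = ε * ‖Φ x - Φ y‖ * ‖Φ x - Φ y‖ / 2 := ⟨_, rfl⟩
  have he'0 : 0 < e' := by rw [he']; positivity
  obtain ⟨g, hg, hgd⟩ := hdense.exists_dist_lt (-fs) he'0
  obtain ⟨i, j, hij⟩ := AddSubgroup.mem_closure_pair.1 hg
  have hgd' : |fs + g| < e' := by
    rw [Real.dist_eq] at hgd
    have e : fs + g = -(-fs - g) := by ring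
    rw [e, abs_neg]
    exact hgd
  set z' : ℕ → ℤ × ℤ := fun k => zs k + (i • v + j • w) with hz'
  have hz'l : Tendsto (fun k => (m k : ℝ)⁻¹ • vv (z' k)) U (𝓝 y) := tendsto_shift hm hU hzsl _
  have hFz' : Tendsto (fun k => F k (z' k)) U (𝓝 (fs + g)) := by
    have h1 := hL.dz hm hU hy hzsl (i • v + j • w)
    have h2 := hfs.add (cr_cont hVl h1)
    have e : cr Vx (lin (G1 y) (G2 y) (vv (i • v + j • w))) = g := by
      rw [vv_add, vv_zsmul, vv_zsmul, map_add, map_smul, map_smul, cr_add_right, cr_smul_right,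
        cr_smul_right, ← hij, zsmul_eq_mul, zsmul_eq_mul]
    rw [e] at h2
    refine h2.congr ?_
    intro k
    rw [← hFd]
    ring
  -- the distances
  have hzxv : Tendsto (fun k => (m k : ℝ)⁻¹ • vv (zx k + v)) U (𝓝 x) := tendsto_shift hm hU hzxl v
  have hA : Tendsto (fun k => ‖(m k : ℝ)⁻¹ • (Q k (zx k) - Q k (z' k))‖) U (𝓝 ‖Φ x - Φ y‖) := by
    have := ((hL.pos zx x hx hzxl).sub (hL.pos z' y hy hz'l)).norm
    refine this.congr ?_
    intro k
    rw [← smul_sub]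
    have e : Q k (zx k) - Q k 0 - (Q k (z' k) - Q k 0) = Q k (zx k) - Q k (z' k) := by abel
    rw [e]
  have hB : Tendsto (fun k => ‖(m k : ℝ)⁻¹ • (Q k (zx k + v) - Q k (z' k))‖) U
      (𝓝 ‖Φ x - Φ y‖) := by
    have := ((hL.pos _ x hx hzxv).sub (hL.pos z' y hy hz'l)).norm
    refine this.congr ?_
    intro k
    rw [← smul_sub]
    have e : Q k (zx k + v) - Q k 0 - (Q k (z' k) - Q k 0) = Q k (zx k + v) - Q k (z' k) := by abel
    rw [e]
  have hlow : ∀ᶠ k in (U : Filter ℕ),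
      ε * ‖(m k : ℝ)⁻¹ • (Q k (zx k) - Q k (z' k))‖ *
        ‖(m k : ℝ)⁻¹ • (Q k (zx k + v) - Q k (z' k))‖ ≤ |F k (z' k)| := by
    have hApos := hA.eventually (lt_mem_nhds hΦn)
    have hBpos := hB.eventually (lt_mem_nhds hΦn)
    filter_upwards [hmpos, hApos, hBpos, eventually_box hm hU hx hzxl, eventually_box hm hU hx hzxv,
      eventually_box hm hU hy hz'l] with k hmk hAk hBk b1 b2 b3
    have n1 : z' k ≠ zx k := by
      intro hcon
      rw [hcon, sub_self, smul_zero, norm_zero] at hAk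
      exact lt_irrefl _ hAk
    have n2 : z' k ≠ zx k + v := by
      intro hcon
      rw [hcon, sub_self, smul_zero, norm_zero] at hBk
      exact lt_irrefl _ hBk
    have n3 : zx k ≠ zx k + v := by
      intro hcon
      exact hv (by simpa using hcon)
    have hw := h.wide k (z' k) (zx k) (zx k + v) b3 b1 b2 n1 n2 n3
    have e1 : cr (Q k (zx k) - Q k (z' k)) (Q k (zx k + v) - Q k (z' k)) = F k (z' k) := by
      simp only [hF, hV, cr, Prod.fst_sub, Prod.snd_sub]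
      ring
    rw [e1] at hw
    refine le_trans ?_ hw
    rw [norm_smul, norm_smul, norm_inv, Real.norm_of_nonneg hmk.le]
    have hl := h.large k
    have e2 : ε * ((m k : ℝ)⁻¹ * ‖Q k (zx k) - Q k (z' k)‖) *
        ((m k : ℝ)⁻¹ * ‖Q k (zx k + v) - Q k (z' k)‖) =
        (ε * ((m k : ℝ) ^ 2)⁻¹) * (‖Q k (zx k) - Q k (z' k)‖ * ‖Q k (zx k + v) - Q k (z' k)‖) := by
      field_simp
    have e3 : ε * ((m k : ℝ) ^ 2)⁻¹ ≤ a k := by
      rw [← div_eq_mul_inv, div_le_iff₀ (by positivity)]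
      exact hl
    rw [e2]
    calc _ ≤ a k * (‖Q k (zx k) - Q k (z' k)‖ * ‖Q k (zx k + v) - Q k (z' k)‖) :=
          mul_le_mul_of_nonneg_right e3 (by positivity)
      _ = _ := by ring
  have hfin := le_of_tendsto_of_tendsto ((hA.const_mul ε).mul hB) hFz'.abs hlow
  have : ε * ‖Φ x - Φ y‖ * ‖Φ x - Φ y‖ = 2 * e' := by rw [he']; ring
  linarith

/-- Row R2: the slopes are commensurable. -/
theorem kron {m : ℕ → ℕ} {Q : ℕ → ℤ × ℤ → ℝ × ℝ} {a : ℕ → ℝ} {K κ ε : ℝ}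
    (h : Grids m Q a K κ ε) {U : Ultrafilter ℕ} (hU : (U : Filter ℕ) ≤ atTop)
    {Φ G1 G2 : ℝ × ℝ → ℝ × ℝ} (hL : Lim U m Q κ Φ G1 G2) (v w : ℤ × ℤ) (hv : v ≠ 0)
    (x y : ℝ × ℝ) (hx : ‖x‖ < 1) (hy : ‖y‖ < 1) (_hxy : x ≠ y) (hΦ : Φ x ≠ Φ y)
    (h0 : cr (lin (G1 x) (G2 x) (vv v)) (Φ y - Φ x) = 0)
    (hγ : cr (lin (G1 x) (G2 x) (vv v)) (lin (G1 y) (G2 y) (vv w)) ≠ 0) :
    ¬ Irrational (cr (lin (G1 x) (G2 x) (vv v)) (lin (G1 y) (G2 y) (vv v)) /
      cr (lin (G1 x) (G2 x) (vv v)) (lin (G1 y) (G2 y) (vv w))) := by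
  rcases lt_or_gt_of_ne hγ with hneg | hpos
  · have hw : vv (-w) = -vv w := by ext <;> simp [vv]
    have e1 : cr (lin (G1 x) (G2 x) (vv v)) (lin (G1 y) (G2 y) (vv (-w))) =
        -cr (lin (G1 x) (G2 x) (vv v)) (lin (G1 y) (G2 y) (vv w)) := by
      rw [hw, map_neg]
      simp only [cr, Prod.fst_neg, Prod.snd_neg]
      ring
    have h1 := kron_pos h hU hL v (-w) hv x y hx hy hΦ h0 (by rw [e1]; linarith)
    rw [e1, div_neg] at h1
    intro h2
    exact h1 h2.neg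
  · exact kron_pos h hU hL v w hv x y hx hy hΦ h0 hpos

end Pool.Agent.C1Grid
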