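import Pool.Agent.C1Grid.Defs

/-!
# A map which carries three pencils of lines to lines is projective
-/

set_option autoImplicit false

namespace Pool.Agent.C1Grid

open Pool.Agent.GridLat Filter Topology

namespace Pen

theorem cr_sl (t : ℝ) (p q : ℝ × ℝ) : cr (t • p) q = t * cr p q := by
  simp only [cr, Prod.smul_fst, Prod.smul_snd, smul_eq_mul]; ring

theorem cr_sr (t : ℝ) (p q : ℝ × ℝ) : cr p (t • q) = t * cr p q := by
  simp only [cr, Prod.smul_fst, Prod.smul_snd, smul_eq_mul]; ring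

theorem cr_cont2 : Continuous (fun p : (ℝ × ℝ) × (ℝ × ℝ) => cr p.1 p.2) := by
  unfold cr
  fun_prop

theorem vv_smul_tendsto (w : ℝ × ℝ) :
    Tendsto (fun k : ℕ => ((k : ℝ))⁻¹ • vv (⌊(k : ℝ) * w.1⌋, ⌊(k : ℝ) * w.2⌋)) atTop (𝓝 w) := by
  have key : ∀ a : ℝ, Tendsto (fun k : ℕ => ((k : ℝ))⁻¹ * (⌊(k : ℝ) * a⌋ : ℝ)) atTop (𝓝 a) := by
    intro a
    have h1 : Tendsto (fun k : ℕ => ((k : ℝ))⁻¹) atTop (𝓝 0) := tendsto_inv_atTop_nhds_zero_nat
    have h2 : Tendsto (fun k : ℕ => a - ((k : ℝ))⁻¹) atTop (𝓝 a) := by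
      simpa using tendsto_const_nhds.sub h1
    refine tendsto_of_tendsto_of_tendsto_of_le_of_le' h2 tendsto_const_nhds ?_ ?_
    · filter_upwards [eventually_gt_atTop 0] with k hk
      have hk' : (0 : ℝ) < k := by exact_mod_cast hk
      have h3 : (k : ℝ) * a - 1 ≤ ⌊(k : ℝ) * a⌋ := (Int.sub_one_lt_floor _).le
      calc a - ((k : ℝ))⁻¹ = ((k : ℝ))⁻¹ * ((k : ℝ) * a - 1) := by field_simp
        _ ≤ _ := mul_le_mul_of_nonneg_left h3 (inv_nonneg.2 hk'.le)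
    · filter_upwards [eventually_gt_atTop 0] with k hk
      have hk' : (0 : ℝ) < k := by exact_mod_cast hk
      calc ((k : ℝ))⁻¹ * (⌊(k : ℝ) * a⌋ : ℝ) ≤ ((k : ℝ))⁻¹ * ((k : ℝ) * a) :=
            mul_le_mul_of_nonneg_left (Int.floor_le _) (inv_nonneg.2 hk'.le)
        _ = a := by field_simp
  have := (key w.1).prodMk_nhds (key w.2)
  exact this

theorem par {X Y : ℝ × ℝ} (h : cr X Y = 0) (hX : X ≠ 0) : ∃ s : ℝ, Y = s • X := by
  have hn : X.1 ^ 2 + X.2 ^ 2 ≠ 0 := by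
    intro h0
    apply hX
    have h1 : X.1 = 0 := by nlinarith [sq_nonneg X.1, sq_nonneg X.2]
    have h2 : X.2 = 0 := by nlinarith [sq_nonneg X.1, sq_nonneg X.2]
    exact Prod.ext h1 h2
  simp only [cr] at h
  refine ⟨(X.1 * Y.1 + X.2 * Y.2) / (X.1 ^ 2 + X.2 ^ 2), ?_⟩
  apply Prod.ext
  · simp only [Prod.smul_fst, smul_eq_mul]
    field_simp
    linear_combination (-X.2) * h
  · simp only [Prod.smul_snd, smul_eq_mul]
    field_simp
    linear_combination X.1 * h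

theorem decomp {e f : ℝ × ℝ} (hd : cr e f ≠ 0) (X : ℝ × ℝ) : ∃ a b : ℝ, X = a • e + b • f := by
  refine ⟨cr X f / cr e f, cr e X / cr e f, ?_⟩
  have h1 : cr X f * e.1 + cr e X * f.1 = cr e f * X.1 := by simp only [cr]; ring
  have h2 : cr X f * e.2 + cr e X * f.2 = cr e f * X.2 := by simp only [cr]; ring
  apply Prod.ext
  · simp only [Prod.fst_add, Prod.smul_fst, smul_eq_mul]
    rw [div_mul_eq_mul_div, div_mul_eq_mul_div, ← add_div, h1, mul_div_cancel_left₀ _ hd]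
  · simp only [Prod.snd_add, Prod.smul_snd, smul_eq_mul]
    rw [div_mul_eq_mul_div, div_mul_eq_mul_div, ← add_div, h2, mul_div_cancel_left₀ _ hd]

theorem lin_ne {e f u : ℝ × ℝ} (hd : cr e f ≠ 0) (hu : u ≠ 0) : lin e f u ≠ 0 := by
  intro h
  rw [lin_apply] at h
  apply hu
  have h1 : cr (u.1 • e + u.2 • f) f = u.1 * cr e f := by
    rw [cr_add_left, cr_sl, cr_sl, cr_self]; ring
  have h2 : cr e (u.1 • e + u.2 • f) = u.2 * cr e f := by
    rw [cr_add_right, cr_sr, cr_sr, cr_self]; ring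
  rw [h] at h1 h2
  have h3 : u.1 = 0 := by
    have : u.1 * cr e f = 0 := by rw [← h1]; simp [cr]
    exact (mul_eq_zero.1 this).resolve_right hd
  have h4 : u.2 = 0 := by
    have : u.2 * cr e f = 0 := by rw [← h2]; simp [cr]
    exact (mul_eq_zero.1 this).resolve_right hd
  exact Prod.ext h3 h4

end Pen

open Pen

/-- Rational directions are dense. -/
theorem all_dirs {Φ G1 G2 : ℝ × ℝ → ℝ × ℝ} {r₁ : ℝ}
    (hc : ContinuousOn Φ (Metric.ball 0 r₁))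
    (h : ∀ x ∈ Metric.ball (0 : ℝ × ℝ) r₁, ∀ (v : ℤ × ℤ) (t : ℝ),
      x + t • vv v ∈ Metric.ball (0 : ℝ × ℝ) r₁ →
      cr (lin (G1 x) (G2 x) (vv v)) (Φ (x + t • vv v) - Φ x) = 0) :
    ∀ x ∈ Metric.ball (0 : ℝ × ℝ) r₁, ∀ y ∈ Metric.ball (0 : ℝ × ℝ) r₁,
      cr (lin (G1 x) (G2 x) (y - x)) (Φ y - Φ x) = 0 := by
  intro x hx y hy
  have hu := vv_smul_tendsto (y - x)
  set u : ℕ → ℝ × ℝ := fun k =>
    ((k : ℝ))⁻¹ • vv (⌊(k : ℝ) * (y - x).1⌋, ⌊(k : ℝ) * (y - x).2⌋) with hudef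
  have hxu : Tendsto (fun k => x + u k) atTop (𝓝 y) := by
    have := (tendsto_const_nhds (x := x) (f := (atTop : Filter ℕ))).add hu
    simpa using this
  have ev : ∀ᶠ k in atTop, x + u k ∈ Metric.ball (0 : ℝ × ℝ) r₁ :=
    hxu.eventually (Metric.isOpen_ball.mem_nhds hy)
  have hΦ : Tendsto (fun k => Φ (x + u k)) atTop (𝓝 (Φ y)) :=
    (hc.continuousAt (Metric.isOpen_ball.mem_nhds hy)).tendsto.comp hxu
  have hz : ∀ᶠ k in atTop, cr (lin (G1 x) (G2 x) (u k)) (Φ (x + u k) - Φ x) = 0 := by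
    filter_upwards [ev] with k hk
    have h1 := h x hx _ _ hk
    have h2 : lin (G1 x) (G2 x) (u k) =
        ((k : ℝ))⁻¹ • lin (G1 x) (G2 x) (vv (⌊(k : ℝ) * (y - x).1⌋, ⌊(k : ℝ) * (y - x).2⌋)) := by
      rw [hudef]; simp only [map_smul]
    rw [h2, cr_sl, h1, mul_zero]
  have lim : Tendsto (fun k => cr (lin (G1 x) (G2 x) (u k)) (Φ (x + u k) - Φ x)) atTop
      (𝓝 (cr (lin (G1 x) (G2 x) (y - x)) (Φ y - Φ x))) := by
    have h1 : Tendsto (fun k => lin (G1 x) (G2 x) (u k)) atTop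
        (𝓝 (lin (G1 x) (G2 x) (y - x))) :=
      ((lin (G1 x) (G2 x)).continuous.tendsto _).comp hu
    have h2 : Tendsto (fun k => Φ (x + u k) - Φ x) atTop (𝓝 (Φ y - Φ x)) :=
      hΦ.sub tendsto_const_nhds
    exact (cr_cont2.tendsto (lin (G1 x) (G2 x) (y - x), Φ y - Φ x)).comp (h1.prodMk_nhds h2)
  have lim0 : Tendsto (fun _ : ℕ => (0 : ℝ)) atTop
      (𝓝 (cr (lin (G1 x) (G2 x) (y - x)) (Φ y - Φ x))) := lim.congr' hz
  exact (tendsto_nhds_unique lim0 tendsto_const_nhds)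

/-- Two pencils of lines suffice. -/
theorem pencils {Φ G1 G2 : ℝ × ℝ → ℝ × ℝ} {r₁ : ℝ} (hr₁ : 0 < r₁) (h0 : Φ 0 = 0)
    (hder : ∀ y ∈ Metric.ball (0 : ℝ × ℝ) r₁, HasFDerivAt Φ (lin (G1 y) (G2 y)) y)
    (hdet : ∀ y ∈ Metric.ball (0 : ℝ × ℝ) r₁, cr (G1 y) (G2 y) ≠ 0)
    (h : ∀ x ∈ Metric.ball (0 : ℝ × ℝ) r₁, ∀ y ∈ Metric.ball (0 : ℝ × ℝ) r₁,
      cr (lin (G1 x) (G2 x) (y - x)) (Φ y - Φ x) = 0) :
    ∃ l1 l2 r₂ : ℝ, 0 < r₂ ∧ r₂ ≤ r₁ ∧ ∀ u ∈ Metric.ball (0 : ℝ × ℝ) r₂,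
      (1 + l1 * u.1 + l2 * u.2) • Φ u = lin (G1 0) (G2 0) u := by
  have hz : (0 : ℝ × ℝ) ∈ Metric.ball (0 : ℝ × ℝ) r₁ := Metric.mem_ball_self hr₁
  have hd := hdet 0 hz
  set e := G1 0 with he
  set f := G2 0 with hf
  have he0 : e ≠ 0 := by
    intro h1; apply hd; rw [h1]; simp [cr]
  have hf0 : f ≠ 0 := by
    intro h1; apply hd; rw [h1]; simp [cr]
  -- curves through the origin
  have curve : ∀ w : ℝ × ℝ, HasDerivAt (fun t : ℝ => Φ (t • w)) (lin e f w) 0 := by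
    intro w
    have h1 : HasDerivAt (fun t : ℝ => t • w) w 0 := by
      simpa using (hasDerivAt_id (0 : ℝ)).smul_const w
    have h2 : HasFDerivAt Φ (lin e f) ((0 : ℝ) • w) := by
      rw [zero_smul]; exact hder 0 hz
    exact h2.comp_hasDerivAt (0 : ℝ) h1
  -- a base point
  obtain ⟨t, ht0, htb, htΦ⟩ : ∃ t : ℝ, t ≠ 0 ∧ t • ((1 : ℝ), (0 : ℝ)) ∈ Metric.ball (0 : ℝ × ℝ) r₁ ∧
      Φ (t • ((1 : ℝ), (0 : ℝ))) ≠ 0 := by
    have h1 := (curve (1, 0)).eventually_ne (c := 0) (lin_ne hd (by simp))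
    have h2 : ∀ᶠ t in 𝓝[≠] (0 : ℝ), t • ((1 : ℝ), (0 : ℝ)) ∈ Metric.ball (0 : ℝ × ℝ) r₁ := by
      have h3 : Tendsto (fun t : ℝ => t • ((1 : ℝ), (0 : ℝ))) (𝓝 0) (𝓝 0) := by
        have : Continuous (fun t : ℝ => t • ((1 : ℝ), (0 : ℝ))) := by fun_prop
        simpa using this.tendsto 0
      exact (h3.eventually (Metric.isOpen_ball.mem_nhds hz)).filter_mono nhdsWithin_le_nhds
    obtain ⟨t, ⟨ht1, ht2⟩, ht3⟩ := ((h1.and h2).and self_mem_nhdsWithin).exists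
    exact ⟨t, ht3, ht2, ht1⟩
  set p : ℝ × ℝ := t • ((1 : ℝ), (0 : ℝ)) with hp
  have hp1 : p.1 = t := by simp [hp]
  have hp2 : p.2 = 0 := by simp [hp]
  -- the image of the base point
  have hPe : ∃ σ : ℝ, Φ p = σ • e := by
    have h1 := h 0 hz p htb
    rw [sub_zero, h0, sub_zero, lin_apply, hp1, hp2, zero_smul, add_zero, cr_sl] at h1
    exact par ((mul_eq_zero.1 h1).resolve_left ht0) he0
  obtain ⟨σ, hσ⟩ := hPe
  have hσ0 : σ ≠ 0 := by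
    intro h1; apply htΦ; rw [hσ, h1, zero_smul]
  have hA1 : ∃ α : ℝ, G1 p = α • e := by
    have h1 := h p htb 0 hz
    rw [zero_sub, h0, zero_sub, lin_apply, Prod.fst_neg, Prod.snd_neg, hp1, hp2, neg_zero,
      zero_smul, add_zero, cr_sl, hσ, ← neg_smul, cr_sr] at h1
    have h2 : cr (G1 p) e = 0 := by
      rcases mul_eq_zero.1 h1 with h3 | h3
      · exact absurd (neg_eq_zero.1 h3) ht0
      · rcases mul_eq_zero.1 h3 with h4 | h4
        · exact absurd (neg_eq_zero.1 h4) hσ0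
        · exact h4
    exact par (by rw [cr_swap, h2, neg_zero]) he0
  obtain ⟨α, hα⟩ := hA1
  obtain ⟨γ, δ, hγδ⟩ := decomp hd (G2 p)
  have hcr : α * δ * cr e f ≠ 0 := by
    have h1 := hdet p htb
    rw [hα, hγδ, cr_add_right, cr_sl, cr_sl, cr_sr, cr_sr, cr_self] at h1
    intro h2; apply h1; linear_combination h2
  have hδ0 : δ ≠ 0 := by
    intro h1; apply hcr; rw [h1]; ring
  -- the main identity, in vector form
  have main : ∀ u ∈ Metric.ball (0 : ℝ × ℝ) r₁, u.2 ≠ 0 →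
      (t * α - (α - δ) * u.1 - γ * u.2) • Φ u = (δ * σ) • lin e f u := by
    intro u hu hu2
    have hu0 : u ≠ 0 := by
      intro h1; apply hu2; rw [h1]; rfl
    have h1 := h 0 hz u hu
    rw [sub_zero, h0, sub_zero] at h1
    obtain ⟨s, hs⟩ := par h1 (lin_ne hd hu0)
    have h2 := h p htb u hu
    have h3 : lin (G1 p) (G2 p) (u - p) = ((u.1 - t) * α + u.2 * γ) • e + (u.2 * δ) • f := by
      rw [lin_apply, Prod.fst_sub, Prod.snd_sub, hp1, hp2, hα, hγδ, sub_zero]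
      module
    have h4 : Φ u - Φ p = (s * u.1 - σ) • e + (s * u.2) • f := by
      rw [hs, hσ, lin_apply]
      module
    rw [h3, h4, cr_add_left, cr_sl, cr_sl, cr_add_right, cr_add_right, cr_sr, cr_sr, cr_sr, cr_sr,
      cr_self, cr_self, cr_swap f e] at h2
    have h5 : u.2 * cr e f * (s * ((u.1 - t) * α + u.2 * γ - δ * u.1) + δ * σ) = 0 := by
      linear_combination h2
    have h6 : s * ((u.1 - t) * α + u.2 * γ - δ * u.1) + δ * σ = 0 :=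
      (mul_eq_zero.1 h5).resolve_left (mul_ne_zero hu2 hd)
    rw [hs, smul_smul]
    congr 1
    linear_combination (-1 : ℝ) * h6
  -- the constant
  have hconst : t * α = δ * σ := by
    have c2 := curve (0, 1)
    have hl : lin e f (0, 1) = f := by rw [lin_apply]; simp
    rw [hl] at c2
    have h1 := c2.tendsto_slope_zero
    have h2 : Tendsto (fun τ : ℝ => (t * α - γ * τ) • (τ⁻¹ • Φ (τ • ((0 : ℝ), (1 : ℝ)))))
        (𝓝[≠] 0) (𝓝 ((t * α) • f)) := by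
      have h3 : Tendsto (fun τ : ℝ => t * α - γ * τ) (𝓝[≠] 0) (𝓝 (t * α)) := by
        have h4 : Continuous (fun τ : ℝ => t * α - γ * τ) := by fun_prop
        have h5 := (h4.tendsto 0).mono_left (nhdsWithin_le_nhds (s := {(0 : ℝ)}ᶜ))
        simpa using h5
      have h6 : Tendsto (fun τ : ℝ => τ⁻¹ • Φ (τ • ((0 : ℝ), (1 : ℝ)))) (𝓝[≠] 0) (𝓝 f) := by
        simpa [h0] using h1
      exact h3.smul h6
    have h7 : ∀ᶠ τ in 𝓝[≠] (0 : ℝ),
        (t * α - γ * τ) • (τ⁻¹ • Φ (τ • ((0 : ℝ), (1 : ℝ)))) = (δ * σ) • f := by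
      have h8 : ∀ᶠ τ in 𝓝[≠] (0 : ℝ), τ • ((0 : ℝ), (1 : ℝ)) ∈ Metric.ball (0 : ℝ × ℝ) r₁ := by
        have h3 : Tendsto (fun t : ℝ => t • ((0 : ℝ), (1 : ℝ))) (𝓝 0) (𝓝 0) := by
          have : Continuous (fun t : ℝ => t • ((0 : ℝ), (1 : ℝ))) := by fun_prop
          simpa using this.tendsto 0
        exact (h3.eventually (Metric.isOpen_ball.mem_nhds hz)).filter_mono nhdsWithin_le_nhds
      filter_upwards [h8, self_mem_nhdsWithin] with τ hτ1 hτ2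
      have hτ0 : τ ≠ 0 := hτ2
      have h9 := main _ hτ1 (by simpa using hτ0)
      rw [lin_apply] at h9
      simp only [Prod.smul_mk, smul_eq_mul, mul_zero, mul_one, sub_zero, zero_smul, zero_add] at h9 ⊢
      rw [smul_comm, h9, smul_smul, smul_smul]
      congr 1
      field_simp
    have h8 : (t * α) • f = (δ * σ) • f :=
      tendsto_nhds_unique h2 (tendsto_const_nhds.congr' (h7.mono fun _ hx => hx.symm))
    exact smul_left_injective ℝ hf0 h8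
  have hds : δ * σ ≠ 0 := mul_ne_zero hδ0 hσ0
  refine ⟨-(α - δ) / (δ * σ), -γ / (δ * σ), r₁, hr₁, le_rfl, ?_⟩
  have fin : ∀ u ∈ Metric.ball (0 : ℝ × ℝ) r₁, u.2 ≠ 0 →
      (1 + -(α - δ) / (δ * σ) * u.1 + -γ / (δ * σ) * u.2) • Φ u = lin e f u := by
    intro u hu hu2
    have h1 := main u hu hu2
    have h2 : (1 + -(α - δ) / (δ * σ) * u.1 + -γ / (δ * σ) * u.2) =
        (δ * σ)⁻¹ * (t * α - (α - δ) * u.1 - γ * u.2) := by
      rw [hconst]; field_simp; ring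
    rw [h2, ← smul_smul, h1, smul_smul, inv_mul_cancel₀ hds, one_smul]
  intro u hu
  by_cases hu2 : u.2 ≠ 0
  · exact fin u hu hu2
  push Not at hu2
  -- continuity
  have hcv : Tendsto (fun τ : ℝ => u + τ • ((0 : ℝ), (1 : ℝ))) (𝓝[≠] 0) (𝓝 u) := by
    have h4 : Continuous (fun τ : ℝ => u + τ • ((0 : ℝ), (1 : ℝ))) := by fun_prop
    have h5 := (h4.tendsto 0).mono_left (nhdsWithin_le_nhds (s := {(0 : ℝ)}ᶜ))
    simpa using h5
  have hΦc : Tendsto (fun τ : ℝ => Φ (u + τ • ((0 : ℝ), (1 : ℝ)))) (𝓝[≠] 0) (𝓝 (Φ u)) :=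
    ((hder u hu).continuousAt.tendsto).comp hcv
  have hL : Tendsto (fun τ : ℝ => lin e f (u + τ • ((0 : ℝ), (1 : ℝ)))) (𝓝[≠] 0)
      (𝓝 (lin e f u)) := ((lin e f).continuous.tendsto u).comp hcv
  have hcf : Tendsto (fun τ : ℝ => (1 + -(α - δ) / (δ * σ) * (u + τ • ((0 : ℝ), (1 : ℝ))).1 +
      -γ / (δ * σ) * (u + τ • ((0 : ℝ), (1 : ℝ))).2)) (𝓝[≠] 0)
      (𝓝 (1 + -(α - δ) / (δ * σ) * u.1 + -γ / (δ * σ) * u.2)) := by
    have h4 : Continuous (fun y : ℝ × ℝ => (1 + -(α - δ) / (δ * σ) * y.1 +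
      -γ / (δ * σ) * y.2)) := by fun_prop
    exact (h4.tendsto u).comp hcv
  have hev : ∀ᶠ τ in 𝓝[≠] (0 : ℝ),
      (1 + -(α - δ) / (δ * σ) * (u + τ • ((0 : ℝ), (1 : ℝ))).1 +
      -γ / (δ * σ) * (u + τ • ((0 : ℝ), (1 : ℝ))).2) • Φ (u + τ • ((0 : ℝ), (1 : ℝ))) =
      lin e f (u + τ • ((0 : ℝ), (1 : ℝ))) := by
    filter_upwards [hcv.eventually (Metric.isOpen_ball.mem_nhds hu), self_mem_nhdsWithin]
      with τ hτ1 hτ2
    have hτ0 : τ ≠ 0 := hτ2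
    exact fin _ hτ1 (by simpa [hu2] using hτ0)
  exact tendsto_nhds_unique ((hcf.smul hΦc).congr' hev) hL

end Pool.Agent.C1Grid
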