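import Pool.Agent.C1Grid.Defs

/-!
# Tangent lines of the limit map meet it in the image of lattice lines
-/

set_option autoImplicit false

namespace Pool.Agent.C1Grid

open Pool.Agent.GridLat Filter Topology

/-- The unit square in which the implicit function is found. -/
def sq : Set (ℝ × ℝ) := Set.Icc (0 : ℝ) 1 ×ˢ Set.Icc (-1 : ℝ) 1

theorem mem_sq {a b : ℝ} : (a, b) ∈ sq ↔ (0 ≤ a ∧ a ≤ 1) ∧ (-1 ≤ b ∧ b ≤ 1) := Iff.rfl

section Core

variable {F A B : ℝ × ℝ → ℝ}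
  (hF : ∀ q ∈ sq, HasFDerivAt F
    (A q • ContinuousLinearMap.fst ℝ ℝ ℝ + B q • ContinuousLinearMap.snd ℝ ℝ ℝ) q)

include hF in
theorem deriv_fst {a b : ℝ} (h : (a, b) ∈ sq) :
    HasDerivAt (fun x => F (x, b)) (A (a, b)) a := by
  have h1 : HasDerivAt (fun x : ℝ => (x, b)) ((1 : ℝ), (0 : ℝ)) a :=
    (hasDerivAt_id a).prodMk (hasDerivAt_const a b)
  have h2 := (hF (a, b) h).comp_hasDerivAt a h1
  have h3 : HasDerivAt (fun x => F (x, b))
    ((A (a, b) • ContinuousLinearMap.fst ℝ ℝ ℝ + B (a, b) • ContinuousLinearMap.snd ℝ ℝ ℝ)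
      ((1 : ℝ), (0 : ℝ))) a := h2
  simpa using h3

include hF in
theorem deriv_snd {a b : ℝ} (h : (a, b) ∈ sq) :
    HasDerivAt (fun x => F (a, x)) (B (a, b)) b := by
  have h1 : HasDerivAt (fun x : ℝ => (a, x)) ((0 : ℝ), (1 : ℝ)) b :=
    (hasDerivAt_const b a).prodMk (hasDerivAt_id b)
  have h2 := (hF (a, b) h).comp_hasDerivAt b h1
  have h3 : HasDerivAt (fun x => F (a, x))
    ((A (a, b) • ContinuousLinearMap.fst ℝ ℝ ℝ + B (a, b) • ContinuousLinearMap.snd ℝ ℝ ℝ)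
      ((0 : ℝ), (1 : ℝ))) b := h2
  simpa using h3

include hF in
theorem lip_fst (hA : ∀ q ∈ sq, |A q| ≤ 1 / 4) {a a' b : ℝ} (ha : 0 ≤ a ∧ a ≤ 1)
    (ha' : 0 ≤ a' ∧ a' ≤ 1) (hb : -1 ≤ b ∧ b ≤ 1) :
    |F (a', b) - F (a, b)| ≤ 1 / 4 * |a' - a| := by
  have := Convex.norm_image_sub_le_of_norm_hasDerivWithin_le (f := fun x => F (x, b))
    (f' := fun x => A (x, b)) (s := Set.Icc (0 : ℝ) 1) (C := 1 / 4) (x := a) (y := a')
    (fun x hx => (deriv_fst hF (mem_sq.2 ⟨hx, hb⟩)).hasDerivWithinAt)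
    (fun x hx => by simpa [Real.norm_eq_abs] using hA _ (mem_sq.2 ⟨hx, hb⟩))
    (convex_Icc 0 1) ha ha'
  simpa [Real.norm_eq_abs] using this

include hF in
theorem mono_snd (hB : ∀ q ∈ sq, 3 / 4 ≤ B q) {a b b' : ℝ} (ha : 0 ≤ a ∧ a ≤ 1)
    (hb : -1 ≤ b ∧ b ≤ 1) (hb' : -1 ≤ b' ∧ b' ≤ 1) (hbb : b ≤ b') :
    3 / 4 * (b' - b) ≤ F (a, b') - F (a, b) := by
  have hd : ∀ x ∈ Set.Icc (-1 : ℝ) 1, HasDerivAt (fun x => F (a, x)) (B (a, x)) x :=
    fun x hx => deriv_snd hF (mem_sq.2 ⟨ha, hx⟩)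
  refine Convex.mul_sub_le_image_sub_of_le_deriv (convex_Icc (-1 : ℝ) 1)
    (fun x hx => (hd x hx).continuousAt.continuousWithinAt)
    (fun x hx => (hd x (interior_subset hx)).differentiableAt.differentiableWithinAt)
    (fun x hx => ?_) b hb b' hb' hbb
  have hx' : x ∈ Set.Icc (-1 : ℝ) 1 := interior_subset hx
  rw [(hd x hx').deriv]
  exact hB _ (mem_sq.2 ⟨ha, hx'⟩)

include hF in
theorem zero_dist (hA : ∀ q ∈ sq, |A q| ≤ 1 / 4) (hB : ∀ q ∈ sq, 3 / 4 ≤ B q) {a a' b b' : ℝ}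
    (ha : 0 ≤ a ∧ a ≤ 1) (ha' : 0 ≤ a' ∧ a' ≤ 1) (hb : -1 ≤ b ∧ b ≤ 1) (hb' : -1 ≤ b' ∧ b' ≤ 1)
    (h : F (a, b) = 0) (h' : F (a', b') = 0) : |b' - b| ≤ |a' - a| := by
  have h1 := lip_fst hF hA ha ha' hb'
  rw [h', zero_sub, abs_neg] at h1
  have h2 : 3 / 4 * |b' - b| ≤ |F (a, b')| := by
    rcases le_total b b' with hbb | hbb
    · have := mono_snd hF hB ha hb hb' hbb
      rw [h, sub_zero] at this
      rw [abs_of_nonneg (by linarith : (0 : ℝ) ≤ b' - b)]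
      exact this.trans (le_abs_self _)
    · have := mono_snd hF hB ha hb' hb hbb
      rw [h, zero_sub] at this
      rw [abs_of_nonpos (by linarith : b' - b ≤ (0 : ℝ))]
      have h3 := neg_le_abs (F (a, b'))
      linarith
  have := abs_nonneg (a' - a)
  linarith

include hF in
theorem exists_zero (hA : ∀ q ∈ sq, |A q| ≤ 1 / 4) (hB : ∀ q ∈ sq, 3 / 4 ≤ B q)
    (h0 : F (0, 0) = 0) (a : ℝ) (ha : 0 ≤ a ∧ a ≤ 1) :
    ∃ b : ℝ, (-1 ≤ b ∧ b ≤ 1) ∧ F (a, b) = 0 := by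
  have h1 := lip_fst hF hA (b := 0) (a := 0) (a' := a) ⟨le_rfl, zero_le_one⟩ ha (by norm_num)
  rw [h0, sub_zero, sub_zero, abs_of_nonneg ha.1] at h1
  have h1' := abs_le.1 h1
  have h2 := mono_snd hF hB (a := a) (b := 0) (b' := 1) ha (by norm_num) (by norm_num)
    (by norm_num)
  have h3 := mono_snd hF hB (a := a) (b := -1) (b' := 0) ha (by norm_num) (by norm_num)
    (by norm_num)
  have hc : ContinuousOn (fun x => F (a, x)) (Set.Icc (-1 : ℝ) 1) := fun x hx =>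
    (deriv_snd hF (mem_sq.2 ⟨ha, hx⟩)).continuousAt.continuousWithinAt
  obtain ⟨b, hb, hb'⟩ := intermediate_value_Icc (by norm_num : (-1 : ℝ) ≤ 1) hc
    (show (0 : ℝ) ∈ Set.Icc (F (a, -1)) (F (a, 1)) from ⟨by linarith [ha.2], by linarith [ha.2]⟩)
  exact ⟨b, hb, hb'⟩

include hF in
theorem core (hAc : ContinuousOn A sq) (hBc : ContinuousOn B sq)
    (hA : ∀ q ∈ sq, |A q| ≤ 1 / 4) (hB : ∀ q ∈ sq, 3 / 4 ≤ B q)
    (h0 : F (0, 0) = 0) (hA0 : A (0, 0) = 0)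
    (hrat : ∀ q ∈ sq, q.1 ≠ 0 → F q = 0 → ¬ Irrational (A q / B q)) : F (1, 0) = 0 := by
  have hex := exists_zero hF hA hB h0
  choose! g hg1 hg2 using hex
  have hlip : ∀ a a' : ℝ, (0 ≤ a ∧ a ≤ 1) → (0 ≤ a' ∧ a' ≤ 1) → |g a' - g a| ≤ |a' - a| :=
    fun a a' ha ha' => zero_dist hF hA hB ha ha' (hg1 a ha) (hg1 a' ha') (hg2 a ha) (hg2 a' ha')
  have hg0 : g 0 = 0 := by
    have h00 : (0 : ℝ) ≤ 0 ∧ (0 : ℝ) ≤ 1 := ⟨le_rfl, zero_le_one⟩
    have := zero_dist hF hA hB h00 h00 (hg1 0 h00) (by norm_num : (-1 : ℝ) ≤ 0 ∧ (0 : ℝ) ≤ 1)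
      (hg2 0 h00) h0
    simpa using this
  have hgc : ContinuousOn g (Set.Icc (0 : ℝ) 1) := by
    have : LipschitzOnWith 1 g (Set.Icc (0 : ℝ) 1) := by
      refine LipschitzOnWith.of_dist_le_mul fun x hx y hy => ?_
      rw [Real.dist_eq, Real.dist_eq, NNReal.coe_one, one_mul]
      exact hlip y x hy hx
    exact this.continuousOn
  have hqc : ContinuousOn (fun a => (a, g a)) (Set.Icc (0 : ℝ) 1) := continuousOn_id.prodMk hgc
  have hmaps : Set.MapsTo (fun a => (a, g a)) (Set.Icc (0 : ℝ) 1) sq :=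
    fun a ha => mem_sq.2 ⟨ha, hg1 a ha⟩
  have hRc : ContinuousOn (fun a => A (a, g a) / B (a, g a)) (Set.Icc (0 : ℝ) 1) := by
    refine (hAc.comp hqc hmaps).div (hBc.comp hqc hmaps) fun a ha => ?_
    have := hB _ (hmaps ha)
    exact ne_of_gt (by simpa using lt_of_lt_of_le (by norm_num : (0 : ℝ) < 3 / 4) this)
  -- the ratio vanishes identically
  have hR : ∀ a : ℝ, 0 ≤ a ∧ a ≤ 1 → A (a, g a) = 0 := by
    intro a ha
    by_contra hne
    have hBpos : 0 < B (a, g a) := lt_of_lt_of_le (by norm_num) (hB _ (hmaps ha))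
    have hRa : A (a, g a) / B (a, g a) ≠ 0 := div_ne_zero hne hBpos.ne'
    have hsub : Set.uIcc (0 : ℝ) a ⊆ Set.Icc (0 : ℝ) 1 := by
      rw [Set.uIcc_of_le ha.1]
      exact Set.Icc_subset_Icc_right ha.2
    have hiv := intermediate_value_uIcc (hRc.mono hsub)
    simp only [hg0, hA0, zero_div] at hiv
    obtain ⟨r, hr, hr0, hr'⟩ : ∃ r : ℝ, Irrational r ∧ r ≠ 0 ∧
        r ∈ Set.uIcc (0 : ℝ) (A (a, g a) / B (a, g a)) := by
      rcases lt_or_gt_of_ne hRa with h | h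
      · obtain ⟨r, hr, h1, h2⟩ := exists_irrational_btwn h
        exact ⟨r, hr, h2.ne, by rw [Set.uIcc_of_ge h.le]; exact ⟨h1.le, h2.le⟩⟩
      · obtain ⟨r, hr, h1, h2⟩ := exists_irrational_btwn h
        exact ⟨r, hr, h1.ne', by rw [Set.uIcc_of_le h.le]; exact ⟨h1.le, h2.le⟩⟩
    obtain ⟨b, hb, hb'⟩ := hiv hr'
    have hb1 := hsub hb
    have hb0 : b ≠ 0 := by
      rintro rfl
      apply hr0
      rw [← hb']
      simp [hg0, hA0]
    refine hrat (b, g b) (hmaps hb1) hb0 (hg2 b hb1) ?_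
    simp only at hb'
    rw [hb']
    exact hr
  -- the implicit function has derivative zero
  have hder : ∀ a ∈ Set.Ico (0 : ℝ) 1, HasDerivWithinAt g 0 (Set.Ici a) a := by
    intro a ha
    have ha' : 0 ≤ a ∧ a ≤ 1 := ⟨ha.1, ha.2.le⟩
    have hFa := hF (a, g a) (hmaps ha')
    rw [hR a ha'] at hFa
    have hBpos : 0 < B (a, g a) := lt_of_lt_of_le (by norm_num) (hB _ (hmaps ha'))
    rw [hasDerivWithinAt_iff_isLittleO]
    have hev : ∀ᶠ x in 𝓝[Set.Ici a] a, 0 ≤ x ∧ x ≤ 1 := by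
      have h1 : ∀ᶠ x in 𝓝[Set.Ici a] a, x < 1 := nhdsWithin_le_nhds (Iio_mem_nhds ha.2)
      filter_upwards [h1, self_mem_nhdsWithin] with x hx hx'
      exact ⟨ha.1.trans hx', hx.le⟩
    have hlim : Tendsto (fun x => (x, g x)) (𝓝[Set.Ici a] a) (𝓝 (a, g a)) := by
      have h1 : Tendsto (fun x => (x, g x)) (𝓝[Set.Icc 0 1] a) (𝓝 (a, g a)) := hqc a ha'
      have h2 : 𝓝[Set.Ici a] a ≤ 𝓝[Set.Icc 0 1] a := by
        rw [nhdsWithin, nhdsWithin, le_inf_iff]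
        refine ⟨inf_le_left, le_principal_iff.2 hev⟩
      exact h1.mono_left h2
    have hlo := (hasFDerivAt_iff_isLittleO.1 hFa).comp_tendsto hlim
    have hO : (fun x => (x, g x) - (a, g a)) =O[𝓝[Set.Ici a] a] fun x => x - a := by
      refine Asymptotics.IsBigO.of_bound 1 ?_
      filter_upwards [hev] with x hx
      rw [Prod.mk_sub_mk, Prod.norm_mk, one_mul, Real.norm_eq_abs, Real.norm_eq_abs]
      exact max_le le_rfl (hlip a x ha' hx)
    have hlo2 := hlo.trans_isBigO hO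
    have hlo3 : (fun x => B (a, g a) * (g x - g a)) =o[𝓝[Set.Ici a] a] fun x => x - a := by
      refine (hlo2.neg_left).congr' ?_ EventuallyEq.rfl
      filter_upwards [hev] with x hx
      simp only [Function.comp_apply, hg2 x hx, hg2 a ha']
      simp
    have hlo4 := hlo3.const_mul_left (B (a, g a))⁻¹
    refine hlo4.congr' ?_ EventuallyEq.rfl
    filter_upwards with x
    field_simp
    simp
  have hconst := constant_of_has_deriv_right_zero hgc hder 1 ⟨zero_le_one, le_rfl⟩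
  have := hg2 1 ⟨zero_le_one, le_rfl⟩
  rwa [hconst, hg0] at this

end Core

section Tangent

theorem cr_smul_l (k : ℝ) (p q : ℝ × ℝ) : cr (k • p) q = k * cr p q := by
  simp only [cr, Prod.smul_fst, Prod.smul_snd, smul_eq_mul]; ring

theorem cr_smul_r (k : ℝ) (p q : ℝ × ℝ) : cr p (k • q) = k * cr p q := by
  simp only [cr, Prod.smul_fst, Prod.smul_snd, smul_eq_mul]; ring

/-- The determinants of two pairs of vectors are close to those of one pair. -/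
def Close (D : ℝ) (g1 g2 h1 h2 : ℝ × ℝ) : Prop :=
  |cr g1 h1| ≤ |D| / 16 ∧ |cr g2 h2| ≤ |D| / 16 ∧ |cr g1 h2 - D| ≤ |D| / 16 ∧
    |cr g2 h1 + D| ≤ |D| / 16

theorem two_abs_le (a b : ℝ) : 2 * |a * b| ≤ a ^ 2 + b ^ 2 := by
  rw [abs_mul]
  nlinarith [sq_nonneg (|a| - |b|), sq_abs a, sq_abs b]

theorem comb_le {a b p q r s e : ℝ} (hp : |p| ≤ e) (hq : |q| ≤ e) (hr : |r| ≤ e) (hs : |s| ≤ e) :
    |a ^ 2 * p + b ^ 2 * q + a * b * r + a * b * s| ≤ 2 * e * (a ^ 2 + b ^ 2) := by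
  have b1 : |a ^ 2 * p| ≤ a ^ 2 * e := by
    rw [abs_mul, abs_of_nonneg (sq_nonneg a)]
    exact mul_le_mul_of_nonneg_left hp (sq_nonneg _)
  have b2 : |b ^ 2 * q| ≤ b ^ 2 * e := by
    rw [abs_mul, abs_of_nonneg (sq_nonneg b)]
    exact mul_le_mul_of_nonneg_left hq (sq_nonneg _)
  have b3 : |a * b * r| ≤ |a * b| * e := by
    rw [abs_mul]
    exact mul_le_mul_of_nonneg_left hr (abs_nonneg _)
  have b4 : |a * b * s| ≤ |a * b| * e := by
    rw [abs_mul]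
    exact mul_le_mul_of_nonneg_left hs (abs_nonneg _)
  have he : 0 ≤ e := (abs_nonneg _).trans hp
  have h2 := mul_le_mul_of_nonneg_right (two_abs_le a b) he
  have t1 := abs_add_le (a ^ 2 * p + b ^ 2 * q + a * b * r) (a * b * s)
  have t2 := abs_add_le (a ^ 2 * p + b ^ 2 * q) (a * b * r)
  have t3 := abs_add_le (a ^ 2 * p) (b ^ 2 * q)
  linarith

theorem Close.diag {D : ℝ} {g1 g2 h1 h2 : ℝ × ℝ} (h : Close D g1 g2 h1 h2) (u : ℝ × ℝ) :
    |cr (lin g1 g2 u) (lin h1 h2 u)| ≤ |D| / 8 * (u.1 ^ 2 + u.2 ^ 2) := by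
  obtain ⟨h11, h22, h12, h21⟩ := h
  have e : cr (lin g1 g2 u) (lin h1 h2 u) =
      u.1 ^ 2 * cr g1 h1 + u.2 ^ 2 * cr g2 h2 + u.1 * u.2 * (cr g1 h2 - D) +
        u.1 * u.2 * (cr g2 h1 + D) := by
    simp only [lin_apply, cr, Prod.fst_add, Prod.snd_add, Prod.smul_fst, Prod.smul_snd,
      smul_eq_mul]
    ring
  rw [e]
  refine (comb_le h11 h22 h12 h21).trans (le_of_eq ?_)
  ring

theorem Close.cross {D : ℝ} {g1 g2 h1 h2 : ℝ × ℝ} (h : Close D g1 g2 h1 h2) (u : ℝ × ℝ) :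
    |cr (lin g1 g2 u) (lin h1 h2 (-u.2, u.1)) - D * (u.1 ^ 2 + u.2 ^ 2)| ≤
      |D| / 8 * (u.1 ^ 2 + u.2 ^ 2) := by
  obtain ⟨h11, h22, h12, h21⟩ := h
  have e : cr (lin g1 g2 u) (lin h1 h2 (-u.2, u.1)) - D * (u.1 ^ 2 + u.2 ^ 2) =
      u.1 ^ 2 * (cr g1 h2 - D) + u.2 ^ 2 * (-(cr g2 h1 + D)) + u.1 * u.2 * (-cr g1 h1) +
        u.1 * u.2 * cr g2 h2 := by
    simp only [lin_apply, cr, Prod.fst_add, Prod.snd_add, Prod.smul_fst, Prod.smul_snd,
      smul_eq_mul]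
    ring
  rw [e]
  refine (comb_le h12 (by rwa [abs_neg]) (by rwa [abs_neg]) h22).trans (le_of_eq ?_)
  ring

theorem Close.cross_ne {D : ℝ} {g1 g2 h1 h2 : ℝ × ℝ} (h : Close D g1 g2 h1 h2) (hD : D ≠ 0)
    {u : ℝ × ℝ} (hu : u ≠ 0) : cr (lin g1 g2 u) (lin h1 h2 (-u.2, u.1)) ≠ 0 := by
  intro h0
  have h1 := h.cross u
  have hD' := abs_pos.2 hD
  have hpos : 0 < u.1 ^ 2 + u.2 ^ 2 := by
    rcases (ne_or_eq u.1 0) with h2 | h2
    · positivity
    · rcases (ne_or_eq u.2 0) with h3 | h3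
      · positivity
      · exact absurd (Prod.ext h2 h3) hu
  rw [h0, zero_sub, abs_neg, abs_mul, abs_of_pos hpos] at h1
  nlinarith [mul_pos hD' hpos]

/-- The determinant with a fixed vector, as a linear map. -/
def crL (c : ℝ × ℝ) : ℝ × ℝ →L[ℝ] ℝ :=
  c.1 • ContinuousLinearMap.snd ℝ ℝ ℝ - c.2 • ContinuousLinearMap.fst ℝ ℝ ℝ

theorem crL_apply (c p : ℝ × ℝ) : crL c p = cr c p := by
  simp [crL, cr]

theorem exists_close {G1 G2 : ℝ × ℝ → ℝ × ℝ} {r₀ : ℝ} (hr₀ : 0 < r₀)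
    (hc1 : ContinuousOn G1 (Metric.ball 0 r₀)) (hc2 : ContinuousOn G2 (Metric.ball 0 r₀))
    (hdet : cr (G1 0) (G2 0) ≠ 0) :
    ∃ ρ : ℝ, 0 < ρ ∧ ρ ≤ r₀ ∧ ∀ x ∈ Metric.ball (0 : ℝ × ℝ) ρ, ∀ y ∈ Metric.ball (0 : ℝ × ℝ) ρ,
      Close (cr (G1 0) (G2 0)) (G1 x) (G2 x) (G1 y) (G2 y) := by
  have hcr : ∀ {f g : ℝ × ℝ → ℝ × ℝ}, ContinuousAt f 0 → ContinuousAt g 0 →
      Tendsto (fun p : (ℝ × ℝ) × (ℝ × ℝ) => cr (f p.1) (g p.2)) (𝓝 (0, 0)) (𝓝 (cr (f 0) (g 0))) := by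
    intro f g hf hg
    have h1 : Tendsto (fun p : (ℝ × ℝ) × (ℝ × ℝ) => f p.1) (𝓝 (0, 0)) (𝓝 (f 0)) :=
      Tendsto.comp (f := Prod.fst) (g := f) hf continuous_fst.continuousAt
    have h2 : Tendsto (fun p : (ℝ × ℝ) × (ℝ × ℝ) => g p.2) (𝓝 (0, 0)) (𝓝 (g 0)) :=
      Tendsto.comp (f := Prod.snd) (g := g) hg continuous_snd.continuousAt
    exact (((continuous_fst.tendsto _).comp h1).mul ((continuous_snd.tendsto _).comp h2)).sub
      (((continuous_snd.tendsto _).comp h1).mul ((continuous_fst.tendsto _).comp h2))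
  have k1 : ContinuousAt G1 0 := hc1.continuousAt (Metric.ball_mem_nhds 0 hr₀)
  have k2 : ContinuousAt G2 0 := hc2.continuousAt (Metric.ball_mem_nhds 0 hr₀)
  have he : 0 < |cr (G1 0) (G2 0)| / 16 := by have := abs_pos.2 hdet; linarith
  have e1 := (Metric.tendsto_nhds.1 (hcr k1 k1)) _ he
  have e2 := (Metric.tendsto_nhds.1 (hcr k2 k2)) _ he
  have e3 := (Metric.tendsto_nhds.1 (hcr k1 k2)) _ he
  have e4 := (Metric.tendsto_nhds.1 (hcr k2 k1)) _ he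
  obtain ⟨ρ, hρ, h⟩ := Metric.eventually_nhds_iff.1 (((e1.and e2).and e3).and e4)
  refine ⟨min ρ r₀, lt_min hρ hr₀, min_le_right _ _, fun x hx y hy => ?_⟩
  have hd : dist (x, y) ((0 : ℝ × ℝ), (0 : ℝ × ℝ)) < ρ := by
    rw [Prod.dist_eq]
    exact max_lt (lt_of_lt_of_le hx (min_le_left _ _)) (lt_of_lt_of_le hy (min_le_left _ _))
  obtain ⟨⟨⟨h1, h2⟩, h3⟩, h4⟩ := h hd
  rw [Real.dist_eq] at h1 h2 h3 h4
  rw [cr_self, sub_zero] at h1 h2
  rw [cr_swap (G2 0) (G1 0), sub_neg_eq_add] at h4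
  exact ⟨h1.le, h2.le, h3.le, h4.le⟩

theorem inj_of_close {Φ G1 G2 : ℝ × ℝ → ℝ × ℝ} {ρ D : ℝ} (hD : D ≠ 0)
    (hder : ∀ y ∈ Metric.ball (0 : ℝ × ℝ) ρ, HasFDerivAt Φ (lin (G1 y) (G2 y)) y)
    (hcl : ∀ x ∈ Metric.ball (0 : ℝ × ℝ) ρ, ∀ y ∈ Metric.ball (0 : ℝ × ℝ) ρ,
      Close D (G1 x) (G2 x) (G1 y) (G2 y)) {x y : ℝ × ℝ} (hx : x ∈ Metric.ball (0 : ℝ × ℝ) ρ)
    (hy : y ∈ Metric.ball (0 : ℝ × ℝ) ρ) (h : Φ x = Φ y) : x = y := by
  by_contra hne
  have hu : y - x ≠ 0 := sub_ne_zero.2 (Ne.symm hne)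
  obtain ⟨u, hu'⟩ : ∃ u : ℝ × ℝ, u = y - x := ⟨_, rfl⟩
  rw [← hu'] at hu
  have hmem : ∀ θ ∈ Set.Icc (0 : ℝ) 1, x + θ • u ∈ Metric.ball (0 : ℝ × ℝ) ρ := by
    intro θ hθ
    have := (convex_ball (0 : ℝ × ℝ) ρ).add_smul_sub_mem hx hy hθ
    rwa [← hu'] at this
  have hd : ∀ θ ∈ Set.Icc (0 : ℝ) 1, HasDerivAt
      (fun θ : ℝ => crL (lin (G1 x) (G2 x) (u.2, -u.1)) (Φ (x + θ • u)))
      (crL (lin (G1 x) (G2 x) (u.2, -u.1)) (lin (G1 (x + θ • u)) (G2 (x + θ • u)) u)) θ := by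
    intro θ hθ
    have h1 : HasDerivAt (fun θ : ℝ => x + θ • u) u θ := by
      simpa using ((hasDerivAt_id θ).smul_const u).const_add x
    have h2 := (hder _ (hmem θ hθ)).comp_hasDerivAt θ h1
    exact (crL (lin (G1 x) (G2 x) (u.2, -u.1))).hasFDerivAt.comp_hasDerivAt θ h2
  obtain ⟨θ, hθ, h0⟩ := exists_hasDerivAt_eq_zero (zero_lt_one' ℝ)
    (fun θ hθ => (hd θ hθ).continuousAt.continuousWithinAt)
    (by simp [hu', h]) (fun θ hθ => hd θ ⟨hθ.1.le, hθ.2.le⟩)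
  have hw : ((u.2, -u.1) : ℝ × ℝ) ≠ 0 := by
    intro h3
    apply hu
    have h4 := congrArg Prod.fst h3
    have h5 := congrArg Prod.snd h3
    simp only [Prod.fst_zero, Prod.snd_zero] at h4 h5
    exact Prod.ext (by simpa using h5) (by simpa using h4)
  have := (hcl x hx _ (hmem θ ⟨hθ.1.le, hθ.2.le⟩)).cross_ne hD hw
  apply this
  rw [crL_apply] at h0
  simpa using h0

theorem tangent {Φ G1 G2 : ℝ × ℝ → ℝ × ℝ} {r₀ : ℝ} (hr₀ : 0 < r₀)
    (hder : ∀ y ∈ Metric.ball (0 : ℝ × ℝ) r₀, HasFDerivAt Φ (lin (G1 y) (G2 y)) y)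
    (hc1 : ContinuousOn G1 (Metric.ball 0 r₀)) (hc2 : ContinuousOn G2 (Metric.ball 0 r₀))
    (hdet : cr (G1 0) (G2 0) ≠ 0)
    (hrat : ∀ x ∈ Metric.ball (0 : ℝ × ℝ) r₀, ∀ y ∈ Metric.ball (0 : ℝ × ℝ) r₀, ∀ v : ℤ × ℤ,
      v ≠ 0 → x ≠ y → Φ x ≠ Φ y → cr (lin (G1 x) (G2 x) (vv v)) (Φ y - Φ x) = 0 →
      cr (lin (G1 x) (G2 x) (vv v)) (lin (G1 y) (G2 y) (vv (perp v))) ≠ 0 →
      ¬ Irrational (cr (lin (G1 x) (G2 x) (vv v)) (lin (G1 y) (G2 y) (vv v)) /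
        cr (lin (G1 x) (G2 x) (vv v)) (lin (G1 y) (G2 y) (vv (perp v))))) :
    ∃ r₁ : ℝ, 0 < r₁ ∧ r₁ ≤ r₀ ∧ ∀ x ∈ Metric.ball (0 : ℝ × ℝ) r₁, ∀ (v : ℤ × ℤ) (t : ℝ),
      x + t • vv v ∈ Metric.ball (0 : ℝ × ℝ) r₁ →
      cr (lin (G1 x) (G2 x) (vv v)) (Φ (x + t • vv v) - Φ x) = 0 := by
  obtain ⟨ρ, hρ, hρr, hcl⟩ := exists_close hr₀ hc1 hc2 hdet
  obtain ⟨D, hDe⟩ : ∃ D, D = cr (G1 0) (G2 0) := ⟨_, rfl⟩
  rw [← hDe] at hcl hdet
  have hsub : Metric.ball (0 : ℝ × ℝ) ρ ⊆ Metric.ball 0 r₀ := Metric.ball_subset_ball hρr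
  refine ⟨ρ / 8, by linarith, by linarith, fun x hx v t hxt => ?_⟩
  by_cases ht : t = 0
  · subst ht
    simp [cr]
  by_cases hv : v = 0
  · have h0 : vv v = 0 := by rw [hv]; ext <;> simp [vv]
    rw [h0]
    simp [cr]
  -- notation
  obtain ⟨N, hN⟩ : ∃ N : ℝ, N = (vv v).1 ^ 2 + (vv v).2 ^ 2 := ⟨_, rfl⟩
  have hvv : vv v ≠ 0 := by
    intro h
    apply hv
    have h4 := congrArg Prod.fst h
    have h5 := congrArg Prod.snd h
    simp only [vv, Prod.fst_zero, Prod.snd_zero] at h4 h5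
    exact Prod.ext (by exact_mod_cast h4) (by exact_mod_cast h5)
  have hNpos : 0 < N := by
    rw [hN]
    rcases (ne_or_eq (vv v).1 0) with h2 | h2
    · positivity
    · rcases (ne_or_eq (vv v).2 0) with h3 | h3
      · positivity
      · exact absurd (Prod.ext h2 h3) hvv
  have hperp : vv (perp v) = (-(vv v).2, (vv v).1) := by simp [vv, perp]
  obtain ⟨c, hc⟩ : ∃ c, c = lin (G1 x) (G2 x) (vv v) := ⟨_, rfl⟩
  obtain ⟨P, hP⟩ : ∃ P : ℝ × ℝ → ℝ × ℝ,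
      P = fun q => x + lin (t • vv v) (t • vv (perp v)) q := ⟨_, rfl⟩
  obtain ⟨k, hk⟩ : ∃ k : ℝ, k = (t * (D * N))⁻¹ := ⟨_, rfl⟩
  have hkt : k * t = (D * N)⁻¹ := by rw [hk]; field_simp
  have hk0 : k ≠ 0 := by rw [hk]; positivity
  have hnx : ‖x‖ < ρ / 8 := by simpa using hx
  have hnV : ‖t • vv v‖ < ρ / 4 := by
    have h1 : ‖x + t • vv v‖ < ρ / 8 := by simpa using hxt
    have h2 := norm_sub_le (x + t • vv v) x
    rw [add_sub_cancel_left] at h2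
    linarith
  have hnW : ‖t • vv (perp v)‖ < ρ / 4 := by
    refine lt_of_eq_of_lt ?_ hnV
    rw [norm_smul, norm_smul, hperp, Prod.norm_mk, norm_neg, max_comm]
    rfl
  have hPmem : ∀ q ∈ sq, P q ∈ Metric.ball (0 : ℝ × ℝ) ρ := by
    intro q hq
    obtain ⟨⟨q1, q2⟩, q3, q4⟩ := (mem_sq (a := q.1) (b := q.2)).1 hq
    rw [mem_ball_zero_iff, hP]
    simp only [lin_apply]
    have h1 := norm_add_le x (q.1 • t • vv v + q.2 • t • vv (perp v))
    have h2 := norm_add_le (q.1 • t • vv v) (q.2 • t • vv (perp v))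
    rw [norm_smul q.1 (t • vv v), norm_smul q.2 (t • vv (perp v))] at h2
    have h3 : ‖q.1‖ * ‖t • vv v‖ ≤ 1 * ‖t • vv v‖ :=
      mul_le_mul_of_nonneg_right (by rw [Real.norm_eq_abs]; exact abs_le.2 ⟨by linarith, q2⟩)
        (norm_nonneg _)
    have h4 : ‖q.2‖ * ‖t • vv (perp v)‖ ≤ 1 * ‖t • vv (perp v)‖ :=
      mul_le_mul_of_nonneg_right (by rw [Real.norm_eq_abs]; exact abs_le.2 ⟨q3, q4⟩)
        (norm_nonneg _)
    linarith
  have hxρ : x ∈ Metric.ball (0 : ℝ × ℝ) ρ := by rw [mem_ball_zero_iff]; linarith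
  have hcore := core
    (F := fun q => k * crL c (Φ (P q) - Φ x))
    (A := fun q => k * cr c (lin (G1 (P q)) (G2 (P q)) (t • vv v)))
    (B := fun q => k * cr c (lin (G1 (P q)) (G2 (P q)) (t • vv (perp v)))) ?_ ?_ ?_ ?_ ?_ ?_ ?_ ?_
  · have h1 : P (1, 0) = x + t • vv v := by simp [hP, lin_apply]
    simp only [h1, crL_apply] at hcore
    rw [← hc]
    exact (mul_eq_zero.1 hcore).resolve_left hk0
  · -- the derivative
    intro q hq
    have h1 : HasFDerivAt P (lin (t • vv v) (t • vv (perp v))) q := by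
      rw [hP]
      exact (lin (t • vv v) (t • vv (perp v))).hasFDerivAt.const_add x
    have h2 := (hder _ (hsub (hPmem q hq))).comp q h1
    have h3 := ((crL c).hasFDerivAt.comp q (h2.sub_const (Φ x))).const_mul k
    refine h3.congr_fderiv ?_
    ext <;> simp [crL_apply, cr_smul_r, lin_apply (t • vv v) (t • vv (perp v))]
  · -- continuity of the first partial derivative
    have hPc : ContinuousOn P sq := by
      rw [hP]
      exact (continuous_const.add (lin (t • vv v) (t • vv (perp v))).continuous).continuousOn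
    have g1 : ContinuousOn (fun q => G1 (P q)) sq := hc1.comp hPc fun q hq => hsub (hPmem q hq)
    have g2 : ContinuousOn (fun q => G2 (P q)) sq := hc2.comp hPc fun q hq => hsub (hPmem q hq)
    have g3 : ContinuousOn (fun q => lin (G1 (P q)) (G2 (P q)) (t • vv v)) sq := by
      simp only [lin_apply]
      exact (g1.const_smul (t • vv v).1).add (g2.const_smul (t • vv v).2)
    simp only [← crL_apply]
    exact continuousOn_const.mul ((crL c).continuous.comp_continuousOn g3)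
  · have hPc : ContinuousOn P sq := by
      rw [hP]
      exact (continuous_const.add (lin (t • vv v) (t • vv (perp v))).continuous).continuousOn
    have g1 : ContinuousOn (fun q => G1 (P q)) sq := hc1.comp hPc fun q hq => hsub (hPmem q hq)
    have g2 : ContinuousOn (fun q => G2 (P q)) sq := hc2.comp hPc fun q hq => hsub (hPmem q hq)
    have g3 : ContinuousOn (fun q => lin (G1 (P q)) (G2 (P q)) (t • vv (perp v))) sq := by
      simp only [lin_apply]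
      exact (g1.const_smul (t • vv (perp v)).1).add (g2.const_smul (t • vv (perp v)).2)
    simp only [← crL_apply]
    exact continuousOn_const.mul ((crL c).continuous.comp_continuousOn g3)
  · -- the bound on the first partial derivative
    intro q hq
    have h1 := (hcl x hxρ _ (hPmem q hq)).diag (vv v)
    rw [← hc, ← hN] at h1
    rw [map_smul, cr_smul_r, ← mul_assoc, hkt, abs_mul, abs_inv, abs_mul, abs_of_pos hNpos]
    have hDpos := abs_pos.2 hdet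
    rw [inv_mul_le_iff₀ (mul_pos hDpos hNpos)]
    have := mul_pos hDpos hNpos
    linarith
  · intro q hq
    have h1 := (hcl x hxρ _ (hPmem q hq)).cross (vv v)
    rw [← hc, ← hN, ← hperp] at h1
    rw [map_smul, cr_smul_r, ← mul_assoc, hkt]
    have hDN : D * N ≠ 0 := mul_ne_zero hdet hNpos.ne'
    have h2 : |(D * N)⁻¹ * cr c (lin (G1 (P q)) (G2 (P q)) (vv (perp v))) - 1| ≤ 1 / 8 := by
      have e : (D * N)⁻¹ * cr c (lin (G1 (P q)) (G2 (P q)) (vv (perp v))) - 1 =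
          (D * N)⁻¹ * (cr c (lin (G1 (P q)) (G2 (P q)) (vv (perp v))) - D * N) := by
        field_simp
      rw [e, abs_mul, abs_inv, abs_mul, abs_of_pos hNpos,
        inv_mul_le_iff₀ (mul_pos (abs_pos.2 hdet) hNpos)]
      linarith
    have h3 := (abs_le.1 h2).1
    linarith
  · have h1 : P (0, 0) = x := by simp [hP, lin_apply]
    simp only [h1, sub_self, map_zero, mul_zero]
  · have h1 : P (0, 0) = x := by simp [hP, lin_apply]
    simp only [h1, map_smul, cr_smul_r]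
    rw [← hc, cr_self]
    simp
  · intro q hq hq1 hFq
    have hPne : x ≠ P q := by
      intro h
      rw [hP] at h
      simp only [lin_apply, hperp] at h
      have h1 := congrArg Prod.fst h
      have h2 := congrArg Prod.snd h
      simp only [Prod.fst_add, Prod.snd_add, Prod.smul_fst, Prod.smul_snd, smul_eq_mul] at h1 h2
      have h3 : q.1 * (t * N) = 0 := by
        rw [hN]
        linear_combination (-(vv v).1) * h1 - (vv v).2 * h2
      rcases mul_eq_zero.1 h3 with h4 | h4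
      · exact hq1 h4
      · exact (mul_ne_zero ht hNpos.ne') h4
    have hΦne : Φ x ≠ Φ (P q) := fun h =>
      hPne (inj_of_close hdet (fun y hy => hder y (hsub hy)) hcl hxρ (hPmem q hq) h)
    have h0 : cr c (Φ (P q) - Φ x) = 0 := by
      simp only [crL_apply] at hFq
      exact (mul_eq_zero.1 hFq).resolve_left hk0
    have hcr : cr c (lin (G1 (P q)) (G2 (P q)) (vv (perp v))) ≠ 0 := by
      rw [hc, hperp]
      exact (hcl x hxρ _ (hPmem q hq)).cross_ne hdet hvv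
    have key := hrat x (hsub hxρ) (P q) (hsub (hPmem q hq)) v hv hPne hΦne
      (by rw [← hc]; exact h0) (by rw [← hc]; exact hcr)
    rw [← hc] at key
    have e : (k * cr c (lin (G1 (P q)) (G2 (P q)) (t • vv v))) /
        (k * cr c (lin (G1 (P q)) (G2 (P q)) (t • vv (perp v)))) =
        cr c (lin (G1 (P q)) (G2 (P q)) (vv v)) /
          cr c (lin (G1 (P q)) (G2 (P q)) (vv (perp v))) := by
      rw [map_smul, map_smul, cr_smul_r, cr_smul_r, mul_div_mul_left _ _ hk0,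
        mul_div_mul_left _ _ ht]
    simp only [e]
    exact key

end Tangent

end Pool.Agent.C1Grid
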