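import Pool.Agent.C1Grid.Defs

/-!
# Undoing the projective limit map
-/

set_option autoImplicit false

namespace Pool.Agent.C1Grid

open Pool.Agent.GridLat Filter Topology

/-- The inverse of `lin g1 g2`. -/
noncomputable def inv (g1 g2 p : ℝ × ℝ) : ℝ × ℝ := (cr p g2 / cr g1 g2, cr g1 p / cr g1 g2)

theorem inv_lin {g1 g2 : ℝ × ℝ} (h : cr g1 g2 ≠ 0) (u : ℝ × ℝ) : inv g1 g2 (lin g1 g2 u) = u := by
  rw [lin_apply]
  ext
  · simp only [inv]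
    rw [div_eq_iff h]
    simp only [cr, Prod.fst_add, Prod.snd_add, Prod.smul_fst, Prod.smul_snd, smul_eq_mul]
    ring
  · simp only [inv]
    rw [div_eq_iff h]
    simp only [cr, Prod.fst_add, Prod.snd_add, Prod.smul_fst, Prod.smul_snd, smul_eq_mul]
    ring

theorem inv_sub (g1 g2 p q : ℝ × ℝ) : inv g1 g2 (p - q) = inv g1 g2 p - inv g1 g2 q := by
  ext <;> simp only [inv, cr, Prod.fst_sub, Prod.snd_sub] <;> ring

theorem inv_smul (g1 g2 p : ℝ × ℝ) (c : ℝ) : inv g1 g2 (c • p) = c • inv g1 g2 p := by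
  ext <;> simp only [inv, cr, Prod.smul_fst, Prod.smul_snd, smul_eq_mul] <;> ring

theorem inv_cont (g1 g2 : ℝ × ℝ) : Continuous (inv g1 g2) := by
  unfold inv cr
  fun_prop

theorem cr_inv {g1 g2 : ℝ × ℝ} (h : cr g1 g2 ≠ 0) (p q : ℝ × ℝ) :
    cr (inv g1 g2 p) (inv g1 g2 q) = cr p q / cr g1 g2 := by
  have e1 : cr (inv g1 g2 p) (inv g1 g2 q) =
      (cr p g2 * cr g1 q - cr g1 p * cr q g2) / (cr g1 g2 * cr g1 g2) := by
    have e0 : cr (inv g1 g2 p) (inv g1 g2 q) = cr p g2 / cr g1 g2 * (cr g1 q / cr g1 g2) -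
      cr g1 p / cr g1 g2 * (cr q g2 / cr g1 g2) := rfl
    rw [e0]
    field_simp
  have e2 : cr p g2 * cr g1 q - cr g1 p * cr q g2 = cr p q * cr g1 g2 := by
    simp only [cr]; ring
  rw [e1, e2]
  field_simp

theorem norm_inv_le (g1 g2 p : ℝ × ℝ) :
    ‖inv g1 g2 p‖ ≤ (2 * (‖g1‖ + ‖g2‖) / |cr g1 g2|) * ‖p‖ := by
  have h0 : 0 ≤ |cr g1 g2| := abs_nonneg _
  have h1 : |cr p g2| ≤ 2 * (‖g1‖ + ‖g2‖) * ‖p‖ := by
    refine (abs_cr_le _ _).trans ?_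
    have := mul_nonneg (norm_nonneg g1) (norm_nonneg p)
    nlinarith [norm_nonneg p, norm_nonneg g2]
  have h2 : |cr g1 p| ≤ 2 * (‖g1‖ + ‖g2‖) * ‖p‖ := by
    refine (abs_cr_le _ _).trans ?_
    have := mul_nonneg (norm_nonneg g2) (norm_nonneg p)
    nlinarith [norm_nonneg p, norm_nonneg g2]
  have e : (2 * (‖g1‖ + ‖g2‖) / |cr g1 g2|) * ‖p‖ = (2 * (‖g1‖ + ‖g2‖) * ‖p‖) / |cr g1 g2| := by
    ring
  rw [e, Prod.norm_def]
  simp only [inv, Real.norm_eq_abs, abs_div]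
  exact max_le (div_le_div_of_nonneg_right h1 h0) (div_le_div_of_nonneg_right h2 h0)

/-- The denominator. -/
def den (l1 l2 : ℝ) (q : ℝ × ℝ) : ℝ := 1 - l1 * q.1 - l2 * q.2

/-- The projective map. -/
noncomputable def tr (l1 l2 : ℝ) (q : ℝ × ℝ) : ℝ × ℝ := (den l1 l2 q)⁻¹ • q

theorem tr_sub {l1 l2 : ℝ} {p q : ℝ × ℝ} (hp : den l1 l2 p ≠ 0) (hq : den l1 l2 q ≠ 0) :
    tr l1 l2 q - tr l1 l2 p = (den l1 l2 p * den l1 l2 q)⁻¹ •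
      (den l1 l2 p • (q - p) + (l1 * (q - p).1 + l2 * (q - p).2) • p) := by
  have e1 : tr l1 l2 q = (den l1 l2 p * den l1 l2 q)⁻¹ • (den l1 l2 p • q) := by
    rw [tr, smul_smul]
    congr 1
    field_simp
  have e2 : tr l1 l2 p = (den l1 l2 p * den l1 l2 q)⁻¹ • (den l1 l2 q • p) := by
    rw [tr, smul_smul]
    congr 1
    field_simp
  rw [e1, e2, ← smul_sub]
  congr 1
  ext
  · simp only [den, Prod.fst_sub, Prod.fst_add, Prod.smul_fst, smul_eq_mul, Prod.snd_sub]; ring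
  · simp only [den, Prod.fst_sub, Prod.snd_add, Prod.smul_snd, smul_eq_mul, Prod.snd_sub]; ring

theorem cr_tr {l1 l2 : ℝ} {p q r : ℝ × ℝ} (hp : den l1 l2 p ≠ 0) (hq : den l1 l2 q ≠ 0)
    (hr : den l1 l2 r ≠ 0) :
    cr (tr l1 l2 q - tr l1 l2 p) (tr l1 l2 r - tr l1 l2 p) =
      cr (q - p) (r - p) / (den l1 l2 p * den l1 l2 q * den l1 l2 r) := by
  rw [eq_div_iff (by positivity)]
  have e : ∀ s : ℝ × ℝ, tr l1 l2 s = ((den l1 l2 s)⁻¹ * s.1, (den l1 l2 s)⁻¹ * s.2) := by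
    intro s; rfl
  rw [e p, e q, e r]
  simp only [cr, Prod.fst_sub, Prod.snd_sub]
  have h1 : den l1 l2 p * (den l1 l2 p)⁻¹ = 1 := mul_inv_cancel₀ hp
  have h2 : den l1 l2 q * (den l1 l2 q)⁻¹ = 1 := mul_inv_cancel₀ hq
  have h3 : den l1 l2 r * (den l1 l2 r)⁻¹ = 1 := mul_inv_cancel₀ hr
  generalize hP : (den l1 l2 p)⁻¹ = P at *
  generalize hQ : (den l1 l2 q)⁻¹ = S at *
  generalize hR : (den l1 l2 r)⁻¹ = R at *
  have g1 : den l1 l2 p = 1 - l1 * p.1 - l2 * p.2 := rfl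
  have g2 : den l1 l2 q = 1 - l1 * q.1 - l2 * q.2 := rfl
  have g3 : den l1 l2 r = 1 - l1 * r.1 - l2 * r.2 := rfl
  have k1 : ((S * q.1 - P * p.1) * (R * r.2 - P * p.2) - (S * q.2 - P * p.2) * (R * r.1 - P * p.1)) *
      (den l1 l2 p * den l1 l2 q * den l1 l2 r) =
      (den l1 l2 q * S) * (den l1 l2 r * R) * den l1 l2 p * (q.1 * r.2 - q.2 * r.1) -
      (den l1 l2 q * S) * (den l1 l2 p * P) * den l1 l2 r * (q.1 * p.2 - q.2 * p.1) -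
      (den l1 l2 p * P) * (den l1 l2 r * R) * den l1 l2 q * (p.1 * r.2 - p.2 * r.1) := by ring
  rw [k1, h1, h2, h3, g1, g2, g3]
  ring

/-- Compactness: what holds along all convergent sequences holds for all points. -/
theorem unif {U : Ultrafilter ℕ} {m : ℕ → ℕ} (hm : ∀ᶠ k in (U : Filter ℕ), 0 < m k) {ρ : ℝ}
    {P : ℕ → ℤ × ℤ → Prop}
    (hP : ∀ (z : ℕ → ℤ × ℤ) (y : ℝ × ℝ), ‖y‖ ≤ ρ →
      Tendsto (fun k => (m k : ℝ)⁻¹ • vv (z k)) U (𝓝 y) → ∀ᶠ k in (U : Filter ℕ), P k (z k)) :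
    ∀ᶠ k in (U : Filter ℕ), ∀ z, ‖vv z‖ ≤ ρ * m k → P k z := by
  classical
  by_contra hc
  rw [← Ultrafilter.eventually_not] at hc
  have hex : ∀ k, ∃ z : ℤ × ℤ, (¬ ∀ z, ‖vv z‖ ≤ ρ * m k → P k z) → ‖vv z‖ ≤ ρ * m k ∧ ¬ P k z := by
    intro k
    by_cases h : ∀ z, ‖vv z‖ ≤ ρ * m k → P k z
    · exact ⟨0, fun h' => absurd h h'⟩
    · push Not at h
      obtain ⟨z, h1, h2⟩ := h
      exact ⟨z, fun _ => ⟨h1, h2⟩⟩
  choose z hz using hex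
  have h1 : ∀ᶠ k in (U : Filter ℕ), (m k : ℝ)⁻¹ • vv (z k) ∈ Metric.closedBall (0 : ℝ × ℝ) ρ := by
    filter_upwards [hc, hm] with k hk hmk
    have h2 := (hz k hk).1
    rw [mem_closedBall_zero_iff, norm_smul, norm_inv, Real.norm_natCast]
    have h3 : (0 : ℝ) < m k := by exact_mod_cast hmk
    rw [inv_mul_le_iff₀ h3]
    linarith
  have h2 : IsCompact (Metric.closedBall (0 : ℝ × ℝ) ρ) := isCompact_closedBall _ _
  obtain ⟨y, hy, hy2⟩ := h2.ultrafilter_le_nhds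
    (U.map (fun k => (m k : ℝ)⁻¹ • vv (z k))) (by
      rw [le_principal_iff]
      exact h1)
  have h3 := hP z y (by simpa using hy) hy2
  obtain ⟨k, hk1, hk2⟩ := (hc.and h3).exists
  exact (hz k hk1).2 hk2

/-- The transformed grid. -/
noncomputable def newQ (m : ℕ) (Q : ℤ × ℤ → ℝ × ℝ) (g1 g2 : ℝ × ℝ) (l1 l2 : ℝ) (z : ℤ × ℤ) :
    ℝ × ℝ := (m : ℝ) • tr l1 l2 (inv g1 g2 ((m : ℝ)⁻¹ • (Q z - Q 0)))

/-- The denominator of the limit map. -/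
def dn (l1 l2 : ℝ) (u : ℝ × ℝ) : ℝ := 1 + l1 * u.1 + l2 * u.2

section

variable {Φ G1 G2 : ℝ × ℝ → ℝ × ℝ} {l1 l2 r₂ : ℝ}

theorem der_formula (hr₂' : r₂ ≤ 1)
    (hder : ∀ y ∈ Metric.ball (0 : ℝ × ℝ) 1, HasFDerivAt Φ (lin (G1 y) (G2 y)) y)
    (hΦ : ∀ u ∈ Metric.ball (0 : ℝ × ℝ) r₂, dn l1 l2 u • Φ u = lin (G1 0) (G2 0) u)
    (y : ℝ × ℝ) (hy : y ∈ Metric.ball (0 : ℝ × ℝ) r₂) (e : ℝ × ℝ) :
    dn l1 l2 y • lin (G1 y) (G2 y) e + (l1 * e.1 + l2 * e.2) • Φ y = lin (G1 0) (G2 0) e := by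
  have hy1 : y ∈ Metric.ball (0 : ℝ × ℝ) 1 := Metric.ball_subset_ball hr₂' hy
  have h1 : HasDerivAt (fun t : ℝ => y + t • e) e 0 := by
    have := ((hasDerivAt_id (0 : ℝ)).smul_const e).const_add y
    simpa using this
  have h2 : HasDerivAt (fun t : ℝ => Φ (y + t • e)) (lin (G1 y) (G2 y) e) 0 := by
    have h3 : HasFDerivAt Φ (lin (G1 y) (G2 y)) (y + (0 : ℝ) • e) := by simpa using hder y hy1
    exact h3.comp_hasDerivAt (0 : ℝ) h1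
  have h4 : HasDerivAt (fun t : ℝ => dn l1 l2 (y + t • e)) (l1 * e.1 + l2 * e.2) 0 := by
    have e1 : (fun t : ℝ => dn l1 l2 (y + t • e)) =
        fun t : ℝ => dn l1 l2 y + t * (l1 * e.1 + l2 * e.2) := by
      funext t
      simp only [dn, Prod.fst_add, Prod.snd_add, Prod.smul_fst, Prod.smul_snd, smul_eq_mul]
      ring
    rw [e1]
    have := ((hasDerivAt_id (0 : ℝ)).mul_const (l1 * e.1 + l2 * e.2)).const_add (dn l1 l2 y)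
    simpa using this
  have h5 := h4.smul h2
  have h6 : HasDerivAt (fun t : ℝ => lin (G1 0) (G2 0) (y + t • e)) (lin (G1 0) (G2 0) e) 0 :=
    (lin (G1 0) (G2 0)).hasFDerivAt.comp_hasDerivAt (0 : ℝ) h1
  have hcont : ContinuousAt (fun t : ℝ => y + t • e) 0 := h1.continuousAt
  have h7 : ∀ᶠ t in 𝓝 (0 : ℝ), y + t • e ∈ Metric.ball (0 : ℝ × ℝ) r₂ := by
    refine hcont.eventually_mem ?_
    have : y + (0 : ℝ) • e = y := by simp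
    rw [this]
    exact Metric.isOpen_ball.mem_nhds hy
  have h8 : (fun t : ℝ => dn l1 l2 (y + t • e) • Φ (y + t • e)) =ᶠ[𝓝 0]
      fun t : ℝ => lin (G1 0) (G2 0) (y + t • e) := by
    filter_upwards [h7] with t ht
    exact hΦ _ ht
  have h9 := h5.unique (h6.congr_of_eventuallyEq h8)
  simpa using h9

end

section

variable {m : ℕ → ℕ} {Q : ℕ → ℤ × ℤ → ℝ × ℝ} {a : ℕ → ℝ} {K κ ε : ℝ} {U : Ultrafilter ℕ}
  {Φ G1 G2 : ℝ × ℝ → ℝ × ℝ} {l1 l2 r₂ ρ : ℝ}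

/-- The normalised positions. -/
noncomputable def qq (m : ℕ) (Q : ℤ × ℤ → ℝ × ℝ) (g1 g2 : ℝ × ℝ) (z : ℤ × ℤ) : ℝ × ℝ :=
  inv g1 g2 ((m : ℝ)⁻¹ • (Q z - Q 0))

theorem dn_bounds (hρ2 : ρ * (4 * (|l1| + |l2|) + 4) ≤ 1) {y : ℝ × ℝ}
    (hy : ‖y‖ ≤ ρ) : 3 / 4 ≤ dn l1 l2 y ∧ dn l1 l2 y ≤ 5 / 4 ∧ ρ ≤ 1 / 4 := by
  have hρ : 0 ≤ ρ := (norm_nonneg y).trans hy
  have h1 : |y.1| ≤ ρ := (norm_fst_le y).trans hy
  have h2 : |y.2| ≤ ρ := (norm_snd_le y).trans hy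
  have h3 : |l1 * y.1| ≤ |l1| * ρ := by
    rw [abs_mul]; exact mul_le_mul_of_nonneg_left h1 (abs_nonneg _)
  have h4 : |l2 * y.2| ≤ |l2| * ρ := by
    rw [abs_mul]; exact mul_le_mul_of_nonneg_left h2 (abs_nonneg _)
  have h5 := abs_le.1 h3
  have h6 := abs_le.1 h4
  have h7 : 0 ≤ |l1| * ρ := by positivity
  have h8 : 0 ≤ |l2| * ρ := by positivity
  refine ⟨?_, ?_, ?_⟩
  · unfold dn; nlinarith
  · unfold dn; nlinarith
  · nlinarith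

theorem lim_q (hL : Lim U m Q κ Φ G1 G2) (hκ : 0 < κ) (hρr : ρ < r₂) (hr₂' : r₂ ≤ 1)
    (hρ2 : ρ * (4 * (|l1| + |l2|) + 4) ≤ 1)
    (hΦ : ∀ u ∈ Metric.ball (0 : ℝ × ℝ) r₂, dn l1 l2 u • Φ u = lin (G1 0) (G2 0) u)
    (z : ℕ → ℤ × ℤ) (y : ℝ × ℝ) (hy : ‖y‖ ≤ ρ)
    (hz : Tendsto (fun k => (m k : ℝ)⁻¹ • vv (z k)) U (𝓝 y)) :
    Tendsto (fun k => qq (m k) (Q k) (G1 0) (G2 0) (z k)) U (𝓝 ((dn l1 l2 y)⁻¹ • y)) := by
  have h1 := hL.pos z y (by linarith) hz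
  have h2 := ((inv_cont (G1 0) (G2 0)).tendsto (Φ y)).comp h1
  have hdet : cr (G1 0) (G2 0) ≠ 0 := by
    have := hL.det 0 (by simp)
    intro h0
    rw [h0, abs_zero] at this
    linarith
  have h3 : inv (G1 0) (G2 0) (Φ y) = (dn l1 l2 y)⁻¹ • y := by
    have h4 := hΦ y (by simp; linarith)
    have h5 := (dn_bounds hρ2 hy).1
    have h6 : Φ y = (dn l1 l2 y)⁻¹ • lin (G1 0) (G2 0) y := by
      rw [← h4, smul_smul, inv_mul_cancel₀ (by linarith), one_smul]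
    rw [h6, inv_smul, inv_lin hdet]
  rw [h3] at h2
  exact h2

theorem den_lim {y : ℝ × ℝ} (h : dn l1 l2 y ≠ 0) :
    den l1 l2 ((dn l1 l2 y)⁻¹ • y) = (dn l1 l2 y)⁻¹ := by
  refine eq_inv_of_mul_eq_one_left ?_
  have h1 : den l1 l2 ((dn l1 l2 y)⁻¹ • y) * dn l1 l2 y =
      dn l1 l2 y - ((dn l1 l2 y)⁻¹ * dn l1 l2 y) * (l1 * y.1 + l2 * y.2) := by
    simp only [den, Prod.smul_fst, Prod.smul_snd, smul_eq_mul]; ring
  rw [h1, inv_mul_cancel₀ h]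
  simp only [dn]; ring

theorem den_cont (l1 l2 : ℝ) : Continuous (den l1 l2) := by
  unfold den
  fun_prop

theorem m_pos (h : Grids m Q a K κ ε) (hU : (U : Filter ℕ) ≤ atTop) :
    ∀ᶠ k in (U : Filter ℕ), 0 < m k :=
  hU (h.hm.eventually_gt_atTop 0)

theorem unif_q (h : Grids m Q a K κ ε) (hU : (U : Filter ℕ) ≤ atTop)
    (hL : Lim U m Q κ Φ G1 G2) (hρr : ρ < r₂) (hr₂' : r₂ ≤ 1)
    (hρ2 : ρ * (4 * (|l1| + |l2|) + 4) ≤ 1)
    (hΦ : ∀ u ∈ Metric.ball (0 : ℝ × ℝ) r₂, dn l1 l2 u • Φ u = lin (G1 0) (G2 0) u) :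
    ∀ᶠ k in (U : Filter ℕ), ∀ z, ‖vv z‖ ≤ ρ * m k →
      1 / 2 ≤ den l1 l2 (qq (m k) (Q k) (G1 0) (G2 0) z) ∧
      den l1 l2 (qq (m k) (Q k) (G1 0) (G2 0) z) ≤ 2 ∧
      ‖qq (m k) (Q k) (G1 0) (G2 0) z‖ ≤ 1 := by
  refine unif (m_pos h hU) ?_
  intro z y hy hz
  have h1 := lim_q hL h.hκ hρr hr₂' hρ2 hΦ z y hy hz
  obtain ⟨h2, h3, h4⟩ := dn_bounds hρ2 hy
  have h5 : dn l1 l2 y ≠ 0 := by linarith
  have h6 := ((den_cont l1 l2).tendsto _).comp h1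
  rw [den_lim h5] at h6
  have h7 : (dn l1 l2 y)⁻¹ ≤ 4 / 3 := by
    rw [inv_le_comm₀ (by linarith) (by norm_num)]
    linarith
  have h8 : 4 / 5 ≤ (dn l1 l2 y)⁻¹ := by
    rw [le_inv_comm₀ (by norm_num) (by linarith)]
    linarith
  have h9 : ‖(dn l1 l2 y)⁻¹ • y‖ < 1 := by
    rw [norm_smul, Real.norm_eq_abs, abs_of_pos (by linarith)]
    have : (dn l1 l2 y)⁻¹ * ‖y‖ ≤ 4 / 3 * (1 / 4) := by
      apply mul_le_mul h7 (hy.trans h4) (norm_nonneg _) (by norm_num)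
    linarith
  have a1 : ∀ᶠ k in (U : Filter ℕ), 1 / 2 <
      (den l1 l2 ∘ fun k => qq (m k) (Q k) (G1 0) (G2 0) (z k)) k :=
    h6.eventually_const_lt (by linarith)
  have a2 : ∀ᶠ k in (U : Filter ℕ),
      (den l1 l2 ∘ fun k => qq (m k) (Q k) (G1 0) (G2 0) (z k)) k < 2 :=
    h6.eventually_lt_const (by linarith)
  have a3 : ∀ᶠ k in (U : Filter ℕ), ‖qq (m k) (Q k) (G1 0) (G2 0) (z k)‖ < 1 :=
    h1.norm.eventually_lt_const h9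
  filter_upwards [a1, a2, a3] with k k1 k2 k3
  exact ⟨k1.le, k2.le, k3.le⟩

theorem newQ_sub {m : ℕ} (hm : 0 < m) {Q : ℤ × ℤ → ℝ × ℝ} {g1 g2 : ℝ × ℝ} {z z' : ℤ × ℤ}
    (h1 : den l1 l2 (qq m Q g1 g2 z) ≠ 0) (h2 : den l1 l2 (qq m Q g1 g2 z') ≠ 0) :
    newQ m Q g1 g2 l1 l2 z' - newQ m Q g1 g2 l1 l2 z =
      (den l1 l2 (qq m Q g1 g2 z) * den l1 l2 (qq m Q g1 g2 z'))⁻¹ •
      (den l1 l2 (qq m Q g1 g2 z) • inv g1 g2 (Q z' - Q z) +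
        (l1 * (inv g1 g2 (Q z' - Q z)).1 + l2 * (inv g1 g2 (Q z' - Q z)).2) •
          qq m Q g1 g2 z) := by
  have hm' : (m : ℝ) ≠ 0 := by positivity
  have e1 : newQ m Q g1 g2 l1 l2 z' - newQ m Q g1 g2 l1 l2 z =
      (m : ℝ) • (tr l1 l2 (qq m Q g1 g2 z') - tr l1 l2 (qq m Q g1 g2 z)) := by
    rw [smul_sub]; rfl
  have e2 : qq m Q g1 g2 z' - qq m Q g1 g2 z = (m : ℝ)⁻¹ • inv g1 g2 (Q z' - Q z) := by
    rw [qq, qq, ← inv_sub, ← smul_sub, inv_smul]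
    congr 2
    abel
  rw [e1, tr_sub h1 h2, smul_comm, e2]
  congr 1
  rw [smul_add, smul_comm (m : ℝ) (den l1 l2 (qq m Q g1 g2 z)), smul_smul (m : ℝ) (m : ℝ)⁻¹,
    mul_inv_cancel₀ hm', one_smul, smul_smul]
  congr 2
  simp only [Prod.smul_fst, Prod.smul_snd, smul_eq_mul]
  field_simp

theorem near_dir (h : Grids m Q a K κ ε) (hU : (U : Filter ℕ) ≤ atTop)
    (hL : Lim U m Q κ Φ G1 G2) (hρr : ρ < r₂) (hr₂' : r₂ ≤ 1)
    (hρ2 : ρ * (4 * (|l1| + |l2|) + 4) ≤ 1)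
    (hΦ : ∀ u ∈ Metric.ball (0 : ℝ × ℝ) r₂, dn l1 l2 u • Φ u = lin (G1 0) (G2 0) u)
    (e : ℤ × ℤ)
    (hd : ∀ (z : ℕ → ℤ × ℤ) (y : ℝ × ℝ), ‖y‖ < 1 →
      Tendsto (fun k => (m k : ℝ)⁻¹ • vv (z k)) U (𝓝 y) →
      Tendsto (fun k => Q k (z k + e) - Q k (z k)) U (𝓝 (lin (G1 y) (G2 y) (vv e))))
    {δ : ℝ} (hδ : 0 < δ) :
    ∀ᶠ k in (U : Filter ℕ), ∀ z, ‖vv z‖ ≤ ρ * m k →
      ‖newQ (m k) (Q k) (G1 0) (G2 0) l1 l2 (z + e) - newQ (m k) (Q k) (G1 0) (G2 0) l1 l2 z -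
        vv e‖ ≤ δ := by
  have hdet : cr (G1 0) (G2 0) ≠ 0 := by
    have := hL.det 0 (by simp)
    have h0 := h.hκ
    intro h0'
    rw [h0', abs_zero] at this
    linarith
  refine unif (m_pos h hU) ?_
  intro z y hy hz
  obtain ⟨b2, b3, b4⟩ := dn_bounds hρ2 hy
  have hy1 : ‖y‖ < 1 := by linarith
  have hmR : Tendsto (fun k => ((m k : ℝ))⁻¹) U (𝓝 0) := by
    have h1 : Tendsto (fun k => ((m k : ℝ))⁻¹) atTop (𝓝 0) :=
      tendsto_inv_atTop_zero.comp (tendsto_natCast_atTop_atTop.comp h.hm)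
    exact h1.mono_left hU
  have hz' : Tendsto (fun k => (m k : ℝ)⁻¹ • vv (z k + e)) U (𝓝 y) := by
    have h2 : Tendsto (fun k => (m k : ℝ)⁻¹ • vv (z k) + (m k : ℝ)⁻¹ • vv e) U
        (𝓝 (y + (0 : ℝ) • vv e)) := hz.add (hmR.smul_const _)
    rw [zero_smul, add_zero] at h2
    refine h2.congr (fun k => ?_)
    rw [← smul_add]
    congr 1
    ext <;> simp [vv]
  have hq := lim_q hL h.hκ hρr hr₂' hρ2 hΦ z y hy hz
  have hq' := lim_q hL h.hκ hρr hr₂' hρ2 hΦ (fun k => z k + e) y hy hz'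
  have hD : dn l1 l2 y ≠ 0 := by linarith
  have hden := ((den_cont l1 l2).tendsto _).comp hq
  have hden' := ((den_cont l1 l2).tendsto _).comp hq'
  rw [den_lim hD] at hden hden'
  have hh := ((inv_cont (G1 0) (G2 0)).tendsto _).comp (hd z y hy1 hz)
  set D := dn l1 l2 y with hDdef
  set hI := inv (G1 0) (G2 0) (lin (G1 y) (G2 y) (vv e)) with hhi
  have hlim : Tendsto (fun k =>
      (den l1 l2 (qq (m k) (Q k) (G1 0) (G2 0) (z k)) *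
        den l1 l2 (qq (m k) (Q k) (G1 0) (G2 0) (z k + e)))⁻¹ •
      (den l1 l2 (qq (m k) (Q k) (G1 0) (G2 0) (z k)) •
        inv (G1 0) (G2 0) (Q k (z k + e) - Q k (z k)) +
        (l1 * (inv (G1 0) (G2 0) (Q k (z k + e) - Q k (z k))).1 +
          l2 * (inv (G1 0) (G2 0) (Q k (z k + e) - Q k (z k))).2) •
          qq (m k) (Q k) (G1 0) (G2 0) (z k)) - vv e) U
      (𝓝 ((D⁻¹ * D⁻¹)⁻¹ • (D⁻¹ • hI + (l1 * hI.1 + l2 * hI.2) • (D⁻¹ • y)) - vv e)) := by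
    refine Tendsto.sub ?_ tendsto_const_nhds
    refine Tendsto.smul ((hden.mul hden').inv₀ (by positivity)) ?_
    refine Tendsto.add (hden.smul hh) (Tendsto.smul ?_ hq)
    exact ((hh.fst_nhds).const_mul l1).add ((hh.snd_nhds).const_mul l2)
  have hder := der_formula hr₂' hL.der hΦ y (by simp; linarith) (vv e)
  have hzero : (D⁻¹ * D⁻¹)⁻¹ • (D⁻¹ • hI + (l1 * hI.1 + l2 * hI.2) • (D⁻¹ • y)) - vv e = 0 := by
    have hΦy : Φ y = D⁻¹ • lin (G1 0) (G2 0) y := by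
      rw [← hΦ y (by simp; linarith), smul_smul, inv_mul_cancel₀ hD, one_smul]
    have e1 : D • hI + (l1 * (vv e).1 + l2 * (vv e).2) • (D⁻¹ • y) = vv e := by
      have h3 := congrArg (inv (G1 0) (G2 0)) hder
      rw [inv_lin hdet] at h3
      have h4 : inv (G1 0) (G2 0) (D • lin (G1 y) (G2 y) (vv e) +
          (l1 * (vv e).1 + l2 * (vv e).2) • Φ y) = D • hI +
          (l1 * (vv e).1 + l2 * (vv e).2) • (D⁻¹ • y) := by
        have h5 : ∀ p q : ℝ × ℝ, inv (G1 0) (G2 0) (p + q) =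
            inv (G1 0) (G2 0) p + inv (G1 0) (G2 0) q := by
          intro p q
          ext <;> simp only [inv, cr, Prod.fst_add, Prod.snd_add] <;> ring
        rw [h5, inv_smul, inv_smul, hΦy, inv_smul, inv_lin hdet]
      rw [h4] at h3
      exact h3
    have e2 : hI = D⁻¹ • (vv e - (l1 * (vv e).1 + l2 * (vv e).2) • (D⁻¹ • y)) := by
      rw [← eq_sub_of_add_eq e1, smul_smul, inv_mul_cancel₀ hD, one_smul]
    have e3 : D = 1 + l1 * y.1 + l2 * y.2 := rfl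
    rw [e2]
    ext
    · simp only [Prod.fst_sub, Prod.smul_fst, Prod.fst_add, smul_eq_mul, Prod.smul_snd,
        Prod.snd_sub, Prod.fst_zero]
      field_simp
      rw [e3]
      ring
    · simp only [Prod.fst_sub, Prod.smul_fst, Prod.snd_add, smul_eq_mul, Prod.smul_snd,
        Prod.snd_sub, Prod.snd_zero]
      field_simp
      rw [e3]
      ring
  rw [hzero] at hlim
  have hn := hlim.norm
  rw [norm_zero] at hn
  have b1 : ∀ᶠ k in (U : Filter ℕ), 0 <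
      (den l1 l2 ∘ fun k => qq (m k) (Q k) (G1 0) (G2 0) (z k)) k :=
    hden.eventually_const_lt (by positivity)
  have b1' : ∀ᶠ k in (U : Filter ℕ), 0 <
      (den l1 l2 ∘ fun k => qq (m k) (Q k) (G1 0) (G2 0) (z k + e)) k :=
    hden'.eventually_const_lt (by positivity)
  filter_upwards [hn.eventually_lt_const hδ, b1, b1', m_pos h hU] with k k1 k2 k3 k4
  rw [newQ_sub k4 (ne_of_gt k2) (ne_of_gt k3)]
  exact k1.le

end

theorem norm_newQ_sub_le {m : ℕ} (hm : 0 < m) {Q : ℤ × ℤ → ℝ × ℝ} {g1 g2 : ℝ × ℝ} {l1 l2 : ℝ}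
    {z z' : ℤ × ℤ} (h1 : 1 / 2 ≤ den l1 l2 (qq m Q g1 g2 z))
    (h1' : den l1 l2 (qq m Q g1 g2 z) ≤ 2) (h2 : 1 / 2 ≤ den l1 l2 (qq m Q g1 g2 z'))
    (h3 : ‖qq m Q g1 g2 z‖ ≤ 1) :
    ‖newQ m Q g1 g2 l1 l2 z' - newQ m Q g1 g2 l1 l2 z‖ ≤
      4 * (2 + (|l1| + |l2|)) * (2 * (‖g1‖ + ‖g2‖) / |cr g1 g2|) * ‖Q z' - Q z‖ := by
  rw [newQ_sub hm (by linarith) (by linarith), norm_smul]
  have h4 := norm_inv_le g1 g2 (Q z' - Q z)
  set d := den l1 l2 (qq m Q g1 g2 z)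
  set d' := den l1 l2 (qq m Q g1 g2 z')
  set w := inv g1 g2 (Q z' - Q z)
  set B := 2 * (‖g1‖ + ‖g2‖) / |cr g1 g2|
  have h5 : ‖(d * d')⁻¹‖ ≤ 4 := by
    rw [norm_inv, Real.norm_eq_abs, abs_of_pos (by positivity)]
    rw [inv_le_comm₀ (by positivity) (by norm_num)]
    nlinarith
  have h6 : ‖d • w‖ ≤ 2 * ‖w‖ := by
    rw [norm_smul, Real.norm_eq_abs, abs_of_pos (by linarith)]
    exact mul_le_mul_of_nonneg_right h1' (norm_nonneg _)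
  have h7 : |l1 * w.1 + l2 * w.2| ≤ (|l1| + |l2|) * ‖w‖ := by
    refine (abs_add_le _ _).trans ?_
    rw [abs_mul, abs_mul, add_mul]
    exact add_le_add (mul_le_mul_of_nonneg_left (norm_fst_le w) (abs_nonneg _))
      (mul_le_mul_of_nonneg_left (norm_snd_le w) (abs_nonneg _))
  have h8 : ‖(l1 * w.1 + l2 * w.2) • qq m Q g1 g2 z‖ ≤ (|l1| + |l2|) * ‖w‖ := by
    rw [norm_smul, Real.norm_eq_abs]
    calc _ ≤ (|l1| + |l2|) * ‖w‖ * 1 :=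
          mul_le_mul h7 h3 (norm_nonneg _) (by positivity)
      _ = _ := mul_one _
  calc ‖(d * d')⁻¹‖ * ‖d • w + (l1 * w.1 + l2 * w.2) • qq m Q g1 g2 z‖
      ≤ 4 * (2 * ‖w‖ + (|l1| + |l2|) * ‖w‖) :=
        mul_le_mul h5 ((norm_add_le _ _).trans (add_le_add h6 h8)) (norm_nonneg _) (by norm_num)
    _ = 4 * (2 + (|l1| + |l2|)) * ‖w‖ := by ring
    _ ≤ 4 * (2 + (|l1| + |l2|)) * (B * ‖Q z' - Q z‖) :=
        mul_le_mul_of_nonneg_left h4 (by positivity)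
    _ = _ := by ring

theorem cr_newQ {m : ℕ} (hm : 0 < m) {Q : ℤ × ℤ → ℝ × ℝ} {g1 g2 : ℝ × ℝ} {l1 l2 : ℝ}
    (hg : cr g1 g2 ≠ 0) {x y z : ℤ × ℤ} (h1 : den l1 l2 (qq m Q g1 g2 x) ≠ 0)
    (h2 : den l1 l2 (qq m Q g1 g2 y) ≠ 0) (h3 : den l1 l2 (qq m Q g1 g2 z) ≠ 0) :
    cr (newQ m Q g1 g2 l1 l2 y - newQ m Q g1 g2 l1 l2 x)
      (newQ m Q g1 g2 l1 l2 z - newQ m Q g1 g2 l1 l2 x) =
      cr (Q y - Q x) (Q z - Q x) / (cr g1 g2 * (den l1 l2 (qq m Q g1 g2 x) *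
        den l1 l2 (qq m Q g1 g2 y) * den l1 l2 (qq m Q g1 g2 z))) := by
  have hm' : (m : ℝ) ≠ 0 := by positivity
  have e1 : ∀ z', newQ m Q g1 g2 l1 l2 z' - newQ m Q g1 g2 l1 l2 x =
      (m : ℝ) • (tr l1 l2 (qq m Q g1 g2 z') - tr l1 l2 (qq m Q g1 g2 x)) := by
    intro z'
    rw [smul_sub]; rfl
  have e2 : ∀ z', qq m Q g1 g2 z' - qq m Q g1 g2 x = (m : ℝ)⁻¹ • inv g1 g2 (Q z' - Q x) := by
    intro z'
    rw [qq, qq, ← inv_sub, ← smul_sub, inv_smul]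
    congr 2
    abel
  have e3 : ∀ (c : ℝ) (p q : ℝ × ℝ), cr (c • p) (c • q) = c ^ 2 * cr p q := by
    intro c p q
    simp only [cr, Prod.smul_fst, Prod.smul_snd, smul_eq_mul]; ring
  rw [e1, e1, e3, cr_tr h1 h2 h3, e2, e2, e3, cr_inv hg]
  field_simp

theorem transfer {m : ℕ → ℕ} {Q : ℕ → ℤ × ℤ → ℝ × ℝ} {a : ℕ → ℝ} {K κ ε : ℝ}
    (h : Grids m Q a K κ ε) {U : Ultrafilter ℕ} (hU : (U : Filter ℕ) ≤ atTop)
    {Φ G1 G2 : ℝ × ℝ → ℝ × ℝ} (hL : Lim U m Q κ Φ G1 G2) {l1 l2 r₂ : ℝ} (hr₂ : 0 < r₂)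
    (hr₂' : r₂ ≤ 1)
    (hΦ : ∀ u ∈ Metric.ball (0 : ℝ × ℝ) r₂,
      (1 + l1 * u.1 + l2 * u.2) • Φ u = lin (G1 0) (G2 0) u) :
    ∃ ρ c : ℝ, 0 < ρ ∧ 0 < c ∧ ∀ δ > 0, ∀ᶠ k in (U : Filter ℕ), ∃ Q' : ℤ × ℤ → ℝ × ℝ,
      Near ⌊ρ * m k⌋ δ Q' ∧ Wide ⌊ρ * m k⌋ (c * a k) Q' := by
  have hdet : cr (G1 0) (G2 0) ≠ 0 := by
    have := hL.det 0 (by simp)
    have h0 := h.hκ
    intro h0'
    rw [h0', abs_zero] at this
    linarith
  set ρ : ℝ := min (r₂ / 2) (1 / (4 * (|l1| + |l2|) + 4)) with hρdef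
  have hLp : 0 < 4 * (|l1| + |l2|) + 4 := by positivity
  have hρ0 : 0 < ρ := lt_min (by linarith) (by positivity)
  have hρr : ρ < r₂ := lt_of_le_of_lt (min_le_left _ _) (by linarith)
  have hρ2 : ρ * (4 * (|l1| + |l2|) + 4) ≤ 1 := by
    have h1 : ρ ≤ 1 / (4 * (|l1| + |l2|) + 4) := min_le_right _ _
    rwa [le_div_iff₀ hLp] at h1
  have hρ1 : ρ ≤ 1 := by linarith
  have hΦ' : ∀ u ∈ Metric.ball (0 : ℝ × ℝ) r₂, dn l1 l2 u • Φ u = lin (G1 0) (G2 0) u := hΦ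
  set B : ℝ := 4 * (2 + (|l1| + |l2|)) * (2 * (‖G1 0‖ + ‖G2 0‖) / |cr (G1 0) (G2 0)|) with hB
  have hG : 0 < ‖G1 0‖ := by
    rw [norm_pos_iff]
    intro h0
    apply hdet
    rw [h0]
    simp [cr]
  have hdet' : 0 < |cr (G1 0) (G2 0)| := abs_pos.2 hdet
  have hB0 : 0 < B := by positivity
  refine ⟨ρ, 1 / (8 * |cr (G1 0) (G2 0)| * B ^ 2), hρ0, by positivity, ?_⟩
  intro δ hδ
  have n1 := near_dir h hU hL hρr hr₂' hρ2 hΦ' (1, 0) (by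
    intro z y hy hz
    have := hL.d1 z y hy hz
    have e1 : lin (G1 y) (G2 y) (vv (1, 0)) = G1 y := by
      rw [lin_apply]; simp [vv]
    rw [e1]; exact this) hδ
  have n2 := near_dir h hU hL hρr hr₂' hρ2 hΦ' (0, 1) (by
    intro z y hy hz
    have := hL.d2 z y hy hz
    have e1 : lin (G1 y) (G2 y) (vv (0, 1)) = G2 y := by
      rw [lin_apply]; simp [vv]
    rw [e1]; exact this) hδ
  have n3 := unif_q h hU hL hρr hr₂' hρ2 hΦ'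
  filter_upwards [n1, n2, n3, m_pos h hU] with k k1 k2 k3 k4
  have hbox : ∀ z, box ⌊ρ * m k⌋ z → ‖vv z‖ ≤ ρ * m k := by
    intro z hz
    have h1 : ((⌊ρ * m k⌋ : ℤ) : ℝ) ≤ ρ * m k := Int.floor_le _
    have h2 : |(z.1 : ℝ)| ≤ ((⌊ρ * m k⌋ : ℤ) : ℝ) := by exact_mod_cast hz.1
    have h3 : |(z.2 : ℝ)| ≤ ((⌊ρ * m k⌋ : ℤ) : ℝ) := by exact_mod_cast hz.2
    rw [Prod.norm_def]
    simp only [vv, Real.norm_eq_abs]
    exact max_le (h2.trans h1) (h3.trans h1)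
  have hmk : (0 : ℝ) < m k := by exact_mod_cast k4
  have hbox2 : ∀ z, box ⌊ρ * m k⌋ z → box (m k) z := by
    intro z hz
    have h1 : ⌊ρ * m k⌋ ≤ (m k : ℤ) := by
      rw [← Int.cast_le (R := ℝ)]
      refine (Int.floor_le _).trans ?_
      have : ρ * (m k : ℝ) ≤ 1 * m k := mul_le_mul_of_nonneg_right hρ1 hmk.le
      push_cast
      linarith
    exact ⟨hz.1.trans h1, hz.2.trans h1⟩
  refine ⟨newQ (m k) (Q k) (G1 0) (G2 0) l1 l2, ?_, ?_⟩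
  · intro z hz
    refine ⟨fun _ => ?_, fun _ => ?_⟩
    · have := k1 z (hbox z hz)
      simpa [vv] using this
    · have := k2 z (hbox z hz)
      simpa [vv] using this
  · intro x y z hx hy hz hxy hxz hyz
    have w := h.wide k x y z (hbox2 x hx) (hbox2 y hy) (hbox2 z hz) hxy hxz hyz
    obtain ⟨x1, x2, x3⟩ := k3 x (hbox x hx)
    obtain ⟨y1, y2, y3⟩ := k3 y (hbox y hy)
    obtain ⟨z1, z2, z3⟩ := k3 z (hbox z hz)
    rw [cr_newQ k4 hdet (by linarith) (by linarith) (by linarith)]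
    have b1 := norm_newQ_sub_le (l1 := l1) (l2 := l2) k4 x1 x2 y1 x3
    have b2 := norm_newQ_sub_le (l1 := l1) (l2 := l2) k4 x1 x2 z1 x3
    rw [← hB] at b1 b2
    have ha : 0 ≤ a k := by
      have h1 := h.large k
      have h2 := h.hε
      by_contra hc
      push Not at hc
      have : a k * (m k : ℝ) ^ 2 ≤ 0 := mul_nonpos_of_nonpos_of_nonneg hc.le (by positivity)
      linarith
    set dx := den l1 l2 (qq (m k) (Q k) (G1 0) (G2 0) x)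
    set dy := den l1 l2 (qq (m k) (Q k) (G1 0) (G2 0) y)
    set dz := den l1 l2 (qq (m k) (Q k) (G1 0) (G2 0) z)
    set X := ‖Q k y - Q k x‖
    set Z := ‖Q k z - Q k x‖
    set X' := ‖newQ (m k) (Q k) (G1 0) (G2 0) l1 l2 y - newQ (m k) (Q k) (G1 0) (G2 0) l1 l2 x‖
    set Z' := ‖newQ (m k) (Q k) (G1 0) (G2 0) l1 l2 z - newQ (m k) (Q k) (G1 0) (G2 0) l1 l2 x‖
    set W := |cr (Q k y - Q k x) (Q k z - Q k x)|
    have hX' : 0 ≤ X' := norm_nonneg _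
    have hZ' : 0 ≤ Z' := norm_nonneg _
    have hX : 0 ≤ X := norm_nonneg _
    have hZ : 0 ≤ Z := norm_nonneg _
    rw [abs_div, abs_mul]
    have hd : |dx * dy * dz| ≤ 8 := by
      rw [abs_of_pos (by positivity)]
      calc dx * dy * dz ≤ 2 * 2 * 2 := by gcongr
        _ = 8 := by norm_num
    have hd0 : 0 < |dx * dy * dz| := by
      rw [abs_of_pos (by positivity)]; positivity
    have g1 : a k * (X' * Z') ≤ B ^ 2 * W := by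
      calc a k * (X' * Z') ≤ a k * ((B * X) * (B * Z)) := by gcongr
        _ = B ^ 2 * (a k * X * Z) := by ring
        _ ≤ B ^ 2 * W := by gcongr
    have g2 : W / (8 * |cr (G1 0) (G2 0)|) ≤ W / (|cr (G1 0) (G2 0)| * |dx * dy * dz|) := by
      apply div_le_div_of_nonneg_left (abs_nonneg _) (by positivity)
      rw [mul_comm]
      gcongr
    refine le_trans ?_ g2
    calc 1 / (8 * |cr (G1 0) (G2 0)| * B ^ 2) * a k * X' * Z' =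
        (a k * (X' * Z')) / (8 * |cr (G1 0) (G2 0)| * B ^ 2) := by ring
      _ ≤ (B ^ 2 * W) / (8 * |cr (G1 0) (G2 0)| * B ^ 2) := by gcongr
      _ = W / (8 * |cr (G1 0) (G2 0)|) := by field_simp

end Pool.Agent.C1Grid
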