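import Pool.Agent.C1Grid.Limit
import Pool.Agent.C1Grid.Kron
import Pool.Agent.C1Grid.Tangent
import Pool.Agent.C1Grid.Pencil
import Pool.Agent.C1Grid.Transfer

/-!
# No sequence of equicontinuous grids has large angles
-/

set_option autoImplicit false

namespace Pool.Agent.C1Grid

open Pool.Agent.GridLat Filter Topology

/-- The arithmetic at the end: `main` for `N` large and `M` of the size of `ρ m / (420 N)`. -/
theorem num20 {C ρ c ε : ℝ} (hC : 1 ≤ C) (hρ : 0 < ρ) (hc : 0 < c) (hε : 0 < ε) :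
    ∃ N : ℕ, 1 ≤ N ∧ ∃ m₀ : ℕ, ∀ m : ℕ, m₀ ≤ m → ∃ M : ℕ, N ≤ M ∧
      420 * (M * N : ℤ) ≤ ⌊ρ * m⌋ ∧ C * (m : ℝ) ^ 2 / (N * (M * N : ℝ) ^ 2) < c * ε := by
  obtain ⟨N, hN⟩ := exists_nat_gt (C * 840 ^ 2 / (ρ ^ 2 * (c * ε)))
  have hpos : 0 < C * 840 ^ 2 / (ρ ^ 2 * (c * ε)) := by positivity
  have hN0 : (0 : ℝ) < N := hpos.trans hN
  have hN1 : 1 ≤ N := by exact_mod_cast hN0
  have hN1r : (1 : ℝ) ≤ N := by exact_mod_cast hN1
  obtain ⟨m₀, hm₀⟩ := exists_nat_gt ((840 * (N : ℝ) ^ 2 + 840 * N + 840) / ρ)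
  refine ⟨N, hN1, m₀, fun m hm => ?_⟩
  have hmr : (m₀ : ℝ) ≤ m := by exact_mod_cast hm
  have h1 : 840 * (N : ℝ) ^ 2 + 840 * N + 840 < ρ * m := by
    have h2 : (840 * (N : ℝ) ^ 2 + 840 * N + 840) / ρ < m := hm₀.trans_le hmr
    rw [div_lt_iff₀ hρ] at h2
    linarith
  set x : ℝ := ρ * m with hx
  set M : ℕ := ⌊x / (420 * N)⌋₊ with hM
  have hden : (0 : ℝ) < 420 * N := by positivity
  have hx0 : 0 ≤ x / (420 * N) := by
    apply div_nonneg _ hden.le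
    nlinarith [sq_nonneg (N : ℝ)]
  have hMle : (M : ℝ) ≤ x / (420 * N) := Nat.floor_le hx0
  have hMlt : x / (420 * N) < M + 1 := Nat.lt_floor_add_one _
  have hMle' : 420 * ((M : ℝ) * N) ≤ x := by
    rw [le_div_iff₀ hden] at hMle
    linarith
  have hMlt' : x < 420 * ((M : ℝ) * N) + 420 * N := by
    rw [div_lt_iff₀ hden] at hMlt
    linarith
  have hMN : x / 840 ≤ (M : ℝ) * N := by
    have : 840 * (N : ℝ) ≤ x := by nlinarith [sq_nonneg (N : ℝ)]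
    linarith
  have hNM : N ≤ M := by
    have h3 : (N : ℝ) ≤ x / (420 * N) := by
      rw [le_div_iff₀ hden]
      nlinarith
    exact Nat.le_floor h3
  refine ⟨M, hNM, ?_, ?_⟩
  · rw [Int.le_floor]
    push_cast
    linarith
  · have hx1 : 0 < x := by nlinarith [sq_nonneg (N : ℝ)]
    have hm0 : (0 : ℝ) < m := by
      rcases (Nat.cast_nonneg m : (0 : ℝ) ≤ (m : ℝ)).eq_or_lt with h | h
      · rw [hx, ← h, mul_zero] at hx1
        exact absurd hx1 (lt_irrefl _)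
      · exact h
    have hMN2 : (x / 840) ^ 2 ≤ ((M : ℝ) * N) ^ 2 := by
      apply pow_le_pow_left₀ (by positivity) hMN
    have h4 : 0 < (N : ℝ) * (x / 840) ^ 2 := by positivity
    have h5 : (N : ℝ) * (x / 840) ^ 2 ≤ N * ((M : ℝ) * N) ^ 2 := by gcongr
    calc C * (m : ℝ) ^ 2 / (N * ((M : ℝ) * N) ^ 2) ≤ C * (m : ℝ) ^ 2 / (N * (x / 840) ^ 2) := by
          gcongr
      _ = C * 840 ^ 2 / ρ ^ 2 / N := by
          rw [hx]
          field_simp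
      _ < c * ε := by
          rw [div_lt_iff₀ hN0]
          rw [div_lt_iff₀ (by positivity)] at hN
          rw [div_lt_iff₀ (by positivity)]
          linarith

theorem no_grids {m : ℕ → ℕ} {Q : ℕ → ℤ × ℤ → ℝ × ℝ} {a : ℕ → ℝ} {K κ ε : ℝ}
    (h : Grids m Q a K κ ε) : False := by
  have hU : ((hyperfilter ℕ : Ultrafilter ℕ) : Filter ℕ) ≤ atTop := by
    rw [← Nat.cofinite_eq_atTop]
    exact hyperfilter_le_cofinite
  obtain ⟨Φ, G1, G2, hL⟩ := exists_lim h (hyperfilter ℕ) hU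
  have hκ := h.hκ
  have hdet : ∀ y ∈ Metric.ball (0 : ℝ × ℝ) 1, cr (G1 y) (G2 y) ≠ 0 := fun y hy h0 => by
    have := hL.det y hy
    rw [h0, abs_zero] at this
    linarith
  obtain ⟨r₁, hr₁, hr₁', htan⟩ := tangent one_pos hL.der hL.cont1 hL.cont2
    (hdet 0 (Metric.mem_ball_self one_pos)) (fun x hx y hy v hv hxy hΦ h0 hγ =>
      kron h hU hL v (perp v) hv x y (by simpa using hx) (by simpa using hy) hxy hΦ h0 hγ)
  have hsub : Metric.ball (0 : ℝ × ℝ) r₁ ⊆ Metric.ball 0 1 := Metric.ball_subset_ball hr₁'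
  have hdirs := all_dirs (Φ := Φ) (G1 := G1) (G2 := G2) (r₁ := r₁)
    (fun y hy => (hL.der y (hsub hy)).continuousAt.continuousWithinAt) htan
  have hvv : (vv (0 : ℤ × ℤ) : ℝ × ℝ) = 0 := by simp [vv]
  have hΦ0 : Φ 0 = 0 := by
    have h1 := hL.pos (fun _ => 0) 0 (by simp) (by simp [hvv])
    simp only [sub_self, smul_zero] at h1
    exact (tendsto_nhds_unique h1 tendsto_const_nhds)
  obtain ⟨l1, l2, r₂, hr₂, hr₂', hproj⟩ := pencils hr₁ hΦ0 (fun y hy => hL.der y (hsub hy))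
    (fun y hy => hdet y (hsub hy)) hdirs
  obtain ⟨ρ, c, hρ, hc, htr⟩ := transfer h hU hL hr₂ (hr₂'.trans hr₁') hproj
  obtain ⟨C, hC, hmain⟩ := main
  obtain ⟨N, hN1, m₀, hnum⟩ := num20 (C := C) (ρ := ρ) (c := c) (ε := ε) hC hρ hc h.hε
  have hN0 : (0 : ℝ) < N := by exact_mod_cast hN1
  have hδ : 0 < 1 / (C * (N : ℝ) ^ 3) := by positivity
  have hlarge : ∀ᶠ k in (hyperfilter ℕ : Filter ℕ), m₀ ≤ m k :=
    hU (h.hm.eventually (eventually_ge_atTop m₀))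
  obtain ⟨k, ⟨Q', hn, hw⟩, hmk⟩ := ((htr _ hδ).and hlarge).exists
  obtain ⟨M, hNM, h420, hlt⟩ := hnum (m k) hmk
  have hak : 0 < a k := by
    by_contra hcon
    have h1 := h.large k
    have h2 : a k * (m k : ℝ) ^ 2 ≤ 0 := mul_nonpos_of_nonpos_of_nonneg (not_lt.1 hcon) (sq_nonneg _)
    have h3 := h.hε
    linarith
  have h4 := hmain ⌊ρ * m k⌋ (1 / (C * (N : ℝ) ^ 3)) (c * a k) Q' N M hn hw hδ.le (by positivity)
    hN1 hNM (by
      have : C * (1 / (C * (N : ℝ) ^ 3)) * (N : ℝ) ^ 3 = 1 := by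
        field_simp
      rw [this]) h420
  have h5 := h.large k
  have h6 : c * ε ≤ c * a k * (m k : ℝ) ^ 2 := by
    rw [mul_assoc]
    exact mul_le_mul_of_nonneg_left h5 hc.le
  have h7 : c * a k * (m k : ℝ) ^ 2 ≤ C / (N * (M * N : ℝ) ^ 2) * (m k : ℝ) ^ 2 :=
    mul_le_mul_of_nonneg_right h4 (sq_nonneg _)
  have h8 : C / (N * (M * N : ℝ) ^ 2) * (m k : ℝ) ^ 2 = C * (m k : ℝ) ^ 2 / (N * (M * N : ℝ) ^ 2) := by
    ring
  rw [h8] at h7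
  linarith

theorem c1_pure (ρ : ℝ → ℝ) (hρ : ∀ η, 0 < η → 0 < ρ η) {K κ ε : ℝ} (hκ : 0 < κ) (hε : 0 < ε) :
    ∃ δ : ℝ, 0 < δ ∧ ∃ m₀ : ℕ, ∀ m : ℕ, m₀ ≤ m → ∀ (Q : ℤ × ℤ → ℝ × ℝ) (a : ℝ),
      (∀ e : ℤ × ℤ, e = (1, 0) ∨ e = (0, 1) → ∀ z, box m z → box m (z + e) →
        ‖Q (z + e) - Q z‖ ≤ K) →
      (∀ z, box m z → box m (z + (1, 0)) → box m (z + (0, 1)) →
        κ ≤ |cr (Q (z + (1, 0)) - Q z) (Q (z + (0, 1)) - Q z)|) →
      (∀ e : ℤ × ℤ, e = (1, 0) ∨ e = (0, 1) → ∀ η, δ ≤ η → ∀ z z', box m z → box m (z + e) →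
        box m z' → box m (z' + e) → ‖vv (z' - z)‖ ≤ ρ η * m →
        ‖(Q (z' + e) - Q z') - (Q (z + e) - Q z)‖ ≤ η) →
      Wide m a Q → a * (m : ℝ) ^ 2 ≤ ε := by
  by_contra hcon
  have key : ∀ k : ℕ, ∃ (m : ℕ) (Q : ℤ × ℤ → ℝ × ℝ) (a : ℝ), k ≤ m ∧
      (∀ e : ℤ × ℤ, e = (1, 0) ∨ e = (0, 1) → ∀ z, box m z → box m (z + e) →
        ‖Q (z + e) - Q z‖ ≤ K) ∧
      (∀ z, box m z → box m (z + (1, 0)) → box m (z + (0, 1)) →
        κ ≤ |cr (Q (z + (1, 0)) - Q z) (Q (z + (0, 1)) - Q z)|) ∧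
      (∀ e : ℤ × ℤ, e = (1, 0) ∨ e = (0, 1) → ∀ η, 1 / ((k : ℝ) + 1) ≤ η → ∀ z z', box m z →
        box m (z + e) → box m z' → box m (z' + e) → ‖vv (z' - z)‖ ≤ ρ η * m →
        ‖(Q (z' + e) - Q z') - (Q (z + e) - Q z)‖ ≤ η) ∧
      Wide m a Q ∧ ε < a * (m : ℝ) ^ 2 := by
    intro k
    by_contra hk
    apply hcon
    refine ⟨1 / ((k : ℝ) + 1), by positivity, k, fun m hm Q a h1 h2 h3 h4 => ?_⟩
    by_contra h5
    exact hk ⟨m, Q, a, hm, h1, h2, h3, h4, not_le.1 h5⟩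
  choose m Q a hm h1 h2 h3 h4 h5 using key
  have hsmall : ∀ η : ℝ, 0 < η → ∀ᶠ k : ℕ in atTop, 1 / ((k : ℝ) + 1) ≤ η := by
    intro η hη
    have ht : Tendsto (fun k : ℕ => 1 / ((k : ℝ) + 1)) atTop (𝓝 0) :=
      tendsto_one_div_add_atTop_nhds_zero_nat
    exact (ht.eventually (eventually_lt_nhds hη)).mono fun k hk => hk.le
  apply no_grids (m := m) (Q := Q) (a := a) (K := K) (κ := κ) (ε := ε)
  exact
    { hm := tendsto_atTop_mono hm tendsto_id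
      hκ := hκ
      hε := hε
      bd1 := fun k z hz hz' => h1 k (1, 0) (Or.inl rfl) z hz hz'
      bd2 := fun k z hz hz' => h1 k (0, 1) (Or.inr rfl) z hz hz'
      det := h2
      ec1 := fun η hη => ⟨ρ η, hρ η hη, (hsmall η hη).mono fun k hk z z' b1 b2 b3 b4 b5 =>
        h3 k (1, 0) (Or.inl rfl) η hk z z' b1 b2 b3 b4 b5⟩
      ec2 := fun η hη => ⟨ρ η, hρ η hη, (hsmall η hη).mono fun k hk z z' b1 b2 b3 b4 b5 =>
        h3 k (0, 1) (Or.inr rfl) η hk z z' b1 b2 b3 b4 b5⟩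
      wide := h4
      large := fun k => (h5 k).le }

end Pool.Agent.C1Grid
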