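import Pool.Agent.C1Grid.Defs

/-!
# The limit of a sequence of grids with equicontinuous difference fields
-/

set_option autoImplicit false

namespace Pool.Agent.C1Grid

open Pool.Agent.GridLat Filter Topology

namespace LimitAux

theorem vv_add (z u : ℤ × ℤ) : vv (z + u) = vv z + vv u := by
  ext <;> simp [vv]

theorem vv_sub (z u : ℤ × ℤ) : vv (z - u) = vv z - vv u := by
  ext <;> simp [vv]

theorem norm_vv_le_iff {u : ℤ × ℤ} {r : ℝ} : ‖vv u‖ ≤ r ↔ |(u.1 : ℝ)| ≤ r ∧ |(u.2 : ℝ)| ≤ r := by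
  rw [vv, Prod.norm_def, max_le_iff, Real.norm_eq_abs, Real.norm_eq_abs]

/-- A path of steps in one direction. -/
theorem path1 {P : ℤ × ℤ → ℝ × ℝ} {A : ℝ × ℝ} {η : ℝ} {e : ℤ × ℤ} (n : ℕ) :
    ∀ z : ℤ × ℤ, (∀ i : ℕ, i < n → ‖P (z + (i : ℤ) • e + e) - P (z + (i : ℤ) • e) - A‖ ≤ η) →
      ‖P (z + (n : ℤ) • e) - P z - (n : ℝ) • A‖ ≤ η * n := by
  induction n with
  | zero => intro z _; simp
  | succ n ih =>
    intro z h
    have h1 := ih z (fun i hi => h i (by omega))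
    have h2 := h n (by omega)
    have e1 : z + ((n + 1 : ℕ) : ℤ) • e = z + (n : ℤ) • e + e := by
      push_cast
      rw [add_smul, one_smul, add_assoc]
    rw [e1]
    have e2 : P (z + (n : ℤ) • e + e) - P z - ((n + 1 : ℕ) : ℝ) • A =
        (P (z + (n : ℤ) • e + e) - P (z + (n : ℤ) • e) - A) +
        (P (z + (n : ℤ) • e) - P z - (n : ℝ) • A) := by
      push_cast
      rw [add_smul, one_smul]
      abel
    rw [e2]
    refine le_trans (norm_add_le _ _) ?_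
    push_cast
    linarith

/-- A path of steps in one direction, both signs. -/
theorem path1' {P : ℤ × ℤ → ℝ × ℝ} {A : ℝ × ℝ} {η : ℝ} {e : ℤ × ℤ} (k : ℤ) (z : ℤ × ℤ)
    (h : ∀ i : ℤ, |i| ≤ |k| → |i + 1| ≤ |k| → ‖P (z + i • e + e) - P (z + i • e) - A‖ ≤ η) :
    ‖P (z + k • e) - P z - (k : ℝ) • A‖ ≤ η * |(k : ℝ)| := by
  rcases le_total 0 k with hk | hk
  · obtain ⟨n, rfl⟩ := Int.eq_ofNat_of_zero_le hk
    have := path1 (P := P) (A := A) (η := η) (e := e) n z (fun i hi => h i (by simpa using hi.le)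
      (by rw [abs_of_nonneg (by positivity), abs_of_nonneg (by positivity)]; omega))
    simpa using this
  · obtain ⟨n, hn⟩ := Int.eq_ofNat_of_zero_le (neg_nonneg.2 hk)
    have hk' : k = -(n : ℤ) := by omega
    subst hk'
    have h1 := path1 (P := P) (A := A) (η := η) (e := e) n (z + (-(n : ℤ)) • e) (fun i hi => by
      have e3 : z + -(n : ℤ) • e + (i : ℤ) • e = z + (-(n : ℤ) + i) • e := by
        rw [add_smul, add_assoc]
      rw [e3]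
      refine h _ ?_ ?_
      · rw [abs_neg, Nat.abs_cast, abs_le]; constructor <;> omega
      · rw [abs_neg, Nat.abs_cast, abs_le]; constructor <;> omega)
    have e1 : z + -(n : ℤ) • e + (n : ℤ) • e = z := by
      rw [add_assoc, ← add_smul]; simp
    rw [e1] at h1
    have e2 : P (z + (-(n : ℤ)) • e) - P z - ((-(n : ℤ) : ℤ) : ℝ) • A =
        -(P z - P (z + (-(n : ℤ)) • e) - (n : ℝ) • A) := by
      have e4 : ((-(n : ℤ) : ℤ) : ℝ) • A = -((n : ℝ) • A) := by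
        push_cast
        rw [neg_smul]
      rw [e4]
      abel
    rw [e2, norm_neg]
    simpa using h1

/-- A path of steps in two directions. -/
theorem path2 {P : ℤ × ℤ → ℝ × ℝ} {A B : ℝ × ℝ} {η : ℝ} (z u : ℤ × ℤ)
    (h1 : ∀ w : ℤ × ℤ, |w.1 - z.1| ≤ |u.1| → |w.2 - z.2| ≤ |u.2| →
      ‖P (w + (1, 0)) - P w - A‖ ≤ η)
    (h2 : ∀ w : ℤ × ℤ, |w.1 - z.1| ≤ |u.1| → |w.2 - z.2| ≤ |u.2| →
      ‖P (w + (0, 1)) - P w - B‖ ≤ η) :
    ‖P (z + u) - P z - ((u.1 : ℝ) • A + (u.2 : ℝ) • B)‖ ≤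
      η * (|(u.1 : ℝ)| + |(u.2 : ℝ)|) := by
  have g1 := path1' (P := P) (A := A) (η := η) (e := (1, 0)) u.1 z (fun i hi _ => h1 _
    (by simpa using hi) (by simp))
  have g2 := path1' (P := P) (A := B) (η := η) (e := (0, 1)) u.2 (z + u.1 • (1, 0))
    (fun i hi _ => h2 _ (by simp) (by simpa using hi))
  have e1 : z + u.1 • ((1 : ℤ), (0 : ℤ)) + u.2 • ((0 : ℤ), (1 : ℤ)) = z + u := by
    ext <;> simp
  rw [e1] at g2
  have e2 : P (z + u) - P z - ((u.1 : ℝ) • A + (u.2 : ℝ) • B) =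
      (P (z + u) - P (z + u.1 • ((1 : ℤ), (0 : ℤ))) - (u.2 : ℝ) • B) +
      (P (z + u.1 • ((1 : ℤ), (0 : ℤ))) - P z - (u.1 : ℝ) • A) := by
    abel
  rw [e2]
  refine le_trans (norm_add_le _ _) ?_
  linarith

theorem path3 {P : ℤ × ℤ → ℝ × ℝ} {A B : ℝ × ℝ} {η s : ℝ} (hη : 0 ≤ η) (hs : 0 ≤ s)
    (z u : ℤ × ℤ) (h1 : ∀ w : ℤ × ℤ, ‖vv (w - z)‖ ≤ ‖vv u‖ → ‖P (w + (1, 0)) - P w - A‖ ≤ η)
    (h2 : ∀ w : ℤ × ℤ, ‖vv (w - z)‖ ≤ ‖vv u‖ → ‖P (w + (0, 1)) - P w - B‖ ≤ η) :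
    ‖s • (P (z + u) - P z) - lin A B (s • vv u)‖ ≤ 2 * η * ‖s • vv u‖ := by
  have hr : ∀ w : ℤ × ℤ, |w.1 - z.1| ≤ |u.1| → |w.2 - z.2| ≤ |u.2| → ‖vv (w - z)‖ ≤ ‖vv u‖ := by
    intro w a1 a2
    rw [norm_vv_le_iff]
    obtain ⟨b1, b2⟩ := norm_vv_le_iff.1 (le_refl ‖vv u‖)
    refine ⟨le_trans ?_ b1, le_trans ?_ b2⟩
    · exact_mod_cast a1
    · exact_mod_cast a2
  have g := path2 (P := P) (A := A) (B := B) (η := η) z u (fun w a1 a2 => h1 w (hr w a1 a2))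
    (fun w a1 a2 => h2 w (hr w a1 a2))
  have e1 : s • (P (z + u) - P z) - lin A B (s • vv u) =
      s • (P (z + u) - P z - ((u.1 : ℝ) • A + (u.2 : ℝ) • B)) := by
    rw [map_smul, lin_apply, ← smul_sub]
    rfl
  obtain ⟨b1, b2⟩ := norm_vv_le_iff.1 (le_refl ‖vv u‖)
  rw [e1, norm_smul, norm_smul, Real.norm_eq_abs, abs_of_nonneg hs]
  calc s * ‖P (z + u) - P z - ((u.1 : ℝ) • A + (u.2 : ℝ) • B)‖
      ≤ s * (η * (|(u.1 : ℝ)| + |(u.2 : ℝ)|)) := mul_le_mul_of_nonneg_left g hs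
    _ ≤ s * (η * (‖vv u‖ + ‖vv u‖)) := by gcongr
    _ = _ := by ring

/-- The grid point below a point of the square. -/
noncomputable def zf (m : ℕ → ℕ) (y : ℝ × ℝ) (k : ℕ) : ℤ × ℤ :=
  (⌊(m k : ℝ) * y.1⌋, ⌊(m k : ℝ) * y.2⌋)

variable {m : ℕ → ℕ} {U : Ultrafilter ℕ}

theorem tendsto_inv (hm : Tendsto m atTop atTop) (hU : (U : Filter ℕ) ≤ atTop) :
    Tendsto (fun k => (m k : ℝ)⁻¹) U (𝓝 0) := by
  have h1 : Tendsto (fun k => (m k : ℝ)) atTop atTop := tendsto_natCast_atTop_atTop.comp hm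
  exact (tendsto_inv_atTop_zero.comp h1).mono_left hU

theorem ev_pos (hm : Tendsto m atTop atTop) (hU : (U : Filter ℕ) ≤ atTop) :
    ∀ᶠ k in (U : Filter ℕ), 0 < (m k : ℝ) := by
  have h1 : ∀ᶠ k in atTop, 0 < m k := hm.eventually (eventually_gt_atTop 0)
  filter_upwards [hU h1] with k hk
  exact_mod_cast hk

theorem tendsto_zf (hm : Tendsto m atTop atTop) (hU : (U : Filter ℕ) ≤ atTop) (y : ℝ × ℝ) :
    Tendsto (fun k => (m k : ℝ)⁻¹ • vv (zf m y k)) U (𝓝 y) := by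
  rw [tendsto_iff_norm_sub_tendsto_zero]
  refine squeeze_zero' (Eventually.of_forall fun k => norm_nonneg _) ?_ (tendsto_inv hm hU)
  filter_upwards [ev_pos hm hU] with k hk
  have hk' : (0 : ℝ) < (m k : ℝ)⁻¹ := inv_pos.2 hk
  have key : ∀ t : ℝ, |(m k : ℝ)⁻¹ * (⌊(m k : ℝ) * t⌋ : ℝ) - t| ≤ (m k : ℝ)⁻¹ := by
    intro t
    have h1 := Int.floor_le ((m k : ℝ) * t)
    have h2 := Int.lt_floor_add_one ((m k : ℝ) * t)
    have e1 : (m k : ℝ)⁻¹ * (⌊(m k : ℝ) * t⌋ : ℝ) - t =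
        (m k : ℝ)⁻¹ * ((⌊(m k : ℝ) * t⌋ : ℝ) - (m k : ℝ) * t) := by
      field_simp
    rw [e1, abs_mul, abs_of_pos hk']
    have h3 : |(⌊(m k : ℝ) * t⌋ : ℝ) - (m k : ℝ) * t| ≤ 1 := by
      rw [abs_le]; constructor <;> linarith
    calc _ ≤ (m k : ℝ)⁻¹ * 1 := mul_le_mul_of_nonneg_left h3 hk'.le
      _ = _ := mul_one _
  rw [Prod.norm_def, max_le_iff]
  exact ⟨key y.1, key y.2⟩

/-- A compactness lemma for ultrafilters. -/
theorem lim_exists {f : ℕ → ℝ × ℝ} {C : ℝ} (hf : ∀ᶠ k in (U : Filter ℕ), ‖f k‖ ≤ C) :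
    ∃ g : ℝ × ℝ, Tendsto f U (𝓝 g) := by
  have hc : IsCompact (Metric.closedBall (0 : ℝ × ℝ) C) := isCompact_closedBall 0 C
  have h1 : (U.map f : Filter (ℝ × ℝ)) ≤ 𝓟 (Metric.closedBall (0 : ℝ × ℝ) C) := by
    rw [le_principal_iff, Ultrafilter.coe_map, mem_map]
    filter_upwards [hf] with k hk
    simpa using hk
  obtain ⟨g, _, hg⟩ := hc.ultrafilter_le_nhds (U.map f) h1
  exact ⟨g, hg⟩

/-- Points well inside the box. -/
theorem ev_box (hm : Tendsto m atTop atTop) (hU : (U : Filter ℕ) ≤ atTop) {c : ℝ} (hc : c < 1) :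
    ∀ᶠ k in (U : Filter ℕ), ∀ w : ℤ × ℤ, ‖(m k : ℝ)⁻¹ • vv w‖ ≤ c →
      box (m k) w ∧ box (m k) (w + (1, 0)) ∧ box (m k) (w + (0, 1)) := by
  have h1 : ∀ᶠ k in (U : Filter ℕ), (m k : ℝ)⁻¹ < 1 - c :=
    (tendsto_inv hm hU).eventually_lt_const (by linarith)
  filter_upwards [h1, ev_pos hm hU] with k hk hpos w hw
  have hk' : (0 : ℝ) < (m k : ℝ)⁻¹ := inv_pos.2 hpos
  have h2 : ‖vv w‖ ≤ c * m k := by
    rw [norm_smul, Real.norm_eq_abs, abs_of_pos hk'] at hw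
    have := mul_le_mul_of_nonneg_left hw hpos.le
    rw [← mul_assoc, mul_inv_cancel₀ hpos.ne', one_mul] at this
    linarith
  have h3 : c * (m k : ℝ) + 1 ≤ m k := by
    have := mul_le_mul_of_nonneg_left hk.le hpos.le
    rw [mul_inv_cancel₀ hpos.ne'] at this
    linarith
  obtain ⟨h4, h5⟩ := norm_vv_le_iff.1 h2
  have h6 : |w.1| + 1 ≤ (m k : ℤ) := by
    have : |(w.1 : ℝ)| + 1 ≤ m k := by linarith
    exact_mod_cast this
  have h7 : |w.2| + 1 ≤ (m k : ℤ) := by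
    have : |(w.2 : ℝ)| + 1 ≤ m k := by linarith
    exact_mod_cast this
  have h8 : |w.1 + 1| ≤ (m k : ℤ) := (abs_add_le _ _).trans (by simpa using h6)
  have h9 : |w.2 + 1| ≤ (m k : ℤ) := (abs_add_le _ _).trans (by simpa using h7)
  refine ⟨⟨by linarith, by linarith⟩, ⟨?_, ?_⟩, ⟨?_, ?_⟩⟩
  · simpa using h8
  · simp; linarith
  · simp; linarith
  · simpa using h9

/-- The limit of one difference field. -/
theorem field_lim (hm : Tendsto m atTop atTop) (hU : (U : Filter ℕ) ≤ atTop) {K : ℝ}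
    {D : ℕ → ℤ × ℤ → ℝ × ℝ}
    (bd : ∀ k z, (box (m k) z ∧ box (m k) (z + (1, 0)) ∧ box (m k) (z + (0, 1))) → ‖D k z‖ ≤ K)
    (ec : ∀ η > 0, ∃ ρ : ℝ, 0 < ρ ∧ ∀ᶠ k in atTop, ∀ z z',
      (box (m k) z ∧ box (m k) (z + (1, 0)) ∧ box (m k) (z + (0, 1))) →
      (box (m k) z' ∧ box (m k) (z' + (1, 0)) ∧ box (m k) (z' + (0, 1))) →
      ‖vv (z' - z)‖ ≤ ρ * m k → ‖D k z' - D k z‖ ≤ η) :
    ∃ G : ℝ × ℝ → ℝ × ℝ, ∀ y : ℝ × ℝ, ‖y‖ < 1 → ∀ η > 0, ∃ ρ : ℝ, 0 < ρ ∧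
      ∀ᶠ k in (U : Filter ℕ), ∀ w : ℤ × ℤ, ‖(m k : ℝ)⁻¹ • vv w - y‖ ≤ ρ → ‖D k w - G y‖ ≤ η := by
  have h0 : ∀ y : ℝ × ℝ, ‖y‖ < 1 → ∃ g : ℝ × ℝ, Tendsto (fun k => D k (zf m y k)) U (𝓝 g) := by
    intro y hy
    refine lim_exists (C := K) ?_
    have h1 : (‖y‖ + 1) / 2 < 1 := by linarith
    have h2 : ∀ᶠ k in (U : Filter ℕ), ‖(m k : ℝ)⁻¹ • vv (zf m y k)‖ < (‖y‖ + 1) / 2 :=
      (tendsto_zf hm hU y).norm.eventually_lt_const (by linarith)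
    filter_upwards [ev_box hm hU h1, h2] with k hk1 hk2
    exact bd k _ (hk1 _ hk2.le)
  choose! G hG using h0
  refine ⟨G, fun y hy η hη => ?_⟩
  obtain ⟨ρ, hρ, hec⟩ := ec (η / 2) (by positivity)
  have h1 : (‖y‖ + 1) / 2 < 1 := by linarith
  refine ⟨min (ρ / 2) ((1 - ‖y‖) / 2), lt_min (by positivity) (by linarith), ?_⟩
  have h2 : ∀ᶠ k in (U : Filter ℕ), ‖(m k : ℝ)⁻¹ • vv (zf m y k) - y‖ <
      min (ρ / 2) ((1 - ‖y‖) / 2) := by
    have := (tendsto_iff_norm_sub_tendsto_zero.1 (tendsto_zf hm hU y))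
    exact this.eventually_lt_const (lt_min (by positivity) (by linarith))
  have h3 : ∀ᶠ k in (U : Filter ℕ), ‖D k (zf m y k) - G y‖ < η / 2 := by
    have := (tendsto_iff_norm_sub_tendsto_zero.1 (hG y hy))
    exact this.eventually_lt_const (by positivity)
  filter_upwards [hU hec, h2, h3, ev_box hm hU h1, ev_pos hm hU] with k k1 k2 k3 k4 k5 w hw
  have hin : ∀ w : ℤ × ℤ, ‖(m k : ℝ)⁻¹ • vv w - y‖ ≤ min (ρ / 2) ((1 - ‖y‖) / 2) →
      ‖(m k : ℝ)⁻¹ • vv w‖ ≤ (‖y‖ + 1) / 2 := by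
    intro w hw
    have e1 : (m k : ℝ)⁻¹ • vv w = ((m k : ℝ)⁻¹ • vv w - y) + y := by abel
    rw [e1]
    refine (norm_add_le _ _).trans ?_
    have := hw.trans (min_le_right _ _)
    linarith
  have k6 := k4 _ (hin _ k2.le)
  have k7 := k4 _ (hin _ hw)
  have hk' : (0 : ℝ) < (m k : ℝ)⁻¹ := inv_pos.2 k5
  have k8 : ‖vv (w - zf m y k)‖ ≤ ρ * m k := by
    have e1 : (m k : ℝ)⁻¹ • vv (w - zf m y k) =
        ((m k : ℝ)⁻¹ • vv w - y) - ((m k : ℝ)⁻¹ • vv (zf m y k) - y) := by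
      rw [vv_sub, smul_sub]; abel
    have e2 : ‖(m k : ℝ)⁻¹ • vv (w - zf m y k)‖ ≤ ρ := by
      rw [e1]
      refine (norm_sub_le _ _).trans ?_
      have a1 := hw.trans (min_le_left _ _)
      have a2 := k2.le.trans (min_le_left _ _)
      linarith
    rw [norm_smul, Real.norm_eq_abs, abs_of_pos hk'] at e2
    have := mul_le_mul_of_nonneg_left e2 k5.le
    rw [← mul_assoc, mul_inv_cancel₀ k5.ne', one_mul] at this
    linarith
  have k9 := k1 _ _ k6 k7 k8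
  have e3 : D k w - G y = (D k w - D k (zf m y k)) + (D k (zf m y k) - G y) := by abel
  rw [e3]
  refine (norm_add_le _ _).trans ?_
  linarith

theorem tendsto_of_unif {D : ℕ → ℤ × ℤ → ℝ × ℝ} {g y : ℝ × ℝ}
    (hG : ∀ η > 0, ∃ ρ : ℝ, 0 < ρ ∧ ∀ᶠ k in (U : Filter ℕ), ∀ w : ℤ × ℤ,
      ‖(m k : ℝ)⁻¹ • vv w - y‖ ≤ ρ → ‖D k w - g‖ ≤ η) (z : ℕ → ℤ × ℤ)
    (hz : Tendsto (fun k => (m k : ℝ)⁻¹ • vv (z k)) U (𝓝 y)) :
    Tendsto (fun k => D k (z k)) U (𝓝 g) := by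
  rw [Metric.tendsto_nhds]
  intro η hη
  obtain ⟨ρ, hρ, h1⟩ := hG (η / 2) (by positivity)
  have h2 : ∀ᶠ k in (U : Filter ℕ), ‖(m k : ℝ)⁻¹ • vv (z k) - y‖ < ρ :=
    (tendsto_iff_norm_sub_tendsto_zero.1 hz).eventually_lt_const hρ
  filter_upwards [h1, h2] with k k1 k2
  rw [dist_eq_norm]
  have := k1 _ k2.le
  linarith

theorem cont_of_unif (hm : Tendsto m atTop atTop) (hU : (U : Filter ℕ) ≤ atTop)
    {D : ℕ → ℤ × ℤ → ℝ × ℝ} {G : ℝ × ℝ → ℝ × ℝ}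
    (hG : ∀ y : ℝ × ℝ, ‖y‖ < 1 → ∀ η > 0, ∃ ρ : ℝ, 0 < ρ ∧ ∀ᶠ k in (U : Filter ℕ), ∀ w : ℤ × ℤ,
      ‖(m k : ℝ)⁻¹ • vv w - y‖ ≤ ρ → ‖D k w - G y‖ ≤ η) :
    ContinuousOn G (Metric.ball 0 1) := by
  rw [Metric.continuousOn_iff]
  intro y hy η hη
  rw [mem_ball_zero_iff] at hy
  obtain ⟨ρ, hρ, h1⟩ := hG y hy (η / 2) (by positivity)
  refine ⟨ρ, hρ, fun y' hy' hd => ?_⟩
  rw [mem_ball_zero_iff] at hy'
  rw [dist_eq_norm] at hd ⊢
  have h2 := tendsto_of_unif (hG y' hy') (zf m y') (tendsto_zf hm hU y')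
  have h3 : ∀ᶠ k in (U : Filter ℕ), ‖(m k : ℝ)⁻¹ • vv (zf m y' k) - y‖ < ρ :=
    ((tendsto_zf hm hU y').sub_const y).norm.eventually_lt_const hd
  have h4 : ‖G y' - G y‖ ≤ η / 2 := by
    refine le_of_tendsto (h2.sub_const (G y)).norm ?_
    filter_upwards [h1, h3] with k k1 k2
    exact k1 _ k2.le
  linarith

end LimitAux

open LimitAux

theorem exists_lim {m : ℕ → ℕ} {Q : ℕ → ℤ × ℤ → ℝ × ℝ} {a : ℕ → ℝ} {K κ ε : ℝ}
    (h : Grids m Q a K κ ε) (U : Ultrafilter ℕ) (hU : (U : Filter ℕ) ≤ atTop) :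
    ∃ Φ G1 G2 : ℝ × ℝ → ℝ × ℝ, Lim U m Q κ Φ G1 G2 := by
  have hm := h.hm
  obtain ⟨G1, hG1⟩ := field_lim (U := U) (D := fun k z => Q k (z + (1, 0)) - Q k z) hm hU
    (fun k z hz => h.bd1 k z hz.1 hz.2.1) (fun η hη => by
      obtain ⟨ρ, hρ, h1⟩ := h.ec1 η hη
      refine ⟨ρ, hρ, ?_⟩
      filter_upwards [h1] with k k1 z z' hz hz' hd
      exact k1 z z' hz.1 hz.2.1 hz'.1 hz'.2.1 hd)
  obtain ⟨G2, hG2⟩ := field_lim (U := U) (D := fun k z => Q k (z + (0, 1)) - Q k z) hm hU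
    (fun k z hz => h.bd2 k z hz.1 hz.2.2) (fun η hη => by
      obtain ⟨ρ, hρ, h1⟩ := h.ec2 η hη
      refine ⟨ρ, hρ, ?_⟩
      filter_upwards [h1] with k k1 z z' hz hz' hd
      exact k1 z z' hz.1 hz.2.2 hz'.1 hz'.2.2 hd)
  -- Lipschitz bound
  have lip : ∀ c : ℝ, c < 1 → ∀ᶠ k in (U : Filter ℕ), ∀ z u : ℤ × ℤ,
      ‖(m k : ℝ)⁻¹ • vv z‖ + ‖(m k : ℝ)⁻¹ • vv u‖ ≤ c →
      ‖(m k : ℝ)⁻¹ • (Q k (z + u) - Q k z)‖ ≤ 2 * |K| * ‖(m k : ℝ)⁻¹ • vv u‖ := by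
    intro c hc
    filter_upwards [ev_box hm hU hc, ev_pos hm hU] with k k1 k2 z u hzu
    have hk' : (0 : ℝ) < (m k : ℝ)⁻¹ := inv_pos.2 k2
    have hin : ∀ w : ℤ × ℤ, ‖vv (w - z)‖ ≤ ‖vv u‖ → ‖(m k : ℝ)⁻¹ • vv w‖ ≤ c := by
      intro w hw
      have e1 : (m k : ℝ)⁻¹ • vv w = (m k : ℝ)⁻¹ • vv z + (m k : ℝ)⁻¹ • vv (w - z) := by
        rw [vv_sub, smul_sub]; abel
      rw [e1]
      refine (norm_add_le _ _).trans (le_trans ?_ hzu)
      refine add_le_add le_rfl ?_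
      rw [norm_smul, norm_smul]
      exact mul_le_mul_of_nonneg_left hw (norm_nonneg _)
    have g := path3 (P := Q k) (A := 0) (B := 0) (η := |K|) (abs_nonneg _) hk'.le z u
      (fun w hw => by
        have b := k1 w (hin w hw)
        rw [sub_zero]
        exact (h.bd1 k w b.1 b.2.1).trans (le_abs_self K))
      (fun w hw => by
        have b := k1 w (hin w hw)
        rw [sub_zero]
        exact (h.bd2 k w b.1 b.2.2).trans (le_abs_self K))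
    have e2 : lin 0 0 ((m k : ℝ)⁻¹ • vv u) = 0 := by rw [lin_apply]; simp
    rw [e2, sub_zero] at g
    exact g
  -- the limit of the positions
  have hP : ∀ y : ℝ × ℝ, ‖y‖ < 1 → ∃ p : ℝ × ℝ,
      Tendsto (fun k => (m k : ℝ)⁻¹ • (Q k (zf m y k) - Q k 0)) U (𝓝 p) := by
    intro y hy
    refine lim_exists (C := 2 * |K|) ?_
    have h1 : (‖y‖ + 1) / 2 < 1 := by linarith
    have h2 : ∀ᶠ k in (U : Filter ℕ), ‖(m k : ℝ)⁻¹ • vv (zf m y k)‖ < (‖y‖ + 1) / 2 :=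
      (tendsto_zf hm hU y).norm.eventually_lt_const (by linarith)
    filter_upwards [lip _ h1, h2] with k k1 k2
    have e0 : ‖(m k : ℝ)⁻¹ • vv (0 : ℤ × ℤ)‖ = 0 := by simp [vv]
    have k3 := k1 0 (zf m y k) (by rw [e0, zero_add]; exact k2.le)
    rw [zero_add] at k3
    refine k3.trans ?_
    have h3 : ‖(m k : ℝ)⁻¹ • vv (zf m y k)‖ ≤ 1 := by linarith
    calc _ ≤ 2 * |K| * 1 := mul_le_mul_of_nonneg_left h3 (by positivity)
      _ = _ := mul_one _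
  choose! Φ hΦ using hP
  have pos : ∀ (z : ℕ → ℤ × ℤ) (y : ℝ × ℝ), ‖y‖ < 1 →
      Tendsto (fun k => (m k : ℝ)⁻¹ • vv (z k)) U (𝓝 y) →
      Tendsto (fun k => (m k : ℝ)⁻¹ • (Q k (z k) - Q k 0)) U (𝓝 (Φ y)) := by
    intro z y hy hz
    have hdiff : Tendsto (fun k => (m k : ℝ)⁻¹ • vv (z k - zf m y k)) U (𝓝 0) := by
      have := hz.sub (tendsto_zf hm hU y)
      rw [sub_self] at this
      refine this.congr (fun k => ?_)
      rw [vv_sub, smul_sub]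
    have h1 : (‖y‖ + 1) / 2 < 1 := by linarith
    have h2 : ∀ᶠ k in (U : Filter ℕ), ‖(m k : ℝ)⁻¹ • vv (zf m y k)‖ +
        ‖(m k : ℝ)⁻¹ • vv (z k - zf m y k)‖ < (‖y‖ + 1) / 2 := by
      have := (tendsto_zf hm hU y).norm.add hdiff.norm
      rw [norm_zero, add_zero] at this
      exact this.eventually_lt_const (by linarith)
    have h3 : Tendsto (fun k => (m k : ℝ)⁻¹ • (Q k (z k) - Q k (zf m y k))) U (𝓝 0) := by
      rw [tendsto_zero_iff_norm_tendsto_zero]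
      have h4 : Tendsto (fun k => 2 * |K| * ‖(m k : ℝ)⁻¹ • vv (z k - zf m y k)‖) U (𝓝 0) := by
        have := hdiff.norm.const_mul (2 * |K|)
        simpa using this
      refine squeeze_zero' (Eventually.of_forall fun k => norm_nonneg _) ?_ h4
      filter_upwards [lip _ h1, h2] with k k1 k2
      have k3 := k1 (zf m y k) (z k - zf m y k) k2.le
      rw [add_sub_cancel] at k3
      exact k3
    have h5 := h3.add (hΦ y hy)
    rw [zero_add] at h5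
    refine h5.congr (fun k => ?_)
    rw [← smul_add]
    congr 1
    abel
  refine ⟨Φ, G1, G2, ?_⟩
  refine ⟨pos, fun z y hy hz => tendsto_of_unif (hG1 y hy) z hz,
    fun z y hy hz => tendsto_of_unif (hG2 y hy) z hz, cont_of_unif hm hU hG1,
    cont_of_unif hm hU hG2, ?_, ?_⟩
  · -- the derivative
    intro y hy
    rw [mem_ball_zero_iff] at hy
    rw [hasFDerivAt_iff_isLittleO, Asymptotics.isLittleO_iff]
    intro c hc
    obtain ⟨ρ₁, hρ₁, hu1⟩ := hG1 y hy (c / 2) (by positivity)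
    obtain ⟨ρ₂, hρ₂, hu2⟩ := hG2 y hy (c / 2) (by positivity)
    have hρ : 0 < min ρ₁ ρ₂ / 2 := by positivity
    filter_upwards [Metric.ball_mem_nhds y hρ,
      Metric.isOpen_ball.mem_nhds (mem_ball_zero_iff.2 hy)] with y' hy' hy1
    rw [mem_ball_iff_norm] at hy'
    rw [mem_ball_zero_iff] at hy1
    have hd : Tendsto (fun k => (m k : ℝ)⁻¹ • vv (zf m y' k - zf m y k)) U (𝓝 (y' - y)) := by
      refine ((tendsto_zf hm hU y').sub (tendsto_zf hm hU y)).congr (fun k => ?_)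
      rw [vv_sub, smul_sub]
    have hq : Tendsto (fun k => (m k : ℝ)⁻¹ • (Q k (zf m y' k) - Q k (zf m y k))) U
        (𝓝 (Φ y' - Φ y)) := by
      refine ((hΦ y' hy1).sub (hΦ y hy)).congr (fun k => ?_)
      rw [← smul_sub]
      congr 1
      abel
    have hl : Tendsto (fun k => lin (G1 y) (G2 y) ((m k : ℝ)⁻¹ • vv (zf m y' k - zf m y k))) U
        (𝓝 (lin (G1 y) (G2 y) (y' - y))) := ((lin (G1 y) (G2 y)).continuous.tendsto _).comp hd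
    have hlhs := (hq.sub hl).norm
    have hrhs : Tendsto (fun k => 2 * (c / 2) * ‖(m k : ℝ)⁻¹ • vv (zf m y' k - zf m y k)‖) U
        (𝓝 (2 * (c / 2) * ‖y' - y‖)) := hd.norm.const_mul _
    have hfin : ‖Φ y' - Φ y - lin (G1 y) (G2 y) (y' - y)‖ ≤ 2 * (c / 2) * ‖y' - y‖ := by
      refine le_of_tendsto_of_tendsto hlhs hrhs ?_
      have h1 : ∀ᶠ k in (U : Filter ℕ), ‖(m k : ℝ)⁻¹ • vv (zf m y k) - y‖ < min ρ₁ ρ₂ / 2 :=
        (tendsto_iff_norm_sub_tendsto_zero.1 (tendsto_zf hm hU y)).eventually_lt_const hρ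
      have h2 : ∀ᶠ k in (U : Filter ℕ), ‖(m k : ℝ)⁻¹ • vv (zf m y' k - zf m y k)‖ <
          min ρ₁ ρ₂ / 2 := hd.norm.eventually_lt_const hy'
      filter_upwards [hu1, hu2, h1, h2, ev_pos hm hU] with k k1 k2 k3 k4 k5
      have hk' : (0 : ℝ) < (m k : ℝ)⁻¹ := inv_pos.2 k5
      have hin : ∀ w : ℤ × ℤ, ‖vv (w - zf m y k)‖ ≤ ‖vv (zf m y' k - zf m y k)‖ →
          ‖(m k : ℝ)⁻¹ • vv w - y‖ ≤ min ρ₁ ρ₂ := by
        intro w hw
        have e1 : (m k : ℝ)⁻¹ • vv w - y =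
            (m k : ℝ)⁻¹ • vv (w - zf m y k) + ((m k : ℝ)⁻¹ • vv (zf m y k) - y) := by
          rw [vv_sub, smul_sub]; abel
        have e2 : ‖(m k : ℝ)⁻¹ • vv (w - zf m y k)‖ ≤ min ρ₁ ρ₂ / 2 := by
          refine le_trans ?_ k4.le
          rw [norm_smul, norm_smul]
          exact mul_le_mul_of_nonneg_left hw (norm_nonneg _)
        rw [e1]
        refine (norm_add_le _ _).trans ?_
        linarith
      have g := path3 (P := Q k) (A := G1 y) (B := G2 y) (η := c / 2) (by positivity) hk'.le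
        (zf m y k) (zf m y' k - zf m y k)
        (fun w hw => k1 w ((hin w hw).trans (min_le_left _ _)))
        (fun w hw => k2 w ((hin w hw).trans (min_le_right _ _)))
      rw [add_sub_cancel] at g
      exact g
    have e3 : 2 * (c / 2) = c := by ring
    rw [e3] at hfin
    exact hfin
  · -- the determinant
    intro y hy
    rw [mem_ball_zero_iff] at hy
    have t1 := tendsto_of_unif (hG1 y hy) (zf m y) (tendsto_zf hm hU y)
    have t2 := tendsto_of_unif (hG2 y hy) (zf m y) (tendsto_zf hm hU y)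
    have hcr : Continuous (fun p : (ℝ × ℝ) × (ℝ × ℝ) => |cr p.1 p.2|) := by
      unfold cr
      fun_prop
    have t3 := (hcr.tendsto (G1 y, G2 y)).comp (t1.prodMk_nhds t2)
    refine ge_of_tendsto t3 ?_
    have h1 : (‖y‖ + 1) / 2 < 1 := by linarith
    have h2 : ∀ᶠ k in (U : Filter ℕ), ‖(m k : ℝ)⁻¹ • vv (zf m y k)‖ < (‖y‖ + 1) / 2 :=
      (tendsto_zf hm hU y).norm.eventually_lt_const (by linarith)
    filter_upwards [ev_box hm hU h1, h2] with k k1 k2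
    have b := k1 _ k2.le
    exact h.det k _ b.1 b.2.1 b.2.2

end Pool.Agent.C1Grid
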