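import Pool.Agent.C1Grid.Final
import Pool.Agent.GridLat.Plane75

/-!
# Smoothly deformed grids in the unit disk
-/

set_option autoImplicit false

namespace Pool.Agent.C1Grid

open Pool.Agent.GridLat
open Pool.Agent.Grain (Pl)

/-- the points of the grid of size `r` with spacing `1 / √n` -/
def InBox (n : ℕ) (r : ℝ) (z : ℤ × ℤ) : Prop := |(z.1 : ℝ)| ≤ r * √n ∧ |(z.2 : ℝ)| ≤ r * √n

/-- `X` contains a deformed grid: differences of neighbours at most `K / √n`, determinants at least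
`κ / n`, and the difference field is equicontinuous with modulus `ρ` down to the error `δ` -/
def HasSmoothGrid {n : ℕ} (X : Fin n → Pl) (ρ : ℝ → ℝ) (κ K r δ : ℝ) : Prop :=
  ∃ ψ : ℤ × ℤ → Fin n,
    (∀ e : ℤ × ℤ, e = (1, 0) ∨ e = (0, 1) → ∀ z, InBox n r z → InBox n r (z + e) →
      ‖X (ψ (z + e)) - X (ψ z)‖ ≤ K / √n) ∧
    (∀ z, InBox n r z → InBox n r (z + (1, 0)) → InBox n r (z + (0, 1)) →
      κ / n ≤ |Pool.Agent.Grain.cr (X (ψ (z + (1, 0))) - X (ψ z))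
        (X (ψ (z + (0, 1))) - X (ψ z))|) ∧
    (∀ e : ℤ × ℤ, e = (1, 0) ∨ e = (0, 1) → ∀ η, δ ≤ η → ∀ z z', InBox n r z →
      InBox n r (z + e) → InBox n r z' → InBox n r (z' + e) →
      |((z'.1 - z.1 : ℤ) : ℝ)| ≤ ρ η * √n → |((z'.2 - z.2 : ℤ) : ℝ)| ≤ ρ η * √n →
      ‖(X (ψ (z' + e)) - X (ψ z')) - (X (ψ (z + e)) - X (ψ z))‖ ≤ η / √n)

/-- the coordinates of a point, scaled by `s` -/
noncomputable def sc (s : ℝ) (u : Pl) : ℝ × ℝ := (s * u 0, s * u 1)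

theorem sc_sub (s : ℝ) (u v : Pl) : sc s (u - v) = sc s u - sc s v := by
  unfold sc
  ext <;> simp only [PiLp.sub_apply, Prod.fst_sub, Prod.snd_sub] <;> ring

theorem cr_sc (s : ℝ) (u v : Pl) : cr (sc s u) (sc s v) = s ^ 2 * Pool.Agent.Grain.cr u v := by
  unfold sc cr Pool.Agent.Grain.cr; ring

theorem norm_sc_le {s : ℝ} (hs : 0 ≤ s) (u : Pl) : ‖sc s u‖ ≤ s * ‖u‖ := by
  have h (i : Fin 2) : |u i| ≤ ‖u‖ := by
    have := PiLp.norm_apply_le u i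
    rwa [Real.norm_eq_abs] at this
  rw [Prod.norm_def]
  apply max_le
  · rw [Real.norm_eq_abs]
    show |s * u 0| ≤ _
    rw [abs_mul, abs_of_nonneg hs]
    exact mul_le_mul_of_nonneg_left (h 0) hs
  · rw [Real.norm_eq_abs]
    show |s * u 1| ≤ _
    rw [abs_mul, abs_of_nonneg hs]
    exact mul_le_mul_of_nonneg_left (h 1) hs

theorem inBox_of_box {n : ℕ} {r : ℝ} {m : ℤ} (hm : (m : ℝ) ≤ r * √n) {z : ℤ × ℤ} (hz : box m z) :
    InBox n r z := ⟨abs_le_of_box hm hz.1, abs_le_of_box hm hz.2⟩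

/-- a grid whose differences are close to the differences at the origin is injective -/
theorem grid_inj {n : ℕ} (hn : 1 ≤ n) {X : Fin n → Pl} {κ K η : ℝ} (hκ : 0 < κ) (hK : 0 < K)
    (hη : 0 ≤ η) (hηK : 2 * (η * K / κ) < 1) {ψ : ℤ × ℤ → Fin n} {m : ℤ} {e₁ e₂ : Pl}
    (h1 : ‖e₁‖ ≤ K / √n) (h2 : ‖e₂‖ ≤ K / √n) (h3 : κ / n ≤ |Pool.Agent.Grain.cr e₁ e₂|)
    (h4 : ∀ z, box m z → box m (z + (1, 0)) →
      ‖(X (ψ (z + (1, 0))) - X (ψ z)) - e₁‖ ≤ η / √n)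
    (h5 : ∀ z, box m z → box m (z + (0, 1)) →
      ‖(X (ψ (z + (0, 1))) - X (ψ z)) - e₂‖ ≤ η / √n)
    {x y : ℤ × ℤ} (hx : box m x) (hy : box m y) (hxy : x ≠ y) : ψ x ≠ ψ y := by
  have hnr : (1 : ℝ) ≤ n := by exact_mod_cast hn
  have hn0 : (0 : ℝ) < n := by linarith
  have hsq : 0 < √(n : ℝ) := Real.sqrt_pos.2 hn0
  have hsqsq : √(n : ℝ) * √(n : ℝ) = n := Real.mul_self_sqrt hn0.le
  have hΔpos : 0 < |Pool.Agent.Grain.cr e₁ e₂| := lt_of_lt_of_le (by positivity) h3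
  have hΔ : Pool.Agent.Grain.cr e₁ e₂ ≠ 0 := abs_pos.1 hΔpos
  set Q : ℤ × ℤ → ℝ × ℝ := fun z => coord e₁ e₂ (X (ψ z)) with hQ
  have hsmall : ∀ w : Pl, ‖w‖ ≤ η / √n → ‖coord e₁ e₂ w‖ ≤ η * K / κ := by
    intro w hw
    refine (norm_coord_le h1 h2 w).trans ?_
    rw [div_le_div_iff₀ hΔpos hκ]
    calc ‖w‖ * (K / √n) * κ ≤ (η / √n) * (K / √n) * κ := by gcongr
      _ = η * K * κ / (√n * √n) := by ring
      _ = η * K * (κ / n) := by rw [hsqsq]; ring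
      _ ≤ η * K * |Pool.Agent.Grain.cr e₁ e₂| := by gcongr
  have hnear : Near m (η * K / κ) Q := by
    intro z hz
    refine ⟨fun hb => ?_, fun hb => ?_⟩
    · have h6 : Q (z + (1, 0)) - Q z - (1, 0) =
          coord e₁ e₂ (X (ψ (z + (1, 0))) - X (ψ z) - e₁) := by
        rw [coord_sub, coord_sub, coord_left hΔ]
      rw [h6]
      exact hsmall _ (h4 z hz hb)
    · have h6 : Q (z + (0, 1)) - Q z - (0, 1) =
          coord e₁ e₂ (X (ψ (z + (0, 1))) - X (ψ z) - e₂) := by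
        rw [coord_sub, coord_sub, coord_right hΔ]
      rw [h6]
      exact hsmall _ (h5 z hz hb)
  intro heq
  apply hnear.inj hηK hx hy hxy
  simp only [hQ, heq]

/-- **Smoothly deformed grids.** -/
theorem smooth_bound (ρ : ℝ → ℝ) (hρ : ∀ η, 0 < η → 0 < ρ η) (κ K r ε : ℝ) (hκ : 0 < κ)
    (hK : 0 < K) (hr : 0 < r) (hε : 0 < ε) :
    ∃ δ : ℝ, 0 < δ ∧ ∃ n₀ : ℕ, ∀ n : ℕ, n₀ ≤ n →
      ∀ X : Fin n → Pl, Function.Injective X → HasSmoothGrid X ρ κ K r δ →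
        ∀ D A : ℝ, 0 ≤ D → 0 ≤ A →
          (∀ i j : Fin n, i ≠ j → D ≤ dist (X i) (X j)) →
          (∀ i j k : Fin n, i ≠ j → j ≠ k → i ≠ k →
              A ≤ EuclideanGeometry.angle (X i) (X j) (X k)) →
          A ≤ ε / n ∧ D * A ≤ ε * (n : ℝ) ^ (-(3 / 2 : ℝ)) := by
  have hpi := Real.pi_pos
  -- the smaller box on which the grid is almost affine
  set η₀ : ℝ := κ / (4 * K) with hη₀
  have hη₀0 : 0 < η₀ := by positivity
  have hη₀K : 2 * (η₀ * K / κ) < 1 := by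
    have : 2 * (η₀ * K / κ) = 1 / 2 := by rw [hη₀]; field_simp; norm_num
    rw [this]; norm_num
  set r' : ℝ := min r (ρ η₀) with hr'
  have hr'0 : 0 < r' := lt_min hr (hρ _ hη₀0)
  set ε₁ : ℝ := ε / (1 + K) with hε₁
  have hε₁0 : 0 < ε₁ := by positivity
  have hε₁ε : ε₁ ≤ ε := by
    rw [hε₁, div_le_iff₀ (by positivity)]; nlinarith
  have hKε : K * ε₁ ≤ ε := by
    rw [hε₁, mul_div_assoc', div_le_iff₀ (by positivity)]; nlinarith
  set ε₂ : ℝ := ε₁ * r' ^ 2 / (2 * Real.pi) with hε₂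
  have hε₂0 : 0 < ε₂ := by positivity
  obtain ⟨δ₀, hδ₀, m₀, hmain⟩ := c1_pure (fun η => ρ η / r') (fun η hη => div_pos (hρ η hη) hr'0)
    (K := K) hκ hε₂0
  refine ⟨min δ₀ η₀, lt_min hδ₀ hη₀0, ⌈((m₀ + 2) / r') ^ 2⌉₊, ?_⟩
  intro n hn X hinj hX D A hD0 hA0 hD hA
  obtain ⟨ψ, hstep, hdet, hec⟩ := hX
  have hnr : ((m₀ + 2) / r') ^ 2 ≤ (n : ℝ) := le_trans (Nat.le_ceil _) (by exact_mod_cast hn)
  have hn0 : (0 : ℝ) < n := lt_of_lt_of_le (by positivity) hnr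
  have hn1 : 1 ≤ n := by exact_mod_cast hn0
  have hsn : 0 < √(n : ℝ) := Real.sqrt_pos.2 hn0
  have hsqsq : √(n : ℝ) * √(n : ℝ) = n := Real.mul_self_sqrt hn0.le
  have hrn : (m₀ : ℝ) + 2 ≤ r' * √n := by
    have h1 : (m₀ + 2) / r' ≤ √n := by
      apply Real.le_sqrt_of_sq_le hnr
    rw [div_le_iff₀ hr'0] at h1
    linarith
  set m : ℕ := ⌊r' * √n⌋₊ with hm
  have hmle : (m : ℝ) ≤ r' * √n := Nat.floor_le (by positivity)
  have hmge : r' * √n < (m : ℝ) + 1 := Nat.lt_floor_add_one _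
  have hm₀ : m₀ ≤ m := by
    have : (m₀ : ℝ) ≤ m := by linarith
    exact_mod_cast this
  have hm1r : (1 : ℝ) ≤ m := by
    have : (0 : ℝ) ≤ m₀ := Nat.cast_nonneg _
    linarith
  have hm1 : (1 : ℤ) ≤ (m : ℤ) := by exact_mod_cast hm1r
  have hm2 : r' * √n / 2 ≤ m := by
    have : (0 : ℝ) ≤ m₀ := Nat.cast_nonneg _
    linarith
  have hrr' : r' * √n ≤ r * √n := by
    have := min_le_left r (ρ η₀)
    gcongr
  have hρr' : r' * √n ≤ ρ η₀ * √n := by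
    have := min_le_right r (ρ η₀)
    gcongr
  have hbox : ∀ z : ℤ × ℤ, box (m : ℤ) z → InBox n r z := fun z hz =>
    inBox_of_box (by push_cast; linarith) hz
  -- the differences at the origin
  have hb0 : box (m : ℤ) (0, 0) := by constructor <;> simp
  have hb1 : box (m : ℤ) ((0, 0) + (1, 0)) := by constructor <;> simp <;> omega
  have hb2 : box (m : ℤ) ((0, 0) + (0, 1)) := by constructor <;> simp <;> omega
  have hψ : ∀ x y, box (m : ℤ) x → box (m : ℤ) y → x ≠ y → ψ x ≠ ψ y := by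
    intro x y hx hy hxy
    refine grid_inj hn1 (X := X) hκ hK hη₀0.le hη₀K (ψ := ψ) (m := (m : ℤ))
      (hstep (1, 0) (Or.inl rfl) (0, 0) (hbox _ hb0) (hbox _ hb1))
      (hstep (0, 1) (Or.inr rfl) (0, 0) (hbox _ hb0) (hbox _ hb2))
      (hdet (0, 0) (hbox _ hb0) (hbox _ hb1) (hbox _ hb2)) ?_ ?_ hx hy hxy
    · intro z hz hz'
      refine hec (1, 0) (Or.inl rfl) η₀ (min_le_right _ _) (0, 0) z (hbox _ hb0) (hbox _ hb1)
        (hbox _ hz) (hbox _ hz') ?_ ?_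
      · have := abs_le_of_box hmle hz.1
        simp only [sub_zero]
        linarith
      · have := abs_le_of_box hmle hz.2
        simp only [sub_zero]
        linarith
    · intro z hz hz'
      refine hec (0, 1) (Or.inr rfl) η₀ (min_le_right _ _) (0, 0) z (hbox _ hb0) (hbox _ hb2)
        (hbox _ hz) (hbox _ hz') ?_ ?_
      · have := abs_le_of_box hmle hz.1
        simp only [sub_zero]
        linarith
      · have := abs_le_of_box hmle hz.2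
        simp only [sub_zero]
        linarith
  set Q : ℤ × ℤ → ℝ × ℝ := fun z => sc (√n) (X (ψ z)) with hQ
  have hQs : ∀ z z' : ℤ × ℤ, Q z' - Q z = sc (√n) (X (ψ z') - X (ψ z)) := by
    intro z z'; rw [sc_sub]
  set a : ℝ := 2 / Real.pi * A with ha
  have ha0 : 0 ≤ a := by positivity
  have hwide : Wide (m : ℤ) a Q := by
    intro x y z hx hy hz hxy hxz hyz
    have i1 := hψ x y hx hy hxy
    have i2 := hψ x z hx hz hxz
    have i3 := hψ y z hy hz hyz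
    have hcr := cr_ge_of_angles (p := X (ψ x)) (q := X (ψ y)) (r := X (ψ z)) hA0
      (hinj.ne i1) (hA _ _ _ i1.symm i2 i3) (hA _ _ _ i1 i3 i2) (hA _ _ _ i2 i3.symm i1)
    rw [hQs, hQs, cr_sc, abs_mul, abs_of_nonneg (by positivity : (0 : ℝ) ≤ √n ^ 2)]
    have n1 := norm_sc_le hsn.le (X (ψ y) - X (ψ x))
    have n2 := norm_sc_le hsn.le (X (ψ z) - X (ψ x))
    calc a * ‖sc (√n) (X (ψ y) - X (ψ x))‖ * ‖sc (√n) (X (ψ z) - X (ψ x))‖ ≤
        a * (√n * ‖X (ψ y) - X (ψ x)‖) * (√n * ‖X (ψ z) - X (ψ x)‖) := by gcongr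
      _ = √n ^ 2 * (2 / Real.pi * A * (‖X (ψ y) - X (ψ x)‖ * ‖X (ψ z) - X (ψ x)‖)) := by
          rw [ha]; ring
      _ ≤ √n ^ 2 * |Pool.Agent.Grain.cr (X (ψ y) - X (ψ x)) (X (ψ z) - X (ψ x))| := by gcongr
  have hfin := hmain m hm₀ Q a ?_ ?_ ?_ hwide
  · have hAa : A = Real.pi / 2 * a := by rw [ha]; field_simp
    have hmsq : r' ^ 2 * n / 4 ≤ (m : ℝ) ^ 2 := by
      have h5 : (r' * √n / 2) ^ 2 ≤ (m : ℝ) ^ 2 := pow_le_pow_left₀ (by positivity) hm2 2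
      have h6 : (r' * √n / 2) ^ 2 = r' ^ 2 * n / 4 := by
        rw [div_pow, mul_pow, Real.sq_sqrt hn0.le]; norm_num
      linarith
    have hAb : A ≤ ε₁ / n := by
      rw [le_div_iff₀ hn0, hAa]
      have h7 : a * (r' ^ 2 * n / 4) ≤ ε₂ := le_trans (by gcongr) hfin
      rw [hε₂, le_div_iff₀ (by positivity)] at h7
      have h8 : 0 < r' ^ 2 := by positivity
      refine le_of_mul_le_mul_right ?_ h8
      nlinarith
    refine ⟨hAb.trans (by gcongr), ?_⟩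
    have hne : ψ (0, 0) ≠ ψ ((0, 0) + (1, 0)) := hψ _ _ hb0 hb1 (by simp)
    have hDle : D ≤ K / √n := by
      have h5 := hD _ _ hne
      rw [dist_comm, dist_eq_norm] at h5
      exact h5.trans (hstep (1, 0) (Or.inl rfl) (0, 0) (hbox _ hb0) (hbox _ hb1))
    have hpow : (n : ℝ) ^ (-(3 / 2 : ℝ)) = 1 / (√n * n) := by
      rw [Real.rpow_neg hn0.le, one_div]
      congr 1
      rw [show (3 / 2 : ℝ) = 1 / 2 + 1 by norm_num, Real.rpow_add hn0, Real.rpow_one,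
        ← Real.sqrt_eq_rpow]
    rw [hpow]
    calc D * A ≤ (K / √n) * (ε₁ / n) := by gcongr
      _ = (K * ε₁) * (1 / (√n * n)) := by field_simp
      _ ≤ ε * (1 / (√n * n)) := by gcongr
  · intro e he z hz hz'
    rw [hQs]
    refine (norm_sc_le hsn.le _).trans ?_
    have := hstep e he z (hbox _ hz) (hbox _ hz')
    rw [le_div_iff₀ hsn] at this
    linarith
  · intro z hz hz1 hz2
    rw [hQs, hQs, cr_sc, abs_mul, abs_of_nonneg (by positivity : (0 : ℝ) ≤ √n ^ 2),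
      Real.sq_sqrt hn0.le]
    have := hdet z (hbox _ hz) (hbox _ hz1) (hbox _ hz2)
    rw [div_le_iff₀ hn0] at this
    linarith
  · intro e he η hη z z' hz hz1 hz' hz1' hzz
    rw [hQs, hQs, ← sc_sub]
    refine (norm_sc_le hsn.le _).trans ?_
    have hv : ρ η / r' * m ≤ ρ η * √n := by
      have h0 : 0 < ρ η := hρ η (lt_of_lt_of_le hδ₀ hη)
      rw [div_mul_eq_mul_div, div_le_iff₀ hr'0]
      nlinarith
    have v1 : |((z'.1 - z.1 : ℤ) : ℝ)| ≤ ‖vv (z' - z)‖ := norm_fst_le (vv (z' - z))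
    have v2 : |((z'.2 - z.2 : ℤ) : ℝ)| ≤ ‖vv (z' - z)‖ := norm_snd_le (vv (z' - z))
    have := hec e he η ((min_le_left _ _).trans hη) z z' (hbox _ hz) (hbox _ hz1) (hbox _ hz')
      (hbox _ hz1') (by linarith) (by linarith)
    rw [le_div_iff₀ hsn] at this
    linarith

end Pool.Agent.C1Grid
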