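import Pool.Agent.C1Grid.Kron

/-!
# Tangent lines stay tangent
-/

set_option autoImplicit false

namespace Pool.Agent.C1Grid

open Pool.Agent.GridLat Filter Topology

/-- The curve `f = 0` through a point where its slope vanishes, if all slopes are rational. -/
theorem straight_of_rat {f P R : ℝ → ℝ → ℝ} {T c : ℝ} (hT : 0 < T) (hc : 0 < c)
    (ht : ∀ t ∈ Set.Icc 0 T, ∀ s ∈ Set.Icc (-T) T, HasDerivAt (fun t => f t s) (P t s) t)
    (hs : ∀ t ∈ Set.Icc 0 T, ∀ s ∈ Set.Icc (-T) T, HasDerivAt (fun s => f t s) (R t s) s)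
    (hP : ∀ t ∈ Set.Icc 0 T, ∀ s ∈ Set.Icc (-T) T, |P t s| ≤ c / 4)
    (hR : ∀ t ∈ Set.Icc 0 T, ∀ s ∈ Set.Icc (-T) T, c ≤ R t s)
    (hPc : ContinuousOn (fun p : ℝ × ℝ => P p.1 p.2) (Set.Icc 0 T ×ˢ Set.Icc (-T) T))
    (hRc : ContinuousOn (fun p : ℝ × ℝ => R p.1 p.2) (Set.Icc 0 T ×ˢ Set.Icc (-T) T))
    (h00 : f 0 0 = 0) (hP0 : P 0 0 = 0)
    (hrat : ∀ t ∈ Set.Ioc 0 T, ∀ s ∈ Set.Icc (-T) T, f t s = 0 → ¬ Irrational (P t s / R t s)) :
    ∀ t ∈ Set.Icc 0 T, f t 0 = 0 := by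
  have hmono : ∀ t ∈ Set.Icc 0 T, ∀ s ∈ Set.Icc (-T) T, ∀ s' ∈ Set.Icc (-T) T, s < s' →
      c * (s' - s) ≤ f t s' - f t s := by
    intro t htt s hss s' hss' hlt
    obtain ⟨ξ, hξ, he⟩ := exists_hasDerivAt_eq_slope (fun s => f t s) (fun s => R t s) hlt
      (fun x hx => (hs t htt x ⟨hss.1.trans hx.1, hx.2.trans hss'.2⟩).continuousAt.continuousWithinAt)
      (fun x hx => hs t htt x ⟨hss.1.trans hx.1.le, hx.2.le.trans hss'.2⟩)
    have h1 := hR t htt ξ ⟨hss.1.trans hξ.1.le, hξ.2.le.trans hss'.2⟩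
    have h2 : 0 < s' - s := sub_pos.2 hlt
    rw [he, le_div_iff₀ h2] at h1
    exact h1
  have hmono' : ∀ t ∈ Set.Icc 0 T, ∀ s ∈ Set.Icc (-T) T, ∀ s' ∈ Set.Icc (-T) T,
      c * |s' - s| ≤ |f t s' - f t s| := by
    intro t htt s hss s' hss'
    rcases lt_trichotomy s s' with h | h | h
    · have := hmono t htt s hss s' hss' h
      rw [abs_of_pos (sub_pos.2 h)]
      exact this.trans (le_abs_self _)
    · subst h; simp
    · have := hmono t htt s' hss' s hss h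
      rw [abs_sub_comm, abs_of_pos (sub_pos.2 h), abs_sub_comm (f t s')]
      exact this.trans (le_abs_self _)
  have hlip : ∀ s ∈ Set.Icc (-T) T, ∀ t ∈ Set.Icc 0 T, ∀ t' ∈ Set.Icc 0 T,
      |f t' s - f t s| ≤ c / 4 * |t' - t| := by
    intro s hss
    have key : ∀ t ∈ Set.Icc 0 T, ∀ t' ∈ Set.Icc 0 T, t < t' →
        |f t' s - f t s| ≤ c / 4 * |t' - t| := by
      intro t htt t' htt' hlt
      obtain ⟨ξ, hξ, he⟩ := exists_hasDerivAt_eq_slope (fun t => f t s) (fun t => P t s) hlt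
        (fun x hx => (ht x ⟨htt.1.trans hx.1, hx.2.trans htt'.2⟩ s hss).continuousAt.continuousWithinAt)
        (fun x hx => ht x ⟨htt.1.trans hx.1.le, hx.2.le.trans htt'.2⟩ s hss)
      have h1 := hP ξ ⟨htt.1.trans hξ.1.le, hξ.2.le.trans htt'.2⟩ s hss
      have h2 : 0 < t' - t := sub_pos.2 hlt
      rw [he, abs_div, abs_of_pos h2, div_le_iff₀ h2] at h1
      rw [abs_of_pos h2]
      exact h1
    intro t htt t' htt'
    rcases lt_trichotomy t t' with h | h | h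
    · exact key t htt t' htt' h
    · subst h; simp
    · rw [abs_sub_comm, abs_sub_comm t']
      exact key t' htt' t htt h
  -- the curve
  have hex : ∀ t, ∃ s, t ∈ Set.Icc 0 T → s ∈ Set.Icc (-t) t ∧ f t s = 0 := by
    intro t
    by_cases htt : t ∈ Set.Icc 0 T
    swap
    · exact ⟨0, fun h => absurd h htt⟩
    have h0T : (0 : ℝ) ∈ Set.Icc (-T) T := ⟨by linarith, hT.le⟩
    have h1 := hlip 0 h0T 0 ⟨le_rfl, hT.le⟩ t htt
    rw [h00, sub_zero, sub_zero, abs_of_nonneg htt.1] at h1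
    have h1' := abs_le.1 h1
    have htT : t ∈ Set.Icc (-T) T := ⟨by linarith [htt.1], htt.2⟩
    have htT' : -t ∈ Set.Icc (-T) T := ⟨by linarith [htt.2], by linarith [htt.1]⟩
    have hup : 0 ≤ f t t := by
      rcases eq_or_lt_of_le htt.1 with h | h
      · rw [← h, h00]
      · have := hmono t htt 0 h0T t htT h
        have h3 : 0 < c * t := mul_pos hc h
        linarith [h1'.1]
    have hdn : f t (-t) ≤ 0 := by
      rcases eq_or_lt_of_le htt.1 with h | h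
      · rw [← h, neg_zero, h00]
      · have := hmono t htt (-t) htT' 0 h0T (by linarith)
        have h3 : 0 < c * t := mul_pos hc h
        linarith [h1'.2]
    have hcont : ContinuousOn (fun s => f t s) (Set.Icc (-t) t) := fun s hs' =>
      (hs t htt s ⟨by linarith [hs'.1, htt.2], hs'.2.trans htt.2⟩).continuousAt.continuousWithinAt
    obtain ⟨s, hs1, hs2⟩ := intermediate_value_Icc (by linarith [htt.1]) hcont
      (show (0 : ℝ) ∈ Set.Icc (f t (-t)) (f t t) from ⟨hdn, hup⟩)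
    exact ⟨s, fun _ => ⟨hs1, hs2⟩⟩
  choose g hg using hex
  have hgT : ∀ t ∈ Set.Icc 0 T, g t ∈ Set.Icc (-T) T := by
    intro t htt
    have := (hg t htt).1
    exact ⟨by linarith [this.1, htt.2], this.2.trans htt.2⟩
  have hg0 : g 0 = 0 := by
    have := (hg 0 ⟨le_rfl, hT.le⟩).1
    rw [neg_zero, Set.Icc_self] at this
    exact this
  have hgl : ∀ t ∈ Set.Icc 0 T, ∀ t' ∈ Set.Icc 0 T, c * |g t' - g t| ≤ |f t' (g t)| := by
    intro t htt t' htt'
    have h1 := hmono' t' htt' (g t) (hgT t htt) (g t') (hgT t' htt')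
    rw [(hg t' htt').2, zero_sub, abs_neg] at h1
    exact h1
  have hgc : ContinuousOn g (Set.Icc 0 T) := by
    intro t htt
    rw [ContinuousWithinAt, Metric.tendsto_nhdsWithin_nhds]
    intro e he
    refine ⟨e, he, ?_⟩
    intro t' htt' hd
    rw [Real.dist_eq] at hd ⊢
    have h1 := hgl t htt t' htt'
    have h2 := hlip (g t) (hgT t htt) t htt t' htt'
    rw [(hg t htt).2, sub_zero] at h2
    have h3 : c * |g t' - g t| ≤ c / 4 * |t' - t| := h1.trans h2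
    have h4 : |g t' - g t| ≤ |t' - t| / 4 := by
      have : c * |g t' - g t| ≤ c * (|t' - t| / 4) := by linarith
      exact le_of_mul_le_mul_left this hc
    linarith [abs_nonneg (t' - t)]
  have hpair : ContinuousOn (fun t => ((t, g t) : ℝ × ℝ)) (Set.Icc 0 T) :=
    continuousOn_id.prodMk hgc
  have hmaps : Set.MapsTo (fun t => ((t, g t) : ℝ × ℝ)) (Set.Icc 0 T)
      (Set.Icc 0 T ×ˢ Set.Icc (-T) T) := fun t htt => ⟨htt, hgT t htt⟩
  have hq : ContinuousOn (fun t => P t (g t) / R t (g t)) (Set.Icc 0 T) := by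
    refine (hPc.comp hpair hmaps).div (hRc.comp hpair hmaps) ?_
    intro t htt
    have := hR t htt (g t) (hgT t htt)
    exact (lt_of_lt_of_le hc this).ne'
  have hq0 : ∀ t ∈ Set.Icc 0 T, P t (g t) / R t (g t) = 0 := by
    intro t htt
    by_contra hne
    have hq00 : P 0 (g 0) / R 0 (g 0) = 0 := by rw [hg0, hP0, zero_div]
    have hno : ∀ t' ∈ Set.Icc 0 t, ¬ Irrational (P t' (g t') / R t' (g t')) := by
      intro t' ht'
      rcases eq_or_lt_of_le ht'.1 with h | h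
      · rw [← h, hq00]
        exact fun h' => h' ⟨0, by simp⟩
      · have h5 : t' ∈ Set.Icc 0 T := ⟨ht'.1, ht'.2.trans htt.2⟩
        exact hrat t' ⟨h, h5.2⟩ (g t') (hgT t' h5) (hg t' h5).2
    have hq' : ContinuousOn (fun t => P t (g t) / R t (g t)) (Set.Icc 0 t) :=
      hq.mono (Set.Icc_subset_Icc_right htt.2)
    rcases lt_or_gt_of_ne hne with h | h
    · obtain ⟨r, hr, hr1, hr2⟩ := exists_irrational_btwn h
      obtain ⟨t', ht', he⟩ := intermediate_value_Icc' htt.1 hq'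
        (show r ∈ Set.Icc (P t (g t) / R t (g t)) (P 0 (g 0) / R 0 (g 0)) from
          ⟨hr1.le, by rw [hq00]; exact hr2.le⟩)
      have h6 := hno t' ht'
      simp only at he
      rw [he] at h6
      exact h6 hr
    · obtain ⟨r, hr, hr1, hr2⟩ := exists_irrational_btwn h
      obtain ⟨t', ht', he⟩ := intermediate_value_Icc htt.1 hq'
        (show r ∈ Set.Icc (P 0 (g 0) / R 0 (g 0)) (P t (g t) / R t (g t)) from
          ⟨by rw [hq00]; exact hr1.le, hr2.le⟩)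
      have h6 := hno t' ht'
      simp only at he
      rw [he] at h6
      exact h6 hr
  have hPz : ∀ t ∈ Set.Icc 0 T, P t (g t) = 0 := by
    intro t htt
    have h1 := hq0 t htt
    have h2 := hR t htt (g t) (hgT t htt)
    rcases div_eq_zero_iff.1 h1 with h | h
    · exact h
    · exact absurd h (lt_of_lt_of_le hc h2).ne'
  have hgd : ∀ t ∈ Set.Ico 0 T, HasDerivWithinAt g 0 (Set.Ici t) t := by
    intro t htt
    have htt' : t ∈ Set.Icc 0 T := ⟨htt.1, htt.2.le⟩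
    have hd := ht t htt' (g t) (hgT t htt')
    rw [hPz t htt', hasDerivAt_iff_isLittleO] at hd
    simp only [smul_zero, sub_zero, (hg t htt').2] at hd
    rw [hasDerivWithinAt_iff_isLittleO]
    simp only [smul_zero, sub_zero]
    have hd' := hd.mono (nhdsWithin_le_nhds (s := Set.Ici t))
    refine Asymptotics.IsBigO.trans_isLittleO ?_ hd'
    refine Asymptotics.IsBigO.of_bound c⁻¹ ?_
    have hev : ∀ᶠ t' in 𝓝[Set.Ici t] t, t' ∈ Set.Icc 0 T := by
      have h1 : ∀ᶠ t' in 𝓝[Set.Ici t] t, t' ∈ Set.Ici t := self_mem_nhdsWithin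
      have h2 : ∀ᶠ t' in 𝓝[Set.Ici t] t, t' < T :=
        nhdsWithin_le_nhds (eventually_lt_nhds htt.2)
      filter_upwards [h1, h2] with t' h3 h4
      exact ⟨htt.1.trans h3, h4.le⟩
    filter_upwards [hev] with t' ht'
    have h1 := hgl t htt' t' ht'
    rw [Real.norm_eq_abs, Real.norm_eq_abs, inv_mul_eq_div, le_div_iff₀ hc, mul_comm]
    exact h1
  intro t htt
  have hconst := constant_of_has_deriv_right_zero hgc hgd t htt
  rw [hg0] at hconst
  have := (hg t htt).2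
  rwa [hconst] at this

theorem hasDerivAt_cr (A : ℝ × ℝ) {φ : ℝ → ℝ × ℝ} {φ' : ℝ × ℝ} {t : ℝ} (h : HasDerivAt φ φ' t) :
    HasDerivAt (fun t => cr A (φ t)) (cr A φ') t := by
  have h1 : HasDerivAt (fun t => (φ t).1) φ'.1 t :=
    (ContinuousLinearMap.fst ℝ ℝ ℝ).hasFDerivAt.comp_hasDerivAt t h
  have h2 : HasDerivAt (fun t => (φ t).2) φ'.2 t :=
    (ContinuousLinearMap.snd ℝ ℝ ℝ).hasFDerivAt.comp_hasDerivAt t h
  unfold cr
  exact (h2.const_mul _).sub (h1.const_mul _)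

theorem hasDerivAt_path {Φ : ℝ × ℝ → ℝ × ℝ} {L : ℝ × ℝ →L[ℝ] ℝ × ℝ} {y₀ W : ℝ × ℝ} {t : ℝ}
    (h : HasFDerivAt Φ L (y₀ + t • W)) : HasDerivAt (fun t : ℝ => Φ (y₀ + t • W)) (L W) t := by
  have h1 : HasDerivAt (fun t : ℝ => y₀ + t • W) W t := by
    have := ((hasDerivAt_id t).smul_const W).const_add y₀
    simpa using this
  exact h.comp_hasDerivAt t h1

theorem cr_lin_lin (g1 g2 g1' g2' V W : ℝ × ℝ) :
    cr (lin g1 g2 V) (lin g1' g2' W) = V.1 * W.1 * cr g1 g1' + V.1 * W.2 * cr g1 g2' +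
      V.2 * W.1 * cr g2 g1' + V.2 * W.2 * cr g2 g2' := by
  simp only [lin_apply, cr, Prod.fst_add, Prod.snd_add, Prod.smul_fst, Prod.smul_snd, smul_eq_mul]
  ring

/-- The brackets of the difference field near the origin. -/
theorem near_brackets {G1 G2 : ℝ × ℝ → ℝ × ℝ} (hc1 : ContinuousAt G1 0) (hc2 : ContinuousAt G2 0)
    {e : ℝ} (he : 0 < e) : ∃ r : ℝ, 0 < r ∧ ∀ x ∈ Metric.ball (0 : ℝ × ℝ) r,
      ∀ y ∈ Metric.ball (0 : ℝ × ℝ) r, ∀ V W : ℝ × ℝ,
      |cr (lin (G1 x) (G2 x) V) (lin (G1 y) (G2 y) W) -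
        cr (G1 0) (G2 0) * (V.1 * W.2 - V.2 * W.1)| ≤ 4 * e * ‖V‖ * ‖W‖ := by
  have hf : Tendsto (fun p : (ℝ × ℝ) × (ℝ × ℝ) => p.1) (𝓝 (0, 0)) (𝓝 0) := continuous_fst.tendsto _
  have hs : Tendsto (fun p : (ℝ × ℝ) × (ℝ × ℝ) => p.2) (𝓝 (0, 0)) (𝓝 0) := continuous_snd.tendsto _
  have key : ∀ {A B : ℝ × ℝ → ℝ × ℝ}, ContinuousAt A 0 → ContinuousAt B 0 →
      ∀ᶠ p : (ℝ × ℝ) × (ℝ × ℝ) in 𝓝 (0, 0), |cr (A p.1) (B p.2) - cr (A 0) (B 0)| < e := by
    intro A B hA hB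
    have h1 := ((cr_cont (hA.tendsto.comp hf) (hB.tendsto.comp hs)).sub_const
      (cr (A 0) (B 0))).abs
    rw [sub_self, abs_zero] at h1
    exact h1.eventually (gt_mem_nhds he)
  obtain ⟨r, hr, hr'⟩ := Metric.eventually_nhds_iff.1
    ((key hc1 hc1).and ((key hc1 hc2).and ((key hc2 hc1).and (key hc2 hc2))))
  refine ⟨r, hr, ?_⟩
  intro x hx y hy V W
  obtain ⟨h11, h12, h21, h22⟩ := @hr' (x, y) (by
    rw [Prod.dist_eq]
    exact max_lt hx hy)
  simp only at h11 h12 h21 h22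
  rw [cr_self, sub_zero] at h11 h22
  rw [cr_swap (G2 0) (G1 0)] at h21
  have hV1 : |V.1| ≤ ‖V‖ := norm_fst_le V
  have hV2 : |V.2| ≤ ‖V‖ := norm_snd_le V
  have hW1 : |W.1| ≤ ‖W‖ := norm_fst_le W
  have hW2 : |W.2| ≤ ‖W‖ := norm_snd_le W
  have hterm : ∀ a b d : ℝ, |a| ≤ ‖V‖ → |b| ≤ ‖W‖ → |d| < e → |a * b * d| ≤ e * ‖V‖ * ‖W‖ := by
    intro a b d ha hb hd
    rw [abs_mul, abs_mul]
    calc |a| * |b| * |d| ≤ (‖V‖ * ‖W‖) * e :=
          mul_le_mul (mul_le_mul ha hb (abs_nonneg _) (norm_nonneg _)) hd.le (abs_nonneg _)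
            (by positivity)
      _ = _ := by ring
  have e1 : cr (lin (G1 x) (G2 x) V) (lin (G1 y) (G2 y) W) -
      cr (G1 0) (G2 0) * (V.1 * W.2 - V.2 * W.1) =
      V.1 * W.1 * cr (G1 x) (G1 y) + V.1 * W.2 * (cr (G1 x) (G2 y) - cr (G1 0) (G2 0)) +
      V.2 * W.1 * (cr (G2 x) (G1 y) - -cr (G1 0) (G2 0)) + V.2 * W.2 * cr (G2 x) (G2 y) := by
    rw [cr_lin_lin]; ring
  rw [e1]
  refine (abs_add_le _ _).trans ?_
  have t1 := hterm _ _ _ hV2 hW2 h22
  have t2 := hterm _ _ _ hV1 hW1 h11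
  have t3 := hterm _ _ _ hV1 hW2 h12
  have t4 := hterm _ _ _ hV2 hW1 h21
  have s1 := abs_add_le (V.1 * W.1 * cr (G1 x) (G1 y) +
    V.1 * W.2 * (cr (G1 x) (G2 y) - cr (G1 0) (G2 0)))
    (V.2 * W.1 * (cr (G2 x) (G1 y) - -cr (G1 0) (G2 0)))
  have s2 := abs_add_le (V.1 * W.1 * cr (G1 x) (G1 y))
    (V.1 * W.2 * (cr (G1 x) (G2 y) - cr (G1 0) (G2 0)))
  linarith

theorem tangent24 {Φ G1 G2 : ℝ × ℝ → ℝ × ℝ} {r₀ : ℝ} (hr₀ : 0 < r₀)
    (hder : ∀ y ∈ Metric.ball (0 : ℝ × ℝ) r₀, HasFDerivAt Φ (lin (G1 y) (G2 y)) y)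
    (hc1 : ContinuousOn G1 (Metric.ball 0 r₀)) (hc2 : ContinuousOn G2 (Metric.ball 0 r₀))
    (hdet : cr (G1 0) (G2 0) ≠ 0)
    (hrat : ∀ x ∈ Metric.ball (0 : ℝ × ℝ) r₀, ∀ y ∈ Metric.ball (0 : ℝ × ℝ) r₀, ∀ v : ℤ × ℤ,
      v ≠ 0 → x ≠ y → Φ x ≠ Φ y → cr (lin (G1 x) (G2 x) (vv v)) (Φ y - Φ x) = 0 →
      cr (lin (G1 x) (G2 x) (vv v)) (lin (G1 y) (G2 y) (vv (perp v))) ≠ 0 →
      ¬ Irrational (cr (lin (G1 x) (G2 x) (vv v)) (lin (G1 y) (G2 y) (vv v)) /
        cr (lin (G1 x) (G2 x) (vv v)) (lin (G1 y) (G2 y) (vv (perp v))))) :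
    ∃ r₁ : ℝ, 0 < r₁ ∧ r₁ ≤ r₀ ∧ ∀ x ∈ Metric.ball (0 : ℝ × ℝ) r₁, ∀ (v : ℤ × ℤ) (t : ℝ),
      x + t • vv v ∈ Metric.ball (0 : ℝ × ℝ) r₁ →
      cr (lin (G1 x) (G2 x) (vv v)) (Φ (x + t • vv v) - Φ x) = 0 := by
  obtain ⟨Δ, hΔ⟩ : ∃ Δ, Δ = cr (G1 0) (G2 0) := ⟨_, rfl⟩
  have hΔ0 : 0 < |Δ| := by rw [hΔ]; exact abs_pos.2 hdet
  have hmem0 : (0 : ℝ × ℝ) ∈ Metric.ball (0 : ℝ × ℝ) r₀ := Metric.mem_ball_self hr₀
  obtain ⟨r', hr', hB⟩ := near_brackets (hc1.continuousAt (Metric.isOpen_ball.mem_nhds hmem0))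
    (hc2.continuousAt (Metric.isOpen_ball.mem_nhds hmem0)) (e := |Δ| / 64) (by positivity)
  obtain ⟨r, hr⟩ : ∃ r, r = min r' r₀ := ⟨_, rfl⟩
  have hr0 : 0 < r := by rw [hr]; exact lt_min hr' hr₀
  have hsub : Metric.ball (0 : ℝ × ℝ) r ⊆ Metric.ball 0 r₀ :=
    Metric.ball_subset_ball (by rw [hr]; exact min_le_right _ _)
  have hB' : ∀ x ∈ Metric.ball (0 : ℝ × ℝ) r, ∀ y ∈ Metric.ball (0 : ℝ × ℝ) r, ∀ V W : ℝ × ℝ,
      |cr (lin (G1 x) (G2 x) V) (lin (G1 y) (G2 y) W) - Δ * (V.1 * W.2 - V.2 * W.1)| ≤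
        |Δ| / 16 * ‖V‖ * ‖W‖ := by
    intro x hx y hy V W
    have hs' : Metric.ball (0 : ℝ × ℝ) r ⊆ Metric.ball 0 r' :=
      Metric.ball_subset_ball (by rw [hr]; exact min_le_left _ _)
    have := hB x (hs' hx) y (hs' hy) V W
    rw [← hΔ] at this
    refine this.trans (le_of_eq (by ring))
  have hnormsq : ∀ V : ℝ × ℝ, ‖V‖ ^ 2 ≤ V.1 * V.1 + V.2 * V.2 := by
    intro V
    rw [Prod.norm_def]
    rcases max_choice ‖V.1‖ ‖V.2‖ with h | h
    · rw [h, Real.norm_eq_abs, sq_abs]; nlinarith [mul_self_nonneg V.2]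
    · rw [h, Real.norm_eq_abs, sq_abs]; nlinarith [mul_self_nonneg V.1]
  -- injectivity
  have hinj : ∀ x ∈ Metric.ball (0 : ℝ × ℝ) r, ∀ y ∈ Metric.ball (0 : ℝ × ℝ) r, x ≠ y →
      Φ x ≠ Φ y := by
    intro x hx y hy hxy hcon
    obtain ⟨V, hV⟩ : ∃ V, V = y - x := ⟨_, rfl⟩
    have hV0 : V ≠ 0 := by rw [hV]; exact sub_ne_zero.2 (Ne.symm hxy)
    have hVn : 0 < ‖V‖ := norm_pos_iff.2 hV0
    obtain ⟨V', hV'⟩ : ∃ V' : ℝ × ℝ, V' = (V.2, -V.1) := ⟨_, rfl⟩
    have hV'n : ‖V'‖ = ‖V‖ := by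
      rw [hV', Prod.norm_def, Prod.norm_def]
      simp only [norm_neg]
      exact max_comm _ _
    have hpt : ∀ θ ∈ Set.Icc (0 : ℝ) 1, x + θ • V ∈ Metric.ball (0 : ℝ × ℝ) r := by
      intro θ hθ
      exact (convex_ball (0 : ℝ × ℝ) r).add_smul_mem hx (by rw [hV]; simpa using hy) hθ
    obtain ⟨ξ, hξ, he⟩ := exists_hasDerivAt_eq_slope
      (fun θ : ℝ => cr (lin (G1 x) (G2 x) V') (Φ (x + θ • V)))
      (fun θ : ℝ => cr (lin (G1 x) (G2 x) V') (lin (G1 (x + θ • V)) (G2 (x + θ • V)) V))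
      (zero_lt_one' ℝ)
      (fun θ hθ => (hasDerivAt_cr _ (hasDerivAt_path
        (hder _ (hsub (hpt θ hθ))))).continuousAt.continuousWithinAt)
      (fun θ hθ => hasDerivAt_cr _ (hasDerivAt_path (hder _ (hsub (hpt θ ⟨hθ.1.le, hθ.2.le⟩)))))
    have e1 : x + (1 : ℝ) • V = y := by rw [hV]; simp
    have e0 : x + (0 : ℝ) • V = x := by simp
    simp only [e1, e0, hcon, sub_self, zero_div] at he
    have h1 := hB' x hx _ (hpt ξ ⟨hξ.1.le, hξ.2.le⟩) V' V
    rw [he, hV'n] at h1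
    have e2 : V'.1 * V.2 - V'.2 * V.1 = V.1 * V.1 + V.2 * V.2 := by rw [hV']; ring
    rw [e2, zero_sub, abs_neg, abs_mul] at h1
    have h2 := hnormsq V
    have h3 : |V.1 * V.1 + V.2 * V.2| = V.1 * V.1 + V.2 * V.2 :=
      abs_of_nonneg (by nlinarith [mul_self_nonneg V.1, mul_self_nonneg V.2])
    rw [h3] at h1
    have h4 : |Δ| * ‖V‖ ^ 2 ≤ |Δ| * (V.1 * V.1 + V.2 * V.2) :=
      mul_le_mul_of_nonneg_left h2 hΔ0.le
    have h5 : 0 < |Δ| * ‖V‖ ^ 2 := by positivity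
    nlinarith
  -- the positive times
  have key : ∀ x ∈ Metric.ball (0 : ℝ × ℝ) (r / 3), ∀ (v : ℤ × ℤ), v ≠ 0 → ∀ t : ℝ, 0 < t →
      x + t • vv v ∈ Metric.ball (0 : ℝ × ℝ) (r / 3) →
      cr (lin (G1 x) (G2 x) (vv v)) (Φ (x + t • vv v) - Φ x) = 0 := by
    intro x hx v hv T hT hxT
    obtain ⟨V, hV⟩ : ∃ V, V = vv v := ⟨_, rfl⟩
    obtain ⟨W, hW⟩ : ∃ W, W = vv (perp v) := ⟨_, rfl⟩
    have hW1 : W.1 = -V.2 := by rw [hW, hV]; simp [vv, perp]
    have hW2 : W.2 = V.1 := by rw [hW, hV]; simp [vv, perp]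
    have hWn : ‖W‖ = ‖V‖ := by
      rw [Prod.norm_def, Prod.norm_def, hW1, hW2, norm_neg, max_comm]
    have hV0 : V ≠ 0 := by
      rw [hV]
      intro hcon
      apply hv
      have h1 := congrArg Prod.fst hcon
      have h2 := congrArg Prod.snd hcon
      simp only [vv, Prod.fst_zero, Prod.snd_zero, Int.cast_eq_zero] at h1 h2
      exact Prod.ext h1 h2
    have hVn : 0 < ‖V‖ := norm_pos_iff.2 hV0
    rw [← hV] at hxT ⊢
    have hxr : x ∈ Metric.ball (0 : ℝ × ℝ) r := Metric.ball_subset_ball (by linarith) hx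
    -- all points used lie in the ball
    have hTV : T * ‖V‖ < 2 * (r / 3) := by
      rw [mem_ball_zero_iff] at hx hxT
      have h1 : ‖T • V‖ ≤ ‖x + T • V‖ + ‖x‖ := by
        have : T • V = (x + T • V) - x := by abel
        calc ‖T • V‖ = ‖(x + T • V) - x‖ := by rw [← this]
          _ ≤ _ := norm_sub_le _ _
      rw [norm_smul, Real.norm_of_nonneg hT.le] at h1
      linarith
    have hpt : ∀ t ∈ Set.Icc 0 T, ∀ s ∈ Set.Icc (-T) T,
        x + t • V + s • W ∈ Metric.ball (0 : ℝ × ℝ) r := by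
      intro t ht s hs
      have h1 : x + t • V ∈ Metric.ball (0 : ℝ × ℝ) (r / 3) := by
        have h2 := (convex_ball (0 : ℝ × ℝ) (r / 3)).add_smul_mem hx hxT
          (t := t / T) ⟨div_nonneg ht.1 hT.le, (div_le_one hT).2 ht.2⟩
        rw [smul_smul, div_mul_cancel₀ _ hT.ne'] at h2
        exact h2
      rw [mem_ball_zero_iff] at h1 ⊢
      have h3 : ‖s • W‖ ≤ T * ‖V‖ := by
        rw [norm_smul, hWn, Real.norm_eq_abs]
        exact mul_le_mul_of_nonneg_right (abs_le.2 hs) (norm_nonneg _)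
      have h4 := norm_add_le (x + t • V) (s • W)
      linarith
    obtain ⟨σ, hσ, hσ1⟩ : ∃ σ : ℝ, σ * Δ = |Δ| ∧ |σ| = 1 := by
      rcases le_total 0 Δ with h | h
      · exact ⟨1, by rw [one_mul, abs_of_nonneg h], abs_one⟩
      · exact ⟨-1, by rw [abs_of_nonpos h]; ring, by simp⟩
    have hσ0 : σ ≠ 0 := by
      intro h; rw [h, abs_zero] at hσ1; exact zero_ne_one hσ1
    set A : ℝ × ℝ := lin (G1 x) (G2 x) V with hA
    have hPb : ∀ t ∈ Set.Icc 0 T, ∀ s ∈ Set.Icc (-T) T,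
        |σ * cr A (lin (G1 (x + t • V + s • W)) (G2 (x + t • V + s • W)) V)| ≤
          (|Δ| * ‖V‖ ^ 2 / 2) / 4 := by
      intro t ht s hs
      have h1 := hB' x hxr _ (hpt t ht s hs) V V
      have e : V.1 * V.2 - V.2 * V.1 = 0 := by ring
      rw [e, mul_zero, sub_zero] at h1
      rw [abs_mul, hσ1, one_mul]
      refine h1.trans ?_
      have : 0 ≤ |Δ| * ‖V‖ ^ 2 := by positivity
      nlinarith
    have hRb : ∀ t ∈ Set.Icc 0 T, ∀ s ∈ Set.Icc (-T) T, |Δ| * ‖V‖ ^ 2 / 2 ≤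
        σ * cr A (lin (G1 (x + t • V + s • W)) (G2 (x + t • V + s • W)) W) := by
      intro t ht s hs
      have h1 := hB' x hxr _ (hpt t ht s hs) V W
      rw [hWn] at h1
      have e : V.1 * W.2 - V.2 * W.1 = V.1 * V.1 + V.2 * V.2 := by rw [hW1, hW2]; ring
      rw [e] at h1
      have h2 : |σ * (cr A (lin (G1 (x + t • V + s • W)) (G2 (x + t • V + s • W)) W) -
          Δ * (V.1 * V.1 + V.2 * V.2))| ≤ |Δ| / 16 * ‖V‖ * ‖V‖ := by
        rw [abs_mul, hσ1, one_mul]; exact h1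
      have h3 := (abs_le.1 h2).1
      have h4 : σ * (Δ * (V.1 * V.1 + V.2 * V.2)) = |Δ| * (V.1 * V.1 + V.2 * V.2) := by
        rw [← mul_assoc, hσ]
      have h5 : |Δ| * ‖V‖ ^ 2 ≤ |Δ| * (V.1 * V.1 + V.2 * V.2) :=
        mul_le_mul_of_nonneg_left (hnormsq V) hΔ0.le
      have h6 : 0 ≤ |Δ| * ‖V‖ ^ 2 := by positivity
      nlinarith
    have hcontG : ∀ Z : ℝ × ℝ, ContinuousOn (fun p : ℝ × ℝ =>
        σ * cr A (lin (G1 (x + p.1 • V + p.2 • W)) (G2 (x + p.1 • V + p.2 • W)) Z))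
        (Set.Icc 0 T ×ˢ Set.Icc (-T) T) := by
      intro Z
      have hmaps : Set.MapsTo (fun p : ℝ × ℝ => x + p.1 • V + p.2 • W)
          (Set.Icc 0 T ×ˢ Set.Icc (-T) T) (Metric.ball 0 r₀) :=
        fun p hp => hsub (hpt p.1 hp.1 p.2 hp.2)
      have hcp : ContinuousOn (fun p : ℝ × ℝ => x + p.1 • V + p.2 • W)
          (Set.Icc 0 T ×ˢ Set.Icc (-T) T) := by fun_prop
      have g1 := hc1.comp hcp hmaps
      have g2 := hc2.comp hcp hmaps
      simp only [lin_apply, cr, Prod.fst_add, Prod.snd_add, Prod.smul_fst, Prod.smul_snd,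
        smul_eq_mul]
      have a1 := continuous_fst.comp_continuousOn g1
      have a2 := continuous_snd.comp_continuousOn g1
      have b1 := continuous_fst.comp_continuousOn g2
      have b2 := continuous_snd.comp_continuousOn g2
      exact continuousOn_const.mul ((continuousOn_const.mul ((continuousOn_const.mul a2).add
        (continuousOn_const.mul b2))).sub (continuousOn_const.mul ((continuousOn_const.mul a1).add
        (continuousOn_const.mul b1))))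
    have hres := straight_of_rat
      (f := fun t s => σ * cr A (Φ (x + t • V + s • W) - Φ x))
      (P := fun t s => σ * cr A (lin (G1 (x + t • V + s • W)) (G2 (x + t • V + s • W)) V))
      (R := fun t s => σ * cr A (lin (G1 (x + t • V + s • W)) (G2 (x + t • V + s • W)) W))
      (T := T) (c := |Δ| * ‖V‖ ^ 2 / 2) hT (by positivity)
      (by
        intro t ht s hs
        have e : ∀ τ : ℝ, x + τ • V + s • W = (x + s • W) + τ • V := fun τ => by abel
        simp only [e]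
        have hd := hder _ (hsub (hpt t ht s hs))
        rw [e] at hd
        exact (hasDerivAt_cr A ((hasDerivAt_path hd).sub_const _)).const_mul σ)
      (by
        intro t ht s hs
        exact (hasDerivAt_cr A ((hasDerivAt_path
          (hder _ (hsub (hpt t ht s hs)))).sub_const _)).const_mul σ)
      hPb hRb (hcontG V) (hcontG W)
      (by simp [cr])
      (by
        simp only [zero_smul, add_zero]
        rw [← hA, cr_self, mul_zero])
      (by
        intro t ht s hs hf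
        have htt : t ∈ Set.Icc 0 T := ⟨ht.1.le, ht.2⟩
        have hy := hpt t htt s hs
        have hne : x ≠ x + t • V + s • W := by
          intro hcon
          have h1 : t • V + s • W = 0 := by
            have : x + (t • V + s • W) = x := by rw [← add_assoc]; exact hcon.symm
            simpa using this
          have h2 := congrArg Prod.fst h1
          have h3 := congrArg Prod.snd h1
          simp only [Prod.fst_add, Prod.snd_add, Prod.smul_fst, Prod.smul_snd, smul_eq_mul, hW1,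
            hW2, Prod.fst_zero, Prod.snd_zero] at h2 h3
          have h4 : t * (V.1 * V.1 + V.2 * V.2) = 0 := by linear_combination V.1 * h2 + V.2 * h3
          have h5 := hnormsq V
          have h6 : 0 < ‖V‖ ^ 2 := by positivity
          rcases mul_eq_zero.1 h4 with h | h
          · exact absurd h ht.1.ne'
          · linarith
        have hf' : cr A (Φ (x + t • V + s • W) - Φ x) = 0 := by
          rcases mul_eq_zero.1 hf with h | h
          · exact absurd h hσ0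
          · exact h
        have hγ : cr A (lin (G1 (x + t • V + s • W)) (G2 (x + t • V + s • W)) W) ≠ 0 := by
          intro hcon
          have h1 := hRb t htt s hs
          rw [hcon, mul_zero] at h1
          have : 0 < |Δ| * ‖V‖ ^ 2 / 2 := by positivity
          linarith
        have h7 := hrat x (hsub hxr) _ (hsub hy) v hv hne (hinj x hxr _ hy hne)
          (by rw [← hV]; exact hf') (by rw [← hV, ← hW]; exact hγ)
        rw [← hV, ← hW] at h7
        rw [mul_div_mul_left _ _ hσ0]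
        exact h7)
    have h8 := hres T ⟨hT.le, le_rfl⟩
    simp only [zero_smul, add_zero] at h8
    rcases mul_eq_zero.1 h8 with h | h
    · exact absurd h hσ0
    · exact h
  refine ⟨r / 3, by positivity, ?_, ?_⟩
  · have : r ≤ r₀ := by rw [hr]; exact min_le_right _ _
    linarith
  intro x hx v t hxt
  rcases eq_or_ne v 0 with h0 | h0
  · subst h0
    have : vv (0 : ℤ × ℤ) = 0 := by ext <;> simp [vv]
    rw [this, map_zero]
    simp [cr]
  · rcases lt_trichotomy t 0 with h | h | h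
    · have hw : vv (-v) = -vv v := by ext <;> simp [vv]
      have e1 : t • vv v = (-t) • vv (-v) := by rw [hw, smul_neg, neg_smul, neg_neg]
      have h1 := key x hx (-v) (neg_ne_zero.2 h0) (-t) (by linarith) (by rw [← e1]; exact hxt)
      rw [← e1, hw, map_neg] at h1
      have e2 : cr (-lin (G1 x) (G2 x) (vv v)) (Φ (x + t • vv v) - Φ x) =
          -cr (lin (G1 x) (G2 x) (vv v)) (Φ (x + t • vv v) - Φ x) := by
        simp only [cr, Prod.fst_neg, Prod.snd_neg]; ring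
      rw [e2] at h1
      linarith
    · subst h
      simp [cr]
    · exact key x hx v h0 t h hxt

end Pool.Agent.C1Grid
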